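import Pool.Agent.L5helper4.DL.Trans

/-!
# Sets sifted by the primes of `(s, Y]`: many differences for which all parts of the progression occur
with the right frequency (adapted from `Pool.Agent.Y843.HS.PartA`)
-/

set_option autoImplicit false

namespace Pool.Agent.L5helper4.DL

open Finset
open Filter (Tendsto atTop eventually_ge_atTop eventually_gt_atTop eventually_atTop)
open Pool.Agent.H602R3.DHJ (av av_const av_mono av_nonneg)
open Pool.Agent.Y727.PSP (rp sl LF LFk Lf S_RS S_SLF)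
open Pool.Agent.Y843.HS

theorem VV_le_one {r a b : ℕ} {Z : ℕ → Finset ℕ} (hZ : Sv r a b Z) (ha : r ≤ a) :
    VV Z a b ≤ 1 := by
  unfold VV
  apply prod_le_one
  · intro p hp
    have h1 := (hZ p hp).1
    have h2 := (Pr_mem.1 hp).1.1
    have hp0 : (0 : ℝ) < p := by exact_mod_cast (Pr_prime hp).pos
    have h3 : ((Z p).card : ℝ) / p ≤ 1 := by
      rw [div_le_one hp0]
      exact_mod_cast (show (Z p).card ≤ p by omega)
    linarith
  · intro p hp
    have : (0 : ℝ) ≤ ((Z p).card : ℝ) / p := by positivity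
    linarith

theorem good_card {X A : ℕ} {δ₁ η : ℝ} {avF avν : ℕ → ℝ} {P Q : ℕ → Prop} [DecidablePred P]
    [DecidablePred Q] [DecidablePred (fun x => P x ∧ Q x ∧ δ₁ / 2 ≤ avF x)]
    (hF : ∀ x, avF x ≤ avν x)
    (h1 : ∑ x ∈ Ioc A (A + X), |avν x - 1| ≤ η * X)
    (h2 : (((Ioc A (A + X)).filter (fun x => ¬ P x)).card : ℝ) ≤ η * X)
    (h3 : (((Ioc A (A + X)).filter (fun x => ¬ Q x)).card : ℝ) ≤ η * X)
    (h4 : δ₁ * X ≤ ∑ x ∈ Ioc A (A + X), avF x) (hη : 8 * η ≤ δ₁) (hδ₁ : 0 < δ₁) :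
    δ₁ / 8 * X ≤ (((Ioc A (A + X)).filter (fun x => P x ∧ Q x ∧ δ₁ / 2 ≤ avF x)).card : ℝ) := by
  classical
  have hcard : (Ioc A (A + X)).card = X := by rw [Nat.card_Ioc]; omega
  have h5 : ∀ x ∈ Ioc A (A + X), avF x ≤ δ₁ / 2 + ((if P x ∧ Q x ∧ δ₁ / 2 ≤ avF x then 1 else 0) +
      ((if ¬ P x then 1 else 0) + ((if ¬ Q x then 1 else 0) + |avν x - 1|))) := by
    intro x _
    have h6 := hF x
    have h7 := le_abs_self (avν x - 1)
    have h8 := abs_nonneg (avν x - 1)
    by_cases hP : P x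
    · by_cases hQ : Q x
      · by_cases hd : δ₁ / 2 ≤ avF x
        · rw [if_pos ⟨hP, hQ, hd⟩, if_neg (not_not.2 hP), if_neg (not_not.2 hQ)]
          linarith
        · rw [if_neg (fun h => hd h.2.2), if_neg (not_not.2 hP), if_neg (not_not.2 hQ)]
          push Not at hd
          linarith
      · rw [if_neg (fun h => hQ h.2.1), if_neg (not_not.2 hP), if_pos hQ]
        linarith
    · rw [if_neg (fun h => hP h.1), if_pos hP]
      have : (0 : ℝ) ≤ if ¬ Q x then 1 else 0 := by split_ifs <;> norm_num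
      linarith
  have h6 := h4.trans (sum_le_sum h5)
  rw [sum_add_distrib, sum_add_distrib, sum_add_distrib, sum_add_distrib, sum_const, hcard,
    nsmul_eq_mul] at h6
  have e1 : ∑ x ∈ Ioc A (A + X), (if P x ∧ Q x ∧ δ₁ / 2 ≤ avF x then (1 : ℝ) else 0) =
      (((Ioc A (A + X)).filter (fun x => P x ∧ Q x ∧ δ₁ / 2 ≤ avF x)).card : ℝ) := by
    rw [card_filter]
    push_cast
    rfl
  have e2 : ∑ x ∈ Ioc A (A + X), (if ¬ P x then (1 : ℝ) else 0) =
      (((Ioc A (A + X)).filter (fun x => ¬ P x)).card : ℝ) := by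
    rw [card_filter]
    push_cast
    rfl
  have e3 : ∑ x ∈ Ioc A (A + X), (if ¬ Q x then (1 : ℝ) else 0) =
      (((Ioc A (A + X)).filter (fun x => ¬ Q x)).card : ℝ) := by
    rw [card_filter]
    push_cast
    rfl
  rw [e1, e2, e3] at h6
  have hX0 : (0 : ℝ) ≤ X := Nat.cast_nonneg X
  have h7 : 8 * η * X ≤ δ₁ * X := mul_le_mul_of_nonneg_right hη hX0
  linarith

open Classical in
/-- (PART A) -/
theorem partA (hTH : S_TH) (hCOR : S_COR) (hGAV : S_GAV) (hDEN : S_DEN) (hRS : S_RS)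
    (hSLF : S_SLF) {k : ℕ} (hk : 2 ≤ k) (r L : ℕ) {δ : ℝ} (hδ : 0 < δ) :
    ∃ s₀ : ℕ, ∃ c : ℝ, 0 < c ∧ ∀ s : ℕ, s₀ ≤ s → ∃ B X₀ : ℕ, ∀ X Y A : ℕ, X₀ ≤ X → X ≤ Y ^ L →
      Y ≤ X ^ L → ∀ Z : ℕ → Finset ℕ, Sv r s Y Z → ∀ T : Finset ℕ, T ⊆ Ioc A (A + X) →
      (∀ t ∈ T, ∀ p ∈ Pr s Y, t % p ∉ Z p) → δ * X * VV Z s Y ≤ T.card →
      ∀ N : ℕ, N.Prime → Real.log X ^ B ≤ N → 2 * N ≤ T.card →
      c * N ≤ (((Icc 1 (N / 2)).filter (fun D => ∀ S ⊆ range k, 0 ∈ S →
        c * X * VV Z s Y ^ S.card ≤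
          ((T.filter (fun t => ∀ j ∈ S, t + j * D ∈ T)).card : ℝ))).card : ℝ) := by
  set M := 2 * ((k + 1) * 2 ^ (k + 1)) with hM
  obtain ⟨C, hC1, hC⟩ := hTH r
  obtain ⟨C1, hC1'⟩ := hCOR r M C
  set C2 := C1 + L + 1 with hC2
  obtain ⟨cD, hcD, R₀, hR₀⟩ := hDEN r (2 * C2 * L)
  have hC0 : (0 : ℝ) < C := by exact_mod_cast hC1
  set δ₁ := δ * cD / (8 * C) with hδ₁
  have hδ₁0 : 0 < δ₁ := by positivity
  obtain ⟨c0, ηR, hc0, hηR, hRSk⟩ := hRS k hk (δ₁ / 2) (by positivity)
  set g0 := δ₁ / 8 with hg0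
  have hg00 : 0 < g0 := by positivity
  set c1 := c0 * g0 with hc1
  have hc10 : 0 < c1 := by positivity
  set c2 := c1 / (4 * 2 ^ k) with hc2
  have hc20 : 0 < c2 := by positivity
  have hk0 : (0 : ℝ) < k := by exact_mod_cast (show 0 < k by omega)
  set ε := c1 / (4 * 2 ^ k * k) with hε
  have hε0 : 0 < ε := by positivity
  have hc2ε : 2 ^ k * (c2 + k * ε) ≤ c1 / 2 := by
    apply le_of_eq
    rw [hc2, hε]
    field_simp
    ring
  obtain ⟨ηe, hηe, hrepl⟩ := repl hSLF k (by omega) ε hε0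
  set η := min (min ηR ηe) (δ₁ / 8) with hη
  have hη0 : 0 < η := lt_min (lt_min hηR hηe) (by positivity)
  have hη1 : η ≤ ηR := (min_le_left _ _).trans (min_le_left _ _)
  have hη1' : η ≤ ηe := (min_le_left _ _).trans (min_le_right _ _)
  have hη2 : η ≤ δ₁ / 8 := min_le_right _ _
  set m' := (k + 1) * 2 ^ (k + 1) with hm'
  set E := min 1 (min (η ^ 2 / 3) (η ^ 3 / (3 * 2 ^ m'))) with hE
  have hE0 : 0 < E := lt_min one_pos (lt_min (by positivity) (by positivity))
  have hEone : E ≤ 1 := min_le_left _ _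
  have hE1 : 3 * E ≤ η ^ 2 := by
    have := (min_le_right 1 _).trans (min_le_left (η ^ 2 / 3) (η ^ 3 / (3 * 2 ^ m')))
    rw [← hE] at this
    linarith
  have hE2 : 2 ^ m' * (3 * E) ≤ η ^ 3 := by
    have := (min_le_right 1 _).trans (min_le_right (η ^ 2 / 3) (η ^ 3 / (3 * 2 ^ m')))
    rw [← hE, le_div_iff₀ (by positivity)] at this
    linarith
  have hkm : k * 2 ^ k ≤ m' := by
    rw [hm']
    exact Nat.mul_le_mul (by omega) (Nat.pow_le_pow_right (by norm_num) (by omega))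
  have hE2' : 2 ^ (k * 2 ^ k) * (3 * E) ≤ η ^ 3 := by
    refine le_trans ?_ hE2
    apply mul_le_mul_of_nonneg_right _ (by positivity)
    exact pow_le_pow_right₀ (by norm_num) hkm
  obtain ⟨g, K, s₁, hs₁⟩ := hC1' (E / 2) (by positivity)
  set E' := E / (2 * (K * M ^ 2 + 1)) with hE'
  have hE'0 : 0 < E' := by positivity
  obtain ⟨s₂, B₀, X₁, hX₁⟩ := hGAV r (M ^ 2 * K * (1 + K) ^ M ^ 2) E' hE'0
  refine ⟨max (max s₁ s₂) (2 * r + 3), min c2 (c1 ^ 2 / 64), lt_min hc20 (by positivity), ?_⟩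
  intro s hs
  have hs1 : s₁ ≤ s := (le_max_left _ _).trans ((le_max_left _ _).trans hs)
  have hs2 : s₂ ≤ s := (le_max_right _ _).trans ((le_max_left _ _).trans hs)
  have hs3 : 2 * r + 3 ≤ s := (le_max_right _ _).trans hs
  obtain ⟨J₁, hJ₁⟩ := hs₁ s hs1
  obtain ⟨cM, hcM1, hcM⟩ := EE_log
  set B' := B₀ + 2 * r * k + 1 with hB'
  set J₂ := J₁ + C + g + s + R₀ + 1 with hJ₂
  obtain ⟨X₂, hX₂⟩ := log_ge (max 4 (max (k + 1) (4 * cM ^ (2 * r * k) / c1 + 1)))
  refine ⟨B', max (max X₁ X₂) ((2 ^ 2 ^ J₂) ^ C2), ?_⟩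
  intro X Y A hX hXY hYX Z hZ T hT hTZ hTc N hNp hyN hTN
  have hXX₁ : X₁ ≤ X := (le_max_left _ _).trans ((le_max_left _ _).trans hX)
  have hXX₂ := hX₂ X ((le_max_right _ _).trans ((le_max_left _ _).trans hX))
  have hXX₄ : (2 ^ 2 ^ J₂) ^ C2 ≤ X := (le_max_right _ _).trans hX
  have hlog4 : 4 ≤ Real.log X := (le_max_left _ _).trans hXX₂
  have hlogk : (k : ℝ) + 1 ≤ Real.log X := (le_max_left _ _).trans ((le_max_right _ _).trans hXX₂)
  have hlogc : 4 * cM ^ (2 * r * k) / c1 + 1 ≤ Real.log X :=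
    (le_max_right _ _).trans ((le_max_right _ _).trans hXX₂)
  -- the level
  obtain ⟨J, hJ2, hJX, hJX'⟩ := exists_cross (P := fun J => (2 ^ 2 ^ J) ^ C2 ≤ X)
    (a := J₂) (b := J₂ + X) (Nat.le_add_right _ _) hXX₄ (by
      rw [not_le]
      calc X < 2 ^ X := Nat.lt_two_pow_self
        _ ≤ 2 ^ 2 ^ (J₂ + X) := Nat.pow_le_pow_right (by norm_num)
            ((Nat.le_add_left _ _).trans Nat.lt_two_pow_self.le)
        _ = (2 ^ 2 ^ (J₂ + X)) ^ 1 := (pow_one _).symm
        _ ≤ (2 ^ 2 ^ (J₂ + X)) ^ C2 := Nat.pow_le_pow_right (by positivity) (by omega))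
  rw [not_le] at hJX'
  set R := 2 ^ 2 ^ J with hR
  set z := 2 ^ 2 ^ (J - g) with hz
  have hR1 : 1 ≤ R := Nat.one_le_two_pow
  have hXR : X < R ^ (2 * C2) := by
    have : 2 ^ 2 ^ (J + 1) = R ^ 2 := by rw [hR, ← pow_mul, pow_succ]
    rw [this, ← pow_mul] at hJX'
    exact hJX'
  have hX1 : 1 ≤ X := (Nat.one_le_pow _ _ hR1).trans hJX
  have hX0 : (0 : ℝ) < X := by exact_mod_cast hX1
  have hRX : R ≤ X := by
    refine le_trans ?_ hJX
    calc R = R ^ 1 := (pow_one R).symm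
      _ ≤ R ^ C2 := Nat.pow_le_pow_right hR1 (by omega)
  have hRY : R ≤ Y := by
    by_contra hcon
    rw [not_le] at hcon
    have hL : L ≠ 0 := by
      intro h0
      rw [h0, pow_zero] at hXY
      have : X = 1 := by omega
      rw [this] at hlog4
      simp at hlog4
      linarith
    have h1 : Y ^ L < R ^ L := Nat.pow_lt_pow_left hcon hL
    have h2 : R ^ L ≤ R ^ C2 := Nat.pow_le_pow_right hR1 (by omega)
    omega
  have hYR : Y ≤ R ^ (2 * C2 * L) := by
    rw [pow_mul]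
    exact hYX.trans (Nat.pow_le_pow_left hXR.le L)
  have hsz : s ≤ z := by
    rw [hz]
    exact (show s ≤ J - g by omega).trans (tower_ge _)
  have hzR : z ≤ R := by
    rw [hz, hR]
    exact Nat.pow_le_pow_right (by norm_num) (Nat.pow_le_pow_right (by norm_num) (Nat.sub_le _ _))
  have hR₀R : R₀ ≤ R := (show R₀ ≤ J by omega).trans (tower_ge J)
  obtain ⟨θ, hθ⟩ := hC (J - g) J (by omega) (Nat.sub_le _ _) Z
    (Sv_mono hZ hsz hRY)
  rw [← hz, ← hR] at hθ
  have hZR : Sv r s R Z := Sv_mono hZ le_rfl hRY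
  set V := VV Z s z with hV
  set q := qq Z z R θ with hq
  have hVR : 1 / EE s R ^ (2 * r) ≤ VV Z s R := VV_ge (by omega) hZR
  have hEE : EE s R ≤ cM * Real.log X := by
    refine (hcM s R (by omega) (hsz.trans hzR)).trans ?_
    apply mul_le_mul_of_nonneg_left _ (by linarith)
    exact Real.log_le_log (by exact_mod_cast hR1) (by exact_mod_cast hRX)
  have hEE1 := one_le_EE s R
  have hV0 : 0 < V := by
    have := VV_ge (a := s) (b := z) (r := r) (Z := Z) (by omega) (Sv_mono hZR le_rfl hzR)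
    have h1 := one_le_EE s z
    exact lt_of_lt_of_le (by positivity) this
  have hVzR0 : 0 < VV Z z R := by
    have := VV_ge (a := z) (b := R) (r := r) (Z := Z) (by omega) (Sv_mono hZR hsz le_rfl)
    have h1 := one_le_EE z R
    exact lt_of_lt_of_le (by positivity) this
  have hq0 : 0 < q := lt_of_lt_of_le hVzR0 hθ.lo
  have hsplit : V * VV Z z R = VV Z s R := VV_split Z hsz hzR
  have hVR0 : 0 < VV Z s R := by rw [← hsplit]; positivity
  set w := 1 / (V * q) with hw
  have hw0 : 0 < w := by positivity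
  have hVq : V * q ≤ C * VV Z s R := by
    rw [← hsplit]
    calc V * q ≤ V * (C * VV Z z R) := mul_le_mul_of_nonneg_left hθ.hi hV0.le
      _ = C * (V * VV Z z R) := by ring
  have hwup : w ≤ (cM * Real.log X) ^ (2 * r) := by
    have h1 : VV Z s R ≤ V * q := by
      rw [← hsplit]
      exact mul_le_mul_of_nonneg_left hθ.lo hV0.le
    calc w ≤ 1 / VV Z s R := one_div_le_one_div_of_le hVR0 h1
      _ ≤ EE s R ^ (2 * r) := by
          rw [div_le_iff₀ hVR0]
          rw [div_le_iff₀ (by positivity)] at hVR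
          linarith
      _ ≤ _ := pow_le_pow_left₀ (by positivity) hEE _
  -- the size of `T`
  have hden : cD ≤ VV Z R Y := hR₀ R Y hR₀R hYR Z (Sv_mono hZ (hsz.trans hzR) le_rfl)
  have hTc' : δ * cD * X * VV Z s R ≤ T.card := by
    refine le_trans ?_ hTc
    rw [← VV_split Z (hsz.trans hzR) hRY]
    have := mul_le_mul_of_nonneg_left hden (show 0 ≤ δ * X * VV Z s R by positivity)
    linarith
  have hwT : 8 * δ₁ * X ≤ w * T.card := by
    calc 8 * δ₁ * X = (δ * cD * X * VV Z s R) / (C * VV Z s R) := by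
          rw [hδ₁]
          field_simp
      _ ≤ (δ * cD * X * VV Z s R) / (V * q) :=
          div_le_div_of_nonneg_left (by positivity) (by positivity) hVq
      _ = w * (δ * cD * X * VV Z s R) := by rw [hw]; ring
      _ ≤ w * T.card := mul_le_mul_of_nonneg_left hTc' hw0.le
  set y := Real.log X ^ B' with hy
  have hy1 : Real.log X ≤ y := by
    rw [hy]
    calc Real.log X = Real.log X ^ 1 := (pow_one _).symm
      _ ≤ Real.log X ^ B' := pow_le_pow_right₀ (by linarith) (by omega)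
  have : Fact N.Prime := ⟨hNp⟩
  have : NeZero N := ⟨hNp.ne_zero⟩
  have hkN : k < N := by
    have : (k : ℝ) < N := by linarith
    exact_mod_cast this
  have hN0 : (0 : ℝ) < N := by linarith
  -- the weight
  set ν := nu Z s z R θ with hν
  have hν0 : ∀ n, 0 ≤ ν n := by
    intro n
    rw [hν]
    unfold nu
    apply div_nonneg _ (by positivity)
    apply mul_nonneg _ (hθ.nonneg n)
    split_ifs
    · exact zero_le_one
    · exact le_rfl
  have hνT : ∀ t ∈ T, ν t = w := by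
    intro t ht
    rw [hν]
    unfold nu
    have h1 : ∀ p ∈ Pr s z, t % p ∉ Z p := fun p hp => hTZ t ht p (by
      rw [Pr_mem] at hp ⊢
      exact ⟨⟨hp.1.1, by omega⟩, hp.2⟩)
    have h2 : ∀ p ∈ Pr z R, t % p ∉ Z p := fun p hp => hTZ t ht p (by
      rw [Pr_mem] at hp ⊢
      exact ⟨⟨by omega, by omega⟩, hp.2⟩)
    rw [if_pos h1, Th_one hθ.one h2, one_mul]
  have hJX1 : R ^ C1 ≤ X := (Nat.pow_le_pow_right hR1 (by omega)).trans hJX
  have hcorr := hJ₁ J A X (by omega) hJX1 Z hZR θ hθ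
  have hgav := hX₁ s R X N hs2 hXX₁ hRX (by
    refine le_trans ?_ hyN
    rw [hy]
    exact pow_le_pow_right₀ (by linarith) (by omega)) Z hZR
  have hcor := cor_of (Z := Z) (s := s) (R := R) (ν := ν) (M := M) (K := K) (A := A) (X := X) (N := N)
    (ε := E / 2) (E := E') hX1 hcorr (by
      intro m hm
      refine le_trans ?_ hgav
      apply div_le_div_of_nonneg_right _ hN0.le
      apply sum_le_sum
      intro h _
      apply sub_le_sub_right
      apply Gd_mono
      have h1 : m ^ 2 ≤ M ^ 2 := Nat.pow_le_pow_left hm 2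
      exact Nat.mul_le_mul (Nat.mul_le_mul_right K h1) (Nat.pow_le_pow_right (by omega) h1)) hE'0.le
  have hEE' : E / 2 + K * (M ^ 2 * E') ≤ E := by
    have h1 : (K : ℝ) * (M ^ 2 * E') ≤ E / 2 := by
      rw [hE']
      have h2 : (K : ℝ) * (M ^ 2 * (E / (2 * (K * M ^ 2 + 1)))) =
          (E / 2) * ((K * M ^ 2) / (K * M ^ 2 + 1)) := by
        field_simp
      rw [h2]
      apply mul_le_of_le_one_right (by positivity)
      rw [div_le_one (by positivity)]
      linarith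
    linarith
  have hcor' : Cor ν M E A X N := by
    intro Y' _ _ I _ hI f hf
    exact (hcor Y' I hI f hf).trans hEE'
  obtain ⟨hl1, hl2⟩ := lfm hk hkN.le hcor' hX1 (by
    rw [hM]
    exact Nat.mul_le_mul_left 2 hkm) hη0 hE1 hE2'
  have hl3 := lfe hkN.le hcor' hX1 (le_of_eq hM.symm) hη0 hE2
  have hsec := second hkN.le hcor' hX1 (by
    rw [hM]
    have h1 : 1 ≤ 2 ^ (k + 1) := Nat.one_le_two_pow
    have h2 : (k + 1) * 1 ≤ (k + 1) * 2 ^ (k + 1) := Nat.mul_le_mul_left _ h1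
    omega)
  have hF : ∀ x (a : ZMod N), 0 ≤ fX T w N x a ∧ fX T w N x a ≤ nuX ν N x a := by
    intro x a
    unfold fX nuX
    split_ifs with h
    · exact ⟨hw0.le, (hνT _ h.1).ge⟩
    · exact ⟨le_rfl, hν0 _⟩
  have hfw : ∀ x (a : ZMod N), fX T w N x a ≤ w := by
    intro x a
    unfold fX
    split_ifs
    · exact le_rfl
    · exact hw0.le
  have hsum := sum_av_fX (N := N) hT hw0.le (by omega) hTN
  set G := (Ioc A (A + X)).filter (fun x => LFk k N (nuX ν N x) η ∧ LFe k N (nuX ν N x) η ∧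
    δ₁ / 2 ≤ av (fX T w N x)) with hG
  have hGc : g0 * X ≤ G.card := by
    apply good_card (avν := fun x => av (nuX ν N x)) (η := η)
      (P := fun x => LFk k N (nuX ν N x) η) (Q := fun x => LFe k N (nuX ν N x) η)
      (avF := fun x => av (fX T w N x)) (fun x => av_mono fun a => (hF x a).2) hl1
      (by convert hl2) (by convert hl3) _ (by linarith) hδ₁0
    refine le_trans ?_ hsum
    rw [le_div_iff₀ (by norm_num)]
    linarith
  have hcore := core (k := k) (ν := ν) (A := A) (X := X) (N := N) (F := fX T w N) (w := w)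
    (c0 := c0) (c2 := c2) (g0 := g0) (ε := ε) hX1 hF hfw
    (hsec.trans (mul_le_mul_of_nonneg_right (by linarith) hX0.le)) G (filter_subset _ _) hg00 hGc
    hc0 hε0.le (by
      intro x hx
      rw [hG, mem_filter] at hx
      have h1 := hRSk N hNp hkN (nuX ν N x) (fX T w N x) (hF x)
        (LFk_mono hη1 hx.2.1) hx.2.2.2
      refine h1.trans (le_of_eq ?_)
      congr 1
      funext p
      exact (Fin.prod_univ_eq_prod_range
        (fun j => fX T w N x (p.1 + (j : ZMod N) * p.2)) k).symm) (by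
      intro x hx Ed hEd S
      rw [hG, mem_filter] at hx
      exact hrepl N (nuX ν N x) (fX T w N x) (hF x)
        (fun T' hT' => (hx.2.2.1 T' hT').trans hη1') Ed hEd S) (by
      rw [div_le_iff₀ hN0]
      have h1 : w ^ k ≤ (cM * Real.log X) ^ (2 * r * k) := by
        rw [pow_mul]
        exact pow_le_pow_left₀ hw0.le hwup k
      have h2 : Real.log X ^ (2 * r * k) * Real.log X ≤ y := by
        rw [hy, ← pow_succ]
        exact pow_le_pow_right₀ (by linarith) (by omega)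
      have h3 : cM ^ (2 * r * k) ≤ c1 / 4 * Real.log X := by
        have h4 : 4 * cM ^ (2 * r * k) / c1 < Real.log X := by linarith
        rw [div_lt_iff₀ hc10] at h4
        linarith
      calc w ^ k ≤ (cM * Real.log X) ^ (2 * r * k) := h1
        _ = cM ^ (2 * r * k) * Real.log X ^ (2 * r * k) := mul_pow _ _ _
        _ ≤ (c1 / 4 * Real.log X) * Real.log X ^ (2 * r * k) :=
            mul_le_mul_of_nonneg_right h3 (by positivity)
        _ = c1 / 4 * (Real.log X ^ (2 * r * k) * Real.log X) := by ring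
        _ ≤ c1 / 4 * y := mul_le_mul_of_nonneg_left h2 (by positivity)
        _ ≤ c1 / 4 * N := mul_le_mul_of_nonneg_left hyN (by positivity)) hc2ε
  set Good := (univ : Finset (ZMod N)).filter (fun d => d ≠ 0 ∧
      0 < ∑ x ∈ G, av (fun a : ZMod N => ∏ j : Fin k, fX T w N x (a + ((j : ℕ) : ZMod N) * d)) ∧
      ∀ S : Finset (Fin k), c2 * X ≤ ∑ x ∈ G, av (fun a : ZMod N =>
        ∏ j ∈ S, fX T w N x (a + ((j : ℕ) : ZMod N) * d))) with hGood
  set DS := (Icc 1 (N / 2)).filter (fun D => ∀ S ⊆ range k, 0 ∈ S →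
        min c2 (c1 ^ 2 / 64) * X * VV Z s Y ^ S.card ≤
          ((T.filter (fun t => ∀ j ∈ S, t + j * D ∈ T)).card : ℝ)) with hDS
  have hVVY : VV Z s Y ≤ VV Z s R := by
    rw [← VV_split Z (hsz.trans hzR) hRY]
    apply mul_le_of_le_one_right hVR0.le
    exact VV_le_one (Sv_mono hZ (hsz.trans hzR) le_rfl) (by omega)
  have hVVY0 : 0 < VV Z s Y := by
    have := VV_ge (a := s) (b := Y) (r := r) (Z := Z) (by omega) hZ
    have h1 := one_le_EE s Y
    exact lt_of_lt_of_le (by positivity) this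
  have hwV : w * VV Z s Y ≤ 1 := by
    have h1 : VV Z s Y ≤ V * q := by
      refine hVVY.trans ?_
      rw [← hsplit]
      exact mul_le_mul_of_nonneg_left hθ.lo hV0.le
    calc w * VV Z s Y ≤ w * (V * q) := mul_le_mul_of_nonneg_left h1 hw0.le
      _ = 1 := by rw [hw]; field_simp
  have hsub : Good ⊆ DS.image (fun D : ℕ => (D : ZMod N)) ∪ DS.image (fun D : ℕ => -(D : ZMod N)) := by
    intro d hd
    rw [hGood, mem_filter] at hd
    obtain ⟨D, hD1, hD2, hD3⟩ := trans hk hw0 hd.2.1 hd.2.2.1 hd.2.2.2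
    have hDDS : D ∈ DS := by
      rw [hDS, mem_filter]
      refine ⟨hD1, ?_⟩
      intro S hS h0S
      have h1 := hD3 S hS h0S
      calc min c2 (c1 ^ 2 / 64) * X * VV Z s Y ^ S.card ≤ c2 * X * VV Z s Y ^ S.card := by
            apply mul_le_mul_of_nonneg_right _ (by positivity)
            exact mul_le_mul_of_nonneg_right (min_le_left _ _) hX0.le
        _ ≤ w ^ S.card * ((T.filter (fun t => ∀ j ∈ S, t + j * D ∈ T)).card : ℝ) *
              VV Z s Y ^ S.card := mul_le_mul_of_nonneg_right h1 (by positivity)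
        _ = (w * VV Z s Y) ^ S.card *
              ((T.filter (fun t => ∀ j ∈ S, t + j * D ∈ T)).card : ℝ) := by
            rw [mul_pow]; ring
        _ ≤ 1 * ((T.filter (fun t => ∀ j ∈ S, t + j * D ∈ T)).card : ℝ) := by
            apply mul_le_mul_of_nonneg_right _ (Nat.cast_nonneg _)
            exact pow_le_one₀ (by positivity) hwV
        _ = _ := one_mul _
    rw [mem_union, mem_image, mem_image]
    rcases hD2 with h | h
    · exact Or.inl ⟨D, hDDS, h.symm⟩
    · exact Or.inr ⟨D, hDDS, h.symm⟩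
  have hcard2 : (Good.card : ℝ) ≤ 2 * DS.card := by
    have h1 := card_le_card hsub
    have h2 := card_union_le (DS.image (fun D : ℕ => (D : ZMod N)))
      (DS.image (fun D : ℕ => -(D : ZMod N)))
    have h3 := card_image_le (s := DS) (f := fun D : ℕ => (D : ZMod N))
    have h4 := card_image_le (s := DS) (f := fun D : ℕ => -(D : ZMod N))
    have h5 : Good.card ≤ 2 * DS.card := by omega
    exact_mod_cast h5
  calc min c2 (c1 ^ 2 / 64) * N ≤ c1 ^ 2 / 64 * N :=
        mul_le_mul_of_nonneg_right (min_le_right _ _) hN0.le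
    _ = (c1 ^ 2 / 32 * N) / 2 := by ring
    _ ≤ (Good.card : ℝ) / 2 := by
        apply div_le_div_of_nonneg_right hcore (by norm_num)
    _ ≤ DS.card := by linarith

end Pool.Agent.L5helper4.DL
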