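import Pool.Agent.L5helper4.DL.CntA

/-!
# Sifted sets: for a positive proportion of the differences `d` all parts of the progression
# `0, d, …, (k - 1) d` occur with the right frequency (adapted from `Pool.Agent.Y843.HS.PartB`)
-/

set_option autoImplicit false

namespace Pool.Agent.L5helper4.DL

open Finset
open Filter (Tendsto atTop eventually_ge_atTop eventually_gt_atTop eventually_atTop)
open Pool.Agent.Y843.HS
open Pool.Agent.Y727.PSP (S_RS S_SLF)

open Classical in
/-- the differences -/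
theorem partB (hTH : S_TH) (hCOR : S_COR) (hGAV : S_GAV) (hDEN : S_DEN)
    (hRS : S_RS) (hSLF : S_SLF) (k r : ℕ) (κ δ : ℝ) (hκ : 0 < κ) (hδ : 0 < δ) :
    ∃ (B X₀ : ℕ) (c : ℝ), 0 < c ∧ ∀ X A : ℕ, X₀ ≤ X →
      ∀ Z : ℕ → Finset ℕ, (∀ p : ℕ, p.Prime → (p : ℝ) ≤ (X : ℝ) ^ κ →
        (Z p).card ≤ r ∧ (Z p).card < p ∧ ∀ c ∈ Z p, c < p) →
      ∀ S : Finset ℕ, S ⊆ Ioc A (A + X) →
      (∀ n ∈ S, ∀ p : ℕ, p.Prime → (p : ℝ) ≤ (X : ℝ) ^ κ → n % p ∉ Z p) →
      δ * X * VV Z 0 ⌊(X : ℝ) ^ κ⌋₊ ≤ S.card →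
      ∀ D : ℕ, Real.log X ^ B ≤ D → D * Real.log X ^ B ≤ X →
      c * D ≤ (((Icc 1 D).filter (fun d => ∀ F ⊆ range k, 0 ∈ F →
        c * X * VV Z 0 ⌊(X : ℝ) ^ κ⌋₊ ^ F.card ≤
          ((S.filter (fun n => ∀ j ∈ F, n + j * d ∈ S)).card : ℝ))).card : ℝ) := by
  set k' := max k 2 with hk'
  set L := ⌈2 / κ⌉₊ + ⌈2 * κ⌉₊ + 1 with hL
  have hL1 : 2 / κ ≤ L := by
    rw [hL]; push_cast
    have := Nat.le_ceil (2 / κ)
    have h2 : (0 : ℝ) ≤ (⌈2 * κ⌉₊ : ℝ) := Nat.cast_nonneg _
    linarith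
  have hL2 : 2 * κ ≤ L := by
    rw [hL]; push_cast
    have := Nat.le_ceil (2 * κ)
    have h2 : (0 : ℝ) ≤ (⌈2 / κ⌉₊ : ℝ) := Nat.cast_nonneg _
    linarith
  have hL3 : 1 ≤ L := by omega
  clear_value L
  obtain ⟨s', cA, hcA, hs⟩ := partA hTH hCOR hGAV hDEN hRS hSLF (k := k') (le_max_right _ _) r L
    (show (0 : ℝ) < δ / 2 by positivity)
  set s := max s' (max (2 * r) 3) with hsdef
  have hs2r : 2 * r ≤ s := (le_max_left _ _).trans (le_max_right _ _)
  have hs3 : 3 ≤ s := (le_max_right _ _).trans (le_max_right _ _)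
  obtain ⟨B, X₁, hX₁⟩ := hs s (le_max_left _ _)
  clear_value s
  set W := ∏ p ∈ Pr 0 s, p with hW
  have hW1 : 1 ≤ W := Nat.one_le_iff_ne_zero.2 (prod_ne_zero_iff.2 fun p hp => (Pr_prime hp).ne_zero)
  have hW0 : (0 : ℝ) < W := by exact_mod_cast hW1
  obtain ⟨cM, hcM1, hcM⟩ := EE_log
  have hcM0 : 0 < cM := by linarith
  set CT := 2 * (8 * (cM * κ) ^ (2 * r) / δ) + 1 with hCT
  have hCT0 : 0 < CT := by positivity
  obtain ⟨X₂, hX₂⟩ := log_ge (max (2 ^ B * (2 * W) + 1) CT)
  -- `s + 2 ≤ X ^ κ`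
  obtain ⟨X₃, hX₃⟩ := log_ge (Real.log (s + 2) / κ)
  refine ⟨B + 2 * r + 1, max (max (W * X₁) X₂) (max X₃ (max (W ^ 2) (max (4 * W) (2 ^ (L + 2))))),
    cA / (2 * W), by positivity, ?_⟩
  intro X A hX Z hZ S hSA hSZ hSc D hD1 hD2
  have hXX₁ : W * X₁ ≤ X := (le_max_left _ _).trans ((le_max_left _ _).trans hX)
  have hXX₂ := hX₂ X ((le_max_right _ _).trans ((le_max_left _ _).trans hX))
  have hXX₃ := hX₃ X ((le_max_left _ _).trans ((le_max_right _ _).trans hX))
  have hX' := (le_max_right _ _).trans ((le_max_right _ _).trans hX)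
  have hXX₄ : W ^ 2 ≤ X := (le_max_left _ _).trans hX'
  have hXX₅ : 4 * W ≤ X := (le_max_left _ _).trans ((le_max_right _ _).trans hX')
  have hXX₆ : 2 ^ (L + 2) ≤ X := (le_max_right _ _).trans ((le_max_right _ _).trans hX')
  have hX4 : 4 ≤ X := by omega
  have hX0 : (0 : ℝ) < X := by exact_mod_cast (show 0 < X by omega)
  have hX1 : (1 : ℝ) ≤ X := by exact_mod_cast (show 1 ≤ X by omega)
  set Y := ⌊(X : ℝ) ^ κ⌋₊ with hY
  have hXκ0 : 0 < (X : ℝ) ^ κ := by positivity
  have hYle : (Y : ℝ) ≤ (X : ℝ) ^ κ := Nat.floor_le hXκ0.le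
  have hYlt : (X : ℝ) ^ κ < Y + 1 := Nat.lt_floor_add_one _
  have hs2 : ((s : ℝ) + 2) ≤ (X : ℝ) ^ κ := by
    rw [Real.rpow_def_of_pos hX0, ← Real.log_le_iff_le_exp (by positivity)]
    rw [div_le_iff₀ hκ] at hXX₃
    exact hXX₃
  have hsY : s + 2 ≤ Y := by
    rw [hY]
    apply Nat.le_floor
    push_cast
    exact hs2
  have hYhalf : (X : ℝ) ^ κ ≤ 2 * Y := by
    have : (1 : ℝ) ≤ Y := by exact_mod_cast (show 1 ≤ Y by omega)
    linarith
  have hmemY : ∀ p ∈ Pr 0 Y, p.Prime ∧ (p : ℝ) ≤ (X : ℝ) ^ κ := by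
    intro p hp
    rw [Pr_mem] at hp
    exact ⟨hp.2, (by exact_mod_cast hp.1.2 : (p : ℝ) ≤ Y).trans hYle⟩
  -- the class modulo `W`
  have hZs : ∀ p ∈ Pr 0 s, ∀ c ∈ Z p, c < p := by
    intro p hp c hc
    have h1 : p ∈ Pr 0 Y := by
      rw [Pr_mem] at hp ⊢
      exact ⟨⟨hp.1.1, by omega⟩, hp.2⟩
    obtain ⟨h2, h3⟩ := hmemY p h1
    exact (hZ p h2 h3).2.2 c hc
  have hVV0 : 0 < VV Z 0 s := by
    unfold VV
    apply prod_pos
    intro p hp
    have h1 : p ∈ Pr 0 Y := by
      rw [Pr_mem] at hp ⊢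
      exact ⟨⟨hp.1.1, by omega⟩, hp.2⟩
    obtain ⟨h2, h3⟩ := hmemY p h1
    have h4 := (hZ p h2 h3).2.1
    have hp0 : (0 : ℝ) < p := by exact_mod_cast h2.pos
    have h5 : ((Z p).card : ℝ) / p < 1 := by
      rw [div_lt_one hp0]
      exact_mod_cast h4
    linarith
  set adm := (range W).filter (fun a => ∀ p ∈ Pr 0 s, a % p ∈ (range p).filter (fun c => c ∉ Z p))
    with hadm
  have hadmc : (adm.card : ℝ) = W * VV Z 0 s := prod_adm hZs
  have hadm0 : (0 : ℝ) < adm.card := by rw [hadmc]; positivity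
  have hadmne : adm.Nonempty := by
    rw [← card_pos]
    exact_mod_cast hadm0
  have hmaps : ∀ n ∈ S, n % W ∈ adm := by
    intro n hn
    rw [hadm, mem_filter, mem_range]
    refine ⟨Nat.mod_lt _ hW1, ?_⟩
    intro p hp
    rw [Nat.mod_mod_of_dvd _ (dvd_prod_of_mem _ hp), mem_filter, mem_range]
    refine ⟨Nat.mod_lt _ (Pr_prime hp).pos, ?_⟩
    have h1 : p ∈ Pr 0 Y := by
      rw [Pr_mem] at hp ⊢
      exact ⟨⟨hp.1.1, by omega⟩, hp.2⟩
    obtain ⟨h2, h3⟩ := hmemY p h1
    exact hSZ n hn p h2 h3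
  obtain ⟨b, hb, hbS⟩ : ∃ b ∈ adm, (S.card : ℝ) / adm.card ≤ ((S.filter (fun n => n % W = b)).card : ℝ) := by
    apply exists_le_of_sum_le hadmne
    rw [sum_const, nsmul_eq_mul]
    have h1 := card_eq_sum_card_fiberwise hmaps
    have h2 : (S.card : ℝ) = ∑ b ∈ adm, ((S.filter (fun n => n % W = b)).card : ℝ) := by
      exact_mod_cast h1
    rw [← h2, mul_div_cancel₀]
    exact hadm0.ne'
  set Sb := S.filter (fun n => n % W = b) with hSb
  set T := Sb.image (fun n => n / W + 1) with hT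
  set X' := X / W + 2 with hX'def
  have hTc : T.card = Sb.card := by
    apply card_image_of_injOn
    intro n hn m hm h
    rw [mem_coe, hSb, mem_filter] at hn hm
    have h1 : n / W = m / W := by
      have : n / W + 1 = m / W + 1 := h
      omega
    rw [← Nat.div_add_mod n W, ← Nat.div_add_mod m W, h1, hn.2, hm.2]
  have hTA : T ⊆ Ioc (A / W) (A / W + X') := by
    intro t ht
    rw [hT, mem_image] at ht
    obtain ⟨n, hn, rfl⟩ := ht
    rw [hSb, mem_filter] at hn
    have h1 := mem_Ioc.1 (hSA hn.1)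
    rw [mem_Ioc]
    have h2 : A / W ≤ n / W := Nat.div_le_div_right h1.1.le
    have h3 : n / W ≤ (A + X) / W := Nat.div_le_div_right h1.2
    have h4 : (A + X) / W < A / W + X / W + 2 := by
      rw [Nat.div_lt_iff_lt_mul hW1]
      have h5 := Nat.div_add_mod A W
      have h6 := Nat.div_add_mod X W
      have h7 := Nat.mod_lt A hW1
      have h8 := Nat.mod_lt X hW1
      have h9 : (A / W + X / W + 2) * W = W * (A / W) + W * (X / W) + 2 * W := by ring
      rw [h9]
      generalize W * (A / W) = u at *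
      generalize W * (X / W) = v at *
      generalize A % W = u' at *
      generalize X % W = v' at *
      omega
    rw [hX'def]
    generalize A / W = u at *
    generalize X / W = v at *
    generalize n / W = n' at *
    generalize (A + X) / W = m' at *
    omega
  set Z' : ℕ → Finset ℕ := fun p => (range p).filter (fun c => (b + W * (c + (p - 1))) % p ∈ Z p)
    with hZ'
  have hndvd : ∀ p ∈ Pr s Y, ¬ p ∣ W := by
    intro p hp hpW
    rw [hW, (Pr_prime hp).prime.dvd_finsetProd_iff] at hpW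
    obtain ⟨q, hq, hpq⟩ := hpW
    have h1 := (Nat.prime_dvd_prime_iff_eq (Pr_prime hp) (Pr_prime hq)).1 hpq
    have h2 := (Pr_mem.1 hq).1.2
    have h3 := (Pr_mem.1 hp).1.1
    omega
  have hsub : ∀ p ∈ Pr s Y, p ∈ Pr 0 Y := by
    intro p hp
    rw [Pr_mem] at hp ⊢
    exact ⟨⟨by omega, hp.1.2⟩, hp.2⟩
  have hcardZ' : ∀ p ∈ Pr s Y, (Z' p).card = (Z p).card := by
    intro p hp
    obtain ⟨h2, h3⟩ := hmemY p (hsub p hp)
    exact card_pull h2 (hndvd p hp) (hZ p h2 h3).2.2
  have hSv : Sv r s Y Z' := by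
    intro p hp
    obtain ⟨h2, h3⟩ := hmemY p (hsub p hp)
    refine ⟨by rw [hcardZ' p hp]; exact (hZ p h2 h3).1, ?_⟩
    intro c hc
    rw [hZ', mem_filter, mem_range] at hc
    exact hc.1
  have hVVeq : VV Z' s Y = VV Z s Y := by
    unfold VV
    apply prod_congr rfl
    intro p hp
    rw [hcardZ' p hp]
  have hTZ : ∀ t ∈ T, ∀ p ∈ Pr s Y, t % p ∉ Z' p := by
    intro t ht p hp
    rw [hT, mem_image] at ht
    obtain ⟨n, hn, rfl⟩ := ht
    rw [hSb, mem_filter] at hn
    obtain ⟨h2, h3⟩ := hmemY p (hsub p hp)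
    have h4 := hSZ n hn.1 p h2 h3
    rw [hZ', mem_filter]
    rintro ⟨_, h5⟩
    apply h4
    have h6 : (b + W * ((n / W + 1) % p + (p - 1))) % p = n % p := by
      have e1 : b + W * ((n / W + 1) % p + (p - 1)) ≡ b + W * ((n / W + 1) + (p - 1)) [MOD p] :=
        Nat.ModEq.add_left _ (Nat.ModEq.mul_left _ (Nat.ModEq.add_right _ (Nat.mod_modEq _ _)))
      have e2 : b + W * ((n / W + 1) + (p - 1)) = n + W * p := by
        have e3 := Nat.div_add_mod n W
        rw [hn.2] at e3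
        have e4 : (n / W + 1) + (p - 1) = n / W + p := by
          have := h2.pos
          omega
        rw [e4, mul_add]
        omega
      rw [e2] at e1
      have e3 : n + W * p ≡ n [MOD p] := by
        unfold Nat.ModEq
        rw [Nat.add_mul_mod_self_right]
      exact e1.trans e3
    rwa [h6] at h5
  -- sizes
  have hXW : (X : ℝ) / W ≤ X' := by
    rw [hX'def, div_le_iff₀ hW0]
    have h1 := Nat.div_add_mod X W
    have h2 := Nat.mod_lt X hW1
    have h3 : X ≤ (X / W + 2) * W := by nlinarith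
    exact_mod_cast h3
  have hX'X : X' ≤ 2 * X := by
    have := Nat.div_le_self X W
    omega
  have hX'W : (X' : ℝ) ≤ 2 * X / W := by
    rw [hX'def, le_div_iff₀ hW0]
    have h1 := Nat.div_mul_le_self X W
    have h3 : (X / W + 2) * W ≤ 2 * X := by nlinarith
    exact_mod_cast h3
  have hXX' : X₁ ≤ X' := by
    have : X₁ ≤ X / W := (Nat.le_div_iff_mul_le hW1).2 (by rwa [mul_comm])
    omega
  have hX'Y : X' ≤ Y ^ L := by
    have h1 : (2 * X : ℝ) ≤ (Y : ℝ) ^ L := by
      have h2 : ((X : ℝ) ^ κ) ^ L ≤ (2 * (Y : ℝ)) ^ L := pow_le_pow_left₀ hXκ0.le hYhalf L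
      have h3 : (X : ℝ) ^ 2 ≤ ((X : ℝ) ^ κ) ^ L := by
        rw [← Real.rpow_natCast ((X : ℝ) ^ κ) L, ← Real.rpow_mul hX0.le, ← Real.rpow_natCast (X : ℝ) 2]
        apply Real.rpow_le_rpow_of_exponent_le hX1
        rw [div_le_iff₀ hκ] at hL1
        push_cast
        linarith
      rw [mul_pow] at h2
      have h4 : (2 : ℝ) ^ (L + 2) ≤ X := by exact_mod_cast hXX₆
      have h5 : (2 : ℝ) ^ L * (2 * X) ≤ 2 ^ L * (Y : ℝ) ^ L := by
        refine le_trans ?_ (h3.trans h2)
        have h6 : (2 : ℝ) ^ L * (2 * X) ≤ (2 : ℝ) ^ (L + 2) * X := by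
          rw [pow_add]
          nlinarith [show (0 : ℝ) ≤ 2 ^ L * X by positivity]
        have h7 : (2 : ℝ) ^ (L + 2) * X ≤ X * X := mul_le_mul_of_nonneg_right h4 hX0.le
        rw [← pow_two] at h7
        exact h6.trans h7
      exact le_of_mul_le_mul_left h5 (by positivity)
    have h2 : (X' : ℝ) ≤ (Y : ℝ) ^ L := (by exact_mod_cast hX'X : (X' : ℝ) ≤ 2 * X).trans h1
    exact_mod_cast h2
  have hYX' : Y ≤ X' ^ L := by
    have h1 : (Y : ℝ) ≤ (X' : ℝ) ^ L := by
      refine hYle.trans ?_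
      have h2 : (X : ℝ) ^ (1 / 2 : ℝ) ≤ X' := by
        refine le_trans ?_ hXW
        rw [le_div_iff₀ hW0]
        have h3 : (W : ℝ) ≤ (X : ℝ) ^ (1 / 2 : ℝ) := by
          rw [← Real.sqrt_eq_rpow]
          apply Real.le_sqrt_of_sq_le
          exact_mod_cast hXX₄
        calc (X : ℝ) ^ (1 / 2 : ℝ) * W ≤ (X : ℝ) ^ (1 / 2 : ℝ) * (X : ℝ) ^ (1 / 2 : ℝ) :=
              mul_le_mul_of_nonneg_left h3 (by positivity)
          _ = X := by rw [← Real.rpow_add hX0]; norm_num
      calc (X : ℝ) ^ κ ≤ (X : ℝ) ^ ((1 / 2 : ℝ) * L) := by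
            apply Real.rpow_le_rpow_of_exponent_le hX1
            linarith
        _ = ((X : ℝ) ^ (1 / 2 : ℝ)) ^ L := by
            rw [Real.rpow_mul hX0.le, Real.rpow_natCast]
        _ ≤ (X' : ℝ) ^ L := pow_le_pow_left₀ (by positivity) h2 L
    exact_mod_cast h1
  have hVsY : 0 ≤ VV Z s Y := by
    unfold VV
    apply prod_nonneg
    intro p hp
    obtain ⟨h2, h3⟩ := hmemY p (hsub p hp)
    exact one_sub_nonneg (hZ p h2 h3).2.2
  have hTcard : δ / 2 * X' * VV Z' s Y ≤ T.card := by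
    rw [hTc, hVVeq]
    refine le_trans ?_ hbS
    rw [hadmc, le_div_iff₀ (by positivity)]
    refine le_trans ?_ hSc
    rw [← VV_split Z (Nat.zero_le s) (show s ≤ Y by omega)]
    have h1 : (X' : ℝ) * W ≤ 2 * X := by
      rw [le_div_iff₀ hW0] at hX'W
      exact hX'W
    have h2 := mul_le_mul_of_nonneg_right h1 (show 0 ≤ δ / 2 * (VV Z 0 s * VV Z s Y) by positivity)
    linarith
  have hlog1 : 2 ^ B * (2 * W) + 1 ≤ Real.log X := (le_max_left _ _).trans hXX₂
  have hlog2 : CT ≤ Real.log X := (le_max_right _ _).trans hXX₂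
  have hlogone : 1 ≤ Real.log X := by
    have : (0 : ℝ) ≤ 2 ^ B * (2 * W) := by positivity
    linarith
  have hlog0 : 0 < Real.log X := by linarith
  have hX'2 : 2 ≤ X' := by
    rw [hX'def]
    exact Nat.le_add_left _ _
  -- the length
  set N₁ := D / W with hN₁
  have hD2W : 2 * (W : ℝ) ≤ D := by
    refine le_trans ?_ hD1
    calc 2 * (W : ℝ) ≤ 2 ^ B * (2 * W) + 1 := by
          have h1 : (1 : ℝ) ≤ 2 ^ B := one_le_pow₀ (by norm_num)
          have h2 := mul_le_mul_of_nonneg_right h1 (show (0 : ℝ) ≤ 2 * W by positivity)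
          linarith
      _ ≤ Real.log X := hlog1
      _ = Real.log X ^ 1 := (pow_one _).symm
      _ ≤ Real.log X ^ (B + 2 * r + 1) := pow_le_pow_right₀ hlogone (by omega)
  have hD2W' : 2 * W ≤ D := by exact_mod_cast hD2W
  have hN₁1 : 2 ≤ N₁ := (Nat.le_div_iff_mul_le hW1).2 hD2W'
  obtain ⟨N, hNp, hN1, hN2⟩ := Nat.exists_prime_lt_and_le_two_mul N₁ (by omega)
  have hN₁D : W * N₁ ≤ D := Nat.mul_div_le D W
  have hN₁lo : (D : ℝ) / W ≤ N := by
    rw [div_le_iff₀ hW0]
    have h1 := Nat.div_add_mod D W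
    have h2 := Nat.mod_lt D hW1
    have h3 : D ≤ (N₁ + 1) * W := by
      rw [← hN₁] at h1
      nlinarith
    have h4 : D ≤ N * W := h3.trans (Nat.mul_le_mul_right W hN1)
    exact_mod_cast h4
  have hlogX' : Real.log X' ≤ 2 * Real.log X := by
    have h1 : (X' : ℝ) ≤ (X : ℝ) ^ 2 := by
      have h2 : X' ≤ X ^ 2 := by nlinarith
      exact_mod_cast h2
    have h3 : Real.log X' ≤ Real.log ((X : ℝ) ^ 2) := by
      apply Real.log_le_log _ h1
      exact_mod_cast (show 0 < X' from lt_of_lt_of_le (by norm_num) hX'2)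
    rwa [Real.log_pow] at h3
  have hlog0' : 0 ≤ Real.log X' := Real.log_nonneg (by
    exact_mod_cast (show 1 ≤ X' from le_trans (by norm_num) hX'2))
  have hcondN : Real.log X' ^ B ≤ N := by
    refine le_trans ?_ hN₁lo
    rw [le_div_iff₀ hW0]
    calc Real.log X' ^ B * W ≤ (2 * Real.log X) ^ B * W := by gcongr
      _ = (2 ^ B * W) * Real.log X ^ B := by rw [mul_pow]; ring
      _ ≤ Real.log X * Real.log X ^ B := by
          apply mul_le_mul_of_nonneg_right _ (by positivity)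
          have : (0 : ℝ) ≤ 2 ^ B * W := by positivity
          linarith
      _ = Real.log X ^ (B + 1) := by rw [pow_succ]; ring
      _ ≤ Real.log X ^ (B + 2 * r + 1) := pow_le_pow_right₀ hlogone (by omega)
      _ ≤ D := hD1
  have hVVYlow : 1 / (cM * κ * Real.log X) ^ (2 * r) ≤ VV Z' s Y := by
    refine le_trans ?_ (VV_ge hs2r hSv)
    apply one_div_le_one_div_of_le (by have := one_le_EE s Y; positivity)
    apply pow_le_pow_left₀ (by have := one_le_EE s Y; linarith)
    refine (hcM s Y hs3 (by omega)).trans ?_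
    have h1 : Real.log Y ≤ κ * Real.log X := by
      rw [← Real.log_rpow hX0]
      apply Real.log_le_log _ hYle
      exact_mod_cast (show 0 < Y by omega)
    calc cM * Real.log Y ≤ cM * (κ * Real.log X) := mul_le_mul_of_nonneg_left h1 hcM0.le
      _ = _ := by ring
  have hcondT : 2 * N ≤ T.card := by
    have h1 : (2 * N : ℝ) ≤ T.card := by
      refine le_trans ?_ hTcard
      have h2 : (N : ℝ) ≤ 2 * (D / W) := by
        have h3 : (N : ℝ) ≤ 2 * N₁ := by exact_mod_cast hN2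
        have h4 : (N₁ : ℝ) ≤ D / W := by
          rw [le_div_iff₀ hW0, mul_comm]
          exact_mod_cast hN₁D
        linarith
      have h3 : δ / 2 * (X / W) * (1 / (cM * κ * Real.log X) ^ (2 * r)) ≤ δ / 2 * X' * VV Z' s Y := by
        apply mul_le_mul _ hVVYlow (by positivity) (by positivity)
        exact mul_le_mul_of_nonneg_left hXW (by positivity)
      refine le_trans ?_ h3
      have h5 : 4 * (D : ℝ) * (cM * κ * Real.log X) ^ (2 * r) ≤ δ / 2 * X := by
        have h6 : (D : ℝ) * Real.log X ^ (2 * r) * Real.log X ≤ X := by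
          refine le_trans ?_ hD2
          rw [mul_assoc, ← pow_succ]
          apply mul_le_mul_of_nonneg_left _ (Nat.cast_nonneg _)
          exact pow_le_pow_right₀ hlogone (by omega)
        have h7 : 8 * (cM * κ) ^ (2 * r) / δ ≤ Real.log X := by
          have : 0 ≤ 8 * (cM * κ) ^ (2 * r) / δ := by positivity
          rw [hCT] at hlog2
          linarith
        rw [div_le_iff₀ hδ] at h7
        rw [mul_pow]
        have h8 := mul_le_mul_of_nonneg_left h7 (show 0 ≤ (D : ℝ) * Real.log X ^ (2 * r) by positivity)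
        have h9 := mul_le_mul_of_nonneg_left h6 hδ.le
        linarith
      calc 2 * (N : ℝ) ≤ 2 * (2 * (D / W)) := by linarith
        _ = (4 * D * (cM * κ * Real.log X) ^ (2 * r)) / (W * (cM * κ * Real.log X) ^ (2 * r)) := by
            field_simp
            ring
        _ ≤ (δ / 2 * X) / (W * (cM * κ * Real.log X) ^ (2 * r)) :=
            div_le_div_of_nonneg_right h5 (by positivity)
        _ = _ := by field_simp
    exact_mod_cast h1
  have hmain := hX₁ X' Y (A / W) hXX' hX'Y hYX' Z' hSv T hTA hTZ hTcard N hNp hcondN hcondT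
  set DS := (Icc 1 (N / 2)).filter (fun D => ∀ S ⊆ range k', 0 ∈ S →
        cA * X' * VV Z' s Y ^ S.card ≤
          ((T.filter (fun t => ∀ j ∈ S, t + j * D ∈ T)).card : ℝ)) with hDS
  have hVV01 : VV Z 0 s ≤ 1 := by
    unfold VV
    apply prod_le_one
    · intro p hp
      have h1 : p ∈ Pr 0 Y := by
        rw [Pr_mem] at hp ⊢
        exact ⟨⟨hp.1.1, by omega⟩, hp.2⟩
      obtain ⟨h2, h3⟩ := hmemY p h1
      exact one_sub_nonneg (hZ p h2 h3).2.2
    · intro p _
      have : (0 : ℝ) ≤ ((Z p).card : ℝ) / p := by positivity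
      linarith
  have hVV0Y : VV Z 0 Y ≤ VV Z s Y := by
    rw [← VV_split Z (Nat.zero_le s) (show s ≤ Y by omega)]
    exact mul_le_of_le_one_left hVsY hVV01
  have hVV0Y0 : 0 ≤ VV Z 0 Y := by
    rw [← VV_split Z (Nat.zero_le s) (show s ≤ Y by omega)]
    exact mul_nonneg hVV0.le hVsY
  have himg : DS.image (fun d => W * d) ⊆ (Icc 1 D).filter (fun d => ∀ F ⊆ range k, 0 ∈ F →
        cA / (2 * W) * X * VV Z 0 Y ^ F.card ≤
          ((S.filter (fun n => ∀ j ∈ F, n + j * d ∈ S)).card : ℝ)) := by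
    intro d' hd'
    rw [mem_image] at hd'
    obtain ⟨d, hd, rfl⟩ := hd'
    rw [hDS, mem_filter, mem_Icc] at hd
    rw [mem_filter, mem_Icc]
    refine ⟨⟨Nat.mul_pos hW1 hd.1.1, ?_⟩, ?_⟩
    · refine le_trans (Nat.mul_le_mul_left W (hd.1.2.trans ?_)) hN₁D
      omega
    · intro F hF h0F
      have h1 := hd.2 F (hF.trans (range_subset_range.2 (le_max_left _ _))) h0F
      have h2 : (T.filter (fun t => ∀ j ∈ F, t + j * d ∈ T)).card ≤
          (S.filter (fun n => ∀ j ∈ F, n + j * (W * d) ∈ S)).card := by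
        have hTn : ∀ t ∈ T, b + W * (t - 1) ∈ S ∧ 1 ≤ t := by
          intro t ht
          rw [hT, mem_image] at ht
          obtain ⟨n, hn, rfl⟩ := ht
          rw [hSb, mem_filter] at hn
          refine ⟨?_, Nat.le_add_left _ _⟩
          rw [Nat.add_sub_cancel]
          have e1 := Nat.div_add_mod n W
          rw [hn.2] at e1
          rw [add_comm, e1]
          exact hn.1
        apply card_le_card_of_injOn (fun t => b + W * (t - 1))
        · intro t ht
          rw [mem_coe, mem_filter] at ht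
          rw [mem_coe, mem_filter]
          refine ⟨(hTn t ht.1).1, ?_⟩
          intro j hj
          have h3 := (hTn _ (ht.2 j hj)).1
          have h4 := (hTn t ht.1).2
          have h5 : t + j * d - 1 = (t - 1) + j * d := by omega
          rw [h5] at h3
          have h6 : b + W * ((t - 1) + j * d) = b + W * (t - 1) + j * (W * d) := by ring
          rwa [h6] at h3
        · intro t ht u hu htu
          rw [mem_coe, mem_filter] at ht hu
          have h4 := (hTn t ht.1).2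
          have h5 := (hTn u hu.1).2
          have h6 : W * (t - 1) = W * (u - 1) := by
            have : b + W * (t - 1) = b + W * (u - 1) := htu
            omega
          have h7 := Nat.eq_of_mul_eq_mul_left hW1 h6
          omega
      have h3 : ((T.filter (fun t => ∀ j ∈ F, t + j * d ∈ T)).card : ℝ) ≤
          ((S.filter (fun n => ∀ j ∈ F, n + j * (W * d) ∈ S)).card : ℝ) := by exact_mod_cast h2
      refine le_trans ?_ (h1.trans h3)
      rw [hVVeq]
      apply mul_le_mul _ (pow_le_pow_left₀ hVV0Y0 hVV0Y _) (by positivity) (by positivity)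
      calc cA / (2 * W) * X = cA * (X / W) / 2 := by field_simp
        _ ≤ cA * (X / W) := by
            have : 0 ≤ cA * (X / W) := by positivity
            linarith
        _ ≤ cA * X' := mul_le_mul_of_nonneg_left hXW hcA.le
  have hcard : (DS.image (fun d => W * d)).card = DS.card := by
    apply card_image_of_injOn
    intro u _ v _ huv
    exact Nat.eq_of_mul_eq_mul_left hW1 huv
  have h1 : (DS.card : ℝ) ≤ (((Icc 1 D).filter (fun d => ∀ F ⊆ range k, 0 ∈ F →
        cA / (2 * W) * X * VV Z 0 Y ^ F.card ≤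
          ((S.filter (fun n => ∀ j ∈ F, n + j * d ∈ S)).card : ℝ))).card : ℝ) := by
    rw [← hcard]
    exact_mod_cast card_le_card himg
  refine le_trans ?_ h1
  refine le_trans ?_ hmain
  calc cA / (2 * W) * D = cA * (D / W) / 2 := by field_simp
    _ ≤ cA * (D / W) := by
        have : 0 ≤ cA * ((D : ℝ) / W) := by positivity
        linarith
    _ ≤ cA * N := mul_le_mul_of_nonneg_left hN₁lo hcA.le

end Pool.Agent.L5helper4.DL
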