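import Pool.Agent.L5helper4.DL.Lfe

/-!
# Many differences for which all parts of the progression occur often
-/

set_option autoImplicit false

open Finset

namespace Pool.Agent.L5helper4.DL

open Pool.Agent.H602R3.DHJ (av av_prod av_const av_mono av_nonneg av_add av_sub av_mul av_sum av_comm)
open Pool.Agent.Y727.PSP
open Pool.Agent.Y843.HS

variable {k N : ℕ}

/-- the form `a + j d` in the first or the second copy -/
def fr2 (N : ℕ) : Fin k ⊕ Fin k → (ZMod N × ZMod N) × ZMod N →+ ZMod N
  | Sum.inl j =>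
    { toFun := fun p => p.1.1 + ((j : ℕ) : ZMod N) * p.2
      map_zero' := by simp
      map_add' := fun p q => by simp only [Prod.fst_add, Prod.snd_add]; ring }
  | Sum.inr j =>
    { toFun := fun p => p.1.2 + ((j : ℕ) : ZMod N) * p.2
      map_zero' := by simp
      map_add' := fun p q => by simp only [Prod.fst_add, Prod.snd_add]; ring }

theorem fr2_inl (j : Fin k) (p : (ZMod N × ZMod N) × ZMod N) :
    fr2 N (Sum.inl j) p = p.1.1 + ((j : ℕ) : ZMod N) * p.2 := rfl

theorem fr2_inr (j : Fin k) (p : (ZMod N × ZMod N) × ZMod N) :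
    fr2 N (Sum.inr j) p = p.1.2 + ((j : ℕ) : ZMod N) * p.2 := rfl

theorem fr2_sep [Fact N.Prime] (hkN : k ≤ N) (i j : Fin k ⊕ Fin k) (h : i ≠ j) :
    ∃ v, fr2 N i v ≠ fr2 N j v := by
  rcases i with i | i <;> rcases j with j | j
  · refine ⟨((0, 0), 1), ?_⟩
    rw [fr2_inl, fr2_inl]
    have := Pool.Agent.Y79.PSP.MK.cast_ne hkN (fun h' => h (by rw [h']) : i ≠ j)
    intro h'
    apply this
    simp only [zero_add, mul_one] at h'
    rw [h', sub_self]
  · refine ⟨((1, 0), 0), ?_⟩
    rw [fr2_inl, fr2_inr]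
    simp
  · refine ⟨((1, 0), 0), ?_⟩
    rw [fr2_inl, fr2_inr]
    simp
  · refine ⟨((0, 0), 1), ?_⟩
    rw [fr2_inr, fr2_inr]
    have := Pool.Agent.Y79.PSP.MK.cast_ne hkN (fun h' => h (by rw [h']) : i ≠ j)
    intro h'
    apply this
    simp only [zero_add, mul_one] at h'
    rw [h', sub_self]

/-- the second moment over the differences -/
theorem second {ν : ℕ → ℝ} {M : ℕ} {E : ℝ} {A X N : ℕ} [NeZero N] [Fact N.Prime] (hkN : k ≤ N)
    (h : Cor ν M E A X N) (hX : 1 ≤ X) (hM : 2 * k ≤ M) :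
    ∑ x ∈ Ioc A (A + X), av (fun d : ZMod N =>
      (av (fun a : ZMod N => ∏ j : Fin k, nuX ν N x (a + ((j : ℕ) : ZMod N) * d))) ^ 2) ≤
      (1 + E) * X := by
  have hX' : (0 : ℝ) < X := by exact_mod_cast hX
  have h1 := h ((ZMod N × ZMod N) × ZMod N) (Fin k ⊕ Fin k)
    (by rw [Fintype.card_sum, Fintype.card_fin]; omega) (fr2 N) (fr2_sep hkN)
  have h2 : ∀ x, av (fun y : (ZMod N × ZMod N) × ZMod N => ∏ i, nuX ν N x (fr2 (k := k) N i y)) =
      av (fun d : ZMod N =>
      (av (fun a : ZMod N => ∏ j : Fin k, nuX ν N x (a + ((j : ℕ) : ZMod N) * d))) ^ 2) := by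
    intro x
    rw [av_prod, av_comm (fun (b : ZMod N × ZMod N) (d : ZMod N) =>
      ∏ i, nuX ν N x (fr2 (k := k) N i (b, d)))]
    congr 1
    funext d
    rw [av_prod]
    have h4 : ∀ a b : ZMod N, ∏ i, nuX ν N x (fr2 (k := k) N i ((a, b), d)) =
        (∏ j : Fin k, nuX ν N x (a + ((j : ℕ) : ZMod N) * d)) *
          ∏ j : Fin k, nuX ν N x (b + ((j : ℕ) : ZMod N) * d) := by
      intro a b
      rw [Fintype.prod_sum_type]
      rfl
    simp_rw [h4, av_mul]
    rw [pow_two, ← av_mul]
    congr 1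
    funext a
    rw [mul_comm]
  simp_rw [h2] at h1
  have h3 := (abs_le.1 h1).2
  rw [sub_le_iff_le_add, div_le_iff₀ hX'] at h3
  linarith

theorem av_cs {N : ℕ} [NeZero N] (f g : ZMod N → ℝ) :
    (av (fun d => f d * g d)) ^ 2 ≤ av (fun d => f d ^ 2) * av (fun d => g d ^ 2) := by
  unfold av
  rw [ZMod.card, div_pow, div_mul_div_comm, ← pow_two]
  apply div_le_div_of_nonneg_right _ (by positivity)
  exact sum_mul_sq_le_sq_mul_sq _ _ _

open Classical in
/-- the core -/
theorem core {ν : ℕ → ℝ} {A X N : ℕ} [NeZero N] {F : ℕ → ZMod N → ℝ} {w c0 c2 g0 ε : ℝ}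
    (hX : 1 ≤ X) (hF : ∀ x a, 0 ≤ F x a ∧ F x a ≤ nuX ν N x a) (hw : ∀ x a, F x a ≤ w)
    (hsec : ∑ x ∈ Ioc A (A + X), av (fun d : ZMod N =>
      (av (fun a : ZMod N => ∏ j : Fin k, nuX ν N x (a + ((j : ℕ) : ZMod N) * d))) ^ 2) ≤
      2 * X) (G : Finset ℕ) (hG : G ⊆ Ioc A (A + X)) (hg0 : 0 < g0) (hGc : g0 * X ≤ G.card)
    (hc0 : 0 < c0) (hε : 0 ≤ ε)
    (h0 : ∀ x ∈ G, c0 ≤ av (fun p : ZMod N × ZMod N =>
      ∏ j : Fin k, F x (p.1 + ((j : ℕ) : ZMod N) * p.2)))
    (h1 : ∀ x ∈ G, ∀ (E : ZMod N → ℝ), (∀ d, 0 ≤ E d ∧ E d ≤ 1) → ∀ S : Finset (Fin k),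
      av (fun p : ZMod N × ZMod N => E p.2 * ∏ j : Fin k, F x (p.1 + ((j : ℕ) : ZMod N) * p.2)) ≤
      av (fun p : ZMod N × ZMod N => E p.2 * ∏ j ∈ S, F x (p.1 + ((j : ℕ) : ZMod N) * p.2)) +
        k * ε)
    (hwN : w ^ k / N ≤ c0 * g0 / 4) (hc2 : 2 ^ k * (c2 + k * ε) ≤ c0 * g0 / 2) :
    (c0 * g0) ^ 2 / 32 * N ≤ (((univ : Finset (ZMod N)).filter (fun d => d ≠ 0 ∧
      0 < ∑ x ∈ G, av (fun a : ZMod N => ∏ j : Fin k, F x (a + ((j : ℕ) : ZMod N) * d)) ∧
      ∀ S : Finset (Fin k), c2 * X ≤ ∑ x ∈ G, av (fun a : ZMod N =>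
        ∏ j ∈ S, F x (a + ((j : ℕ) : ZMod N) * d)))).card : ℝ) := by
  have hX' : (0 : ℝ) < X := by exact_mod_cast hX
  have hN0 : (0 : ℝ) < N := by exact_mod_cast Nat.pos_of_ne_zero (NeZero.ne N)
  have hcard : (Ioc A (A + X)).card = X := by rw [Nat.card_Ioc]; omega
  have hGX : (G.card : ℝ) ≤ X := by
    have := card_le_card hG
    rw [hcard] at this
    exact_mod_cast this
  set q : ZMod N → ℝ := fun d =>
    ∑ x ∈ G, av (fun a : ZMod N => ∏ j : Fin k, F x (a + ((j : ℕ) : ZMod N) * d)) with hq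
  set AS : Finset (Fin k) → ZMod N → ℝ := fun S d =>
    ∑ x ∈ G, av (fun a : ZMod N => ∏ j ∈ S, F x (a + ((j : ℕ) : ZMod N) * d)) with hAS
  have hq0 : ∀ d, 0 ≤ q d := fun d => sum_nonneg fun x _ => av_nonneg fun a =>
    prod_nonneg fun j _ => (hF _ _).1
  set c1 := c0 * g0 with hc1
  have hc10 : 0 < c1 := by positivity
  -- the averages over pairs
  have hswap : ∀ (E : ZMod N → ℝ) (S : Finset (Fin k)) (x : ℕ),
      av (fun p : ZMod N × ZMod N => E p.2 * ∏ j ∈ S, F x (p.1 + ((j : ℕ) : ZMod N) * p.2)) =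
      av (fun d : ZMod N => E d * av (fun a : ZMod N =>
        ∏ j ∈ S, F x (a + ((j : ℕ) : ZMod N) * d))) := by
    intro E S x
    rw [av_prod, av_comm (fun (a d : ZMod N) => E (a, d).2 *
      ∏ j ∈ S, F x ((a, d).1 + ((j : ℕ) : ZMod N) * (a, d).2))]
    congr 1
    funext d
    exact av_mul (E d) (fun a : ZMod N => ∏ j ∈ S, F x (a + ((j : ℕ) : ZMod N) * d))
  have hEq : ∀ (E : ZMod N → ℝ) (S : Finset (Fin k)), av (fun d => E d * AS S d) =
      ∑ x ∈ G, av (fun p : ZMod N × ZMod N => E p.2 *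
        ∏ j ∈ S, F x (p.1 + ((j : ℕ) : ZMod N) * p.2)) := by
    intro E S
    rw [← sum_congr rfl (fun x _ => (hswap E S x).symm), ← av_sum]
    congr 1
    funext d
    rw [hAS, mul_sum]
  have hqAS : q = AS univ := rfl
  -- (1)
  have a1 : c1 * X ≤ av q := by
    have e1 : av q = ∑ x ∈ G, av (fun p : ZMod N × ZMod N =>
        ∏ j : Fin k, F x (p.1 + ((j : ℕ) : ZMod N) * p.2)) := by
      have := hEq (fun _ => 1) univ
      simp only [one_mul] at this
      rw [hqAS]
      exact this
    rw [e1]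
    calc c1 * X = c0 * (g0 * X) := by rw [hc1]; ring
      _ ≤ c0 * G.card := mul_le_mul_of_nonneg_left hGc hc0.le
      _ = ∑ x ∈ G, c0 := by rw [sum_const, nsmul_eq_mul]; ring
      _ ≤ _ := sum_le_sum h0
  -- (2)
  have a2 : ∀ (E : ZMod N → ℝ), (∀ d, 0 ≤ E d ∧ E d ≤ 1) → ∀ S : Finset (Fin k),
      av (fun d => E d * q d) ≤ av (fun d => E d * AS S d) + k * ε * X := by
    intro E hE S
    rw [hqAS, hEq, hEq]
    calc _ ≤ ∑ x ∈ G, (av (fun p : ZMod N × ZMod N => E p.2 *
          ∏ j ∈ S, F x (p.1 + ((j : ℕ) : ZMod N) * p.2)) + k * ε) :=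
          sum_le_sum fun x hx => h1 x hx E hE S
      _ = _ + G.card * (k * ε) := by rw [sum_add_distrib, sum_const, nsmul_eq_mul]
      _ ≤ _ := by
          have := mul_le_mul_of_nonneg_right hGX (show 0 ≤ (k : ℝ) * ε by positivity)
          linarith
  -- (3)
  set ES : Finset (Fin k) → ZMod N → ℝ := fun S d => if AS S d < c2 * X then 1 else 0 with hES
  have hES01 : ∀ S d, 0 ≤ ES S d ∧ ES S d ≤ 1 := by
    intro S d
    rw [hES]
    simp only
    split_ifs <;> norm_num
  have a3 : ∀ S, av (fun d => ES S d * q d) ≤ (c2 + k * ε) * X ∨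
      av (fun d => ES S d * q d) = 0 := by
    intro S
    by_cases hc : 0 ≤ c2
    · left
      refine (a2 (ES S) (hES01 S) S).trans ?_
      have h5 : av (fun d => ES S d * AS S d) ≤ av (fun _ : ZMod N => c2 * X) := by
        apply av_mono
        intro d
        rw [hES]
        simp only
        split_ifs with h
        · rw [one_mul]
          exact h.le
        · rw [zero_mul]
          positivity
      rw [av_const] at h5
      linarith
    · right
      push Not at hc
      have h6 : ∀ d, ES S d * q d = 0 := by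
        intro d
        have h7 : 0 ≤ AS S d := sum_nonneg fun x _ => av_nonneg fun a =>
          prod_nonneg fun j _ => (hF _ _).1
        have h8 : c2 * X < 0 := mul_neg_of_neg_of_pos hc hX'
        rw [hES]
        simp only
        rw [if_neg (by linarith), zero_mul]
      simp_rw [h6]
      exact av_const 0
  -- (4)
  set Good : Finset (ZMod N) := (univ : Finset (ZMod N)).filter (fun d => d ≠ 0 ∧ 0 < q d ∧
    ∀ S : Finset (Fin k), c2 * X ≤ AS S d) with hGood
  change c1 ^ 2 / 32 * N ≤ (Good.card : ℝ)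
  have a4 : ∀ d, q d ≤ (if d ∈ Good then 1 else 0) * q d + (if d = 0 then q 0 else 0) +
      ∑ S : Finset (Fin k), ES S d * q d := by
    intro d
    have hS0 : 0 ≤ ∑ S : Finset (Fin k), ES S d * q d :=
      sum_nonneg fun S _ => mul_nonneg (hES01 S d).1 (hq0 d)
    by_cases hd : d = 0
    · rw [if_pos hd, hd]
      rw [hd] at hS0
      have : 0 ≤ (if (0 : ZMod N) ∈ Good then 1 else 0) * q 0 :=
        mul_nonneg (by split_ifs <;> norm_num) (hq0 0)
      linarith
    · rw [if_neg hd]
      rcases (hq0 d).eq_or_lt with hqd | hqd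
      · rw [← hqd]
        simp
      · by_cases hAll : ∀ S : Finset (Fin k), c2 * X ≤ AS S d
        · have hdG : d ∈ Good := by
            rw [hGood, mem_filter]
            exact ⟨mem_univ _, hd, hqd, hAll⟩
          rw [if_pos hdG]
          linarith
        · push Not at hAll
          obtain ⟨S, hS⟩ := hAll
          have h8 : q d ≤ ∑ S : Finset (Fin k), ES S d * q d := by
            refine le_trans ?_ (single_le_sum (f := fun S => ES S d * q d)
              (fun S _ => mul_nonneg (hES01 S d).1 (hq0 d)) (mem_univ S))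
            have h8' : ES S d = 1 := by
              rw [hES]
              simp only
              rw [if_pos hS]
            show q d ≤ ES S d * q d
            rw [h8', one_mul]
          have : 0 ≤ (if d ∈ Good then 1 else 0) * q d :=
            mul_nonneg (by split_ifs <;> norm_num) (hq0 d)
          linarith
  have a5 : av (fun d : ZMod N => if d = 0 then q 0 else 0) ≤ c1 / 4 * X := by
    have h9 : av (fun d : ZMod N => if d = 0 then q 0 else 0) = q 0 / N := by
      unfold av
      rw [ZMod.card, sum_ite_eq' univ (0 : ZMod N) (fun _ => q 0), if_pos (mem_univ _)]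
    rw [h9]
    have h10 : q 0 ≤ X * w ^ k := by
      calc q 0 ≤ ∑ x ∈ G, w ^ k := by
            apply sum_le_sum
            intro x _
            calc av (fun a : ZMod N => ∏ j : Fin k, F x (a + ((j : ℕ) : ZMod N) * 0))
                ≤ av (fun _ : ZMod N => w ^ k) := by
                  apply av_mono
                  intro a
                  calc _ ≤ ∏ _j : Fin k, w :=
                        prod_le_prod (fun j _ => (hF _ _).1) (fun j _ => hw _ _)
                    _ = w ^ k := by rw [prod_const, card_univ, Fintype.card_fin]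
              _ = w ^ k := av_const _
        _ = G.card * w ^ k := by rw [sum_const, nsmul_eq_mul]
        _ ≤ _ := by
            apply mul_le_mul_of_nonneg_right hGX
            have : 0 ≤ w := (hF A 0).1.trans (hw A 0)
            positivity
    calc q 0 / N ≤ X * w ^ k / N := div_le_div_of_nonneg_right h10 hN0.le
      _ = w ^ k / N * X := by ring
      _ ≤ _ := mul_le_mul_of_nonneg_right hwN hX'.le
  have a6 : ∑ S : Finset (Fin k), av (fun d => ES S d * q d) ≤ c1 / 2 * X := by
    have h11 : 0 ≤ c2 + k * ε ∨ ∀ S, av (fun d => ES S d * q d) = 0 := by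
      by_cases hc : 0 ≤ c2 + k * ε
      · exact Or.inl hc
      · right
        intro S
        push Not at hc
        rcases a3 S with h | h
        · have h12 : (c2 + k * ε) * X < 0 := mul_neg_of_neg_of_pos hc hX'
          have h13 : 0 ≤ av (fun d => ES S d * q d) :=
            av_nonneg fun d => mul_nonneg (hES01 S d).1 (hq0 d)
          linarith
        · exact h
    rcases h11 with h11 | h11
    · calc ∑ S : Finset (Fin k), av (fun d => ES S d * q d)
          ≤ ∑ S : Finset (Fin k), (c2 + k * ε) * X := by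
            apply sum_le_sum
            intro S _
            rcases a3 S with h | h
            · exact h
            · rw [h]
              positivity
        _ = 2 ^ k * (c2 + k * ε) * X := by
            rw [sum_const, card_univ, Fintype.card_finset, Fintype.card_fin, nsmul_eq_mul]
            push_cast
            ring
        _ ≤ _ := mul_le_mul_of_nonneg_right hc2 hX'.le
    · rw [sum_congr rfl (fun S _ => h11 S), sum_const_zero]
      positivity
  have a7 : c1 / 4 * X ≤ av (fun d => (if d ∈ Good then 1 else 0) * q d) := by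
    have h14 := a1.trans (av_mono a4)
    rw [av_add, av_add, av_sum] at h14
    linarith
  -- (6)
  have a8 : av (fun d => (if d ∈ Good then (1 : ℝ) else 0) ^ 2) = Good.card / N := by
    unfold av
    rw [ZMod.card]
    congr 1
    simp
  have a9 : av (fun d => q d ^ 2) ≤ 2 * X * X := by
    have h15 : ∀ d, q d ^ 2 ≤ X * ∑ x ∈ Ioc A (A + X),
        (av (fun a : ZMod N => ∏ j : Fin k, nuX ν N x (a + ((j : ℕ) : ZMod N) * d))) ^ 2 := by
      intro d
      have h16 : q d ≤ ∑ x ∈ Ioc A (A + X),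
          av (fun a : ZMod N => ∏ j : Fin k, nuX ν N x (a + ((j : ℕ) : ZMod N) * d)) := by
        calc q d ≤ ∑ x ∈ G,
            av (fun a : ZMod N => ∏ j : Fin k, nuX ν N x (a + ((j : ℕ) : ZMod N) * d)) := by
              apply sum_le_sum
              intro x _
              apply av_mono
              intro a
              exact prod_le_prod (fun j _ => (hF _ _).1) (fun j _ => (hF _ _).2)
          _ ≤ _ := sum_le_sum_of_subset_of_nonneg hG (fun x _ _ => av_nonneg fun a =>
              prod_nonneg fun j _ => (hF _ _).1.trans (hF _ _).2)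
      have h17 := sq_sum_le_card_mul_sum_sq (s := Ioc A (A + X)) (f := fun x =>
          av (fun a : ZMod N => ∏ j : Fin k, nuX ν N x (a + ((j : ℕ) : ZMod N) * d)))
      rw [hcard] at h17
      exact (pow_le_pow_left₀ (hq0 d) h16 2).trans h17
    refine (av_mono h15).trans ?_
    rw [av_mul, av_sum]
    calc (X : ℝ) * _ ≤ X * (2 * X) := mul_le_mul_of_nonneg_left hsec hX'.le
      _ = _ := by ring
  have a10 := av_cs (fun d => if d ∈ Good then (1 : ℝ) else 0) q
  rw [a8] at a10
  have a11 : (c1 / 4 * X) ^ 2 ≤ Good.card / N * (2 * X * X) := by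
    refine (pow_le_pow_left₀ (by positivity) a7 2).trans (a10.trans ?_)
    exact mul_le_mul_of_nonneg_left a9 (by positivity)
  have a12 : c1 ^ 2 / 32 ≤ Good.card / N := by
    have h18 : 0 < 2 * (X : ℝ) * X := by positivity
    have h19 : c1 ^ 2 / 32 * (2 * X * X) ≤ Good.card / N * (2 * X * X) := by
      refine le_trans (le_of_eq ?_) a11
      ring
    exact le_of_mul_le_mul_right h19 h18
  rwa [le_div_iff₀ hN0] at a12

end Pool.Agent.L5helper4.DL
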