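import Pool.Agent.L5helper4.DL.Top
import Pool.Agent.H305R2.MertensE

/-!
# Dense sets of primes: the differences `d` for which all parts of `0, d, …, (k - 1) d` occur often
-/

set_option autoImplicit false

namespace Pool.Agent.L5helper4.DL

open Finset Filter Topology
open Pool.Agent.Y843.HS

/-- the class `0` modulo every prime -/
def Z0 (_ : ℕ) : Finset ℕ := {0}

theorem VV_Z0 (y : ℕ) : VV Z0 0 y = (∏ p ∈ (Finset.Icc 1 y).filter Nat.Prime, (1 - (p : ℝ)⁻¹)⁻¹)⁻¹ := by
  rw [← prod_inv_distrib]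
  unfold VV Pr Z0
  have : Ioc 0 y = Icc 1 y := by ext n; rw [mem_Icc, mem_Ioc]; omega
  rw [this]
  apply prod_congr rfl
  intro p _
  rw [inv_inv, card_singleton, Nat.cast_one, one_div]

theorem VV_Z0_asymp : ∃ c C : ℝ, 0 < c ∧ 0 < C ∧ ∀ᶠ y : ℕ in atTop,
    c / Real.log y ≤ VV Z0 0 y ∧ VV Z0 0 y ≤ C / Real.log y := by
  have h := Pool.Agent.H305R2.mertens_three
  set e := Real.exp Real.eulerMascheroniConstant with he
  have he0 : 0 < e := Real.exp_pos _
  refine ⟨1 / (2 * e), 2 / e, by positivity, by positivity, ?_⟩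
  have h1 := h.eventually (Ioo_mem_nhds (show e / 2 < e by linarith) (show e < 2 * e by linarith))
  filter_upwards [h1, eventually_ge_atTop 2] with y hy hy2
  have hlog : 0 < Real.log y := Real.log_pos (by exact_mod_cast (by omega : 1 < y))
  rw [VV_Z0]
  set Q := ∏ p ∈ (Finset.Icc 1 y).filter Nat.Prime, (1 - (p : ℝ)⁻¹)⁻¹ with hQ
  have h2 : e / 2 * Real.log y < Q := (lt_div_iff₀ hlog).1 hy.1
  have h3 : Q < 2 * e * Real.log y := (div_lt_iff₀ hlog).1 hy.2
  have hQ0 : 0 < Q := lt_trans (by positivity) h2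
  constructor
  · rw [div_le_iff₀ hlog, inv_mul_eq_div, le_div_iff₀ hQ0, div_mul_eq_mul_div, one_mul,
      div_le_iff₀ (by positivity)]
    linarith
  · rw [le_div_iff₀ hlog, inv_mul_eq_div, div_le_iff₀ hQ0, div_mul_eq_mul_div, le_div_iff₀ he0]
    linarith

open Classical in
/-- **Dense sets of primes.** For all `k` and `δ > 0` there are `B` and `c > 0` such that for all large `x`,
every set `P` of at least `δ x / log x` primes `≤ x` and every `D` between `(log x) ^ B` and
`x / (log x) ^ B`, at least `c D` of the `d ≤ D` have the following property: for EVERY set `F ∋ 0` of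
nonnegative integers less than `k` at least `c x / (log x) ^ |F|` elements `p` of `P` are such that all
`p + j d`, `j ∈ F`, are in `P`. -/
theorem primes (k : ℕ) (δ : ℝ) (hδ : 0 < δ) :
    ∃ (B : ℕ) (c : ℝ), 0 < c ∧ ∀ᶠ x : ℕ in atTop, ∀ P : Finset ℕ, (∀ p ∈ P, p.Prime ∧ p ≤ x) →
      δ * (x / Real.log x) ≤ P.card → ∀ D : ℕ, Real.log x ^ B ≤ D → D * Real.log x ^ B ≤ x →
      c * D ≤ (((Icc 1 D).filter (fun d => ∀ F ⊆ range k, 0 ∈ F →
        c * (x / Real.log x ^ F.card) ≤
          ((P.filter (fun p => ∀ j ∈ F, p + j * d ∈ P)).card : ℝ))).card : ℝ) := by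
  obtain ⟨c1, C1, hc1, hC1, hV⟩ := VV_Z0_asymp
  obtain ⟨B, X₀, c, hc, hcnt⟩ := cnt k 1 (1 / 2) (δ / (8 * C1)) (by norm_num) (by positivity)
  set c' := min c (c * min 1 (2 * c1) ^ k) with hc'
  have hm0 : 0 < min 1 (2 * c1) := lt_min one_pos (by positivity)
  have hc'0 : 0 < c' := lt_min hc (by positivity)
  refine ⟨B, c', hc'0, ?_⟩
  have tN : Tendsto (fun N : ℕ => (N : ℝ)) atTop atTop := tendsto_natCast_atTop_atTop
  have tfl : Tendsto (fun x : ℕ => ⌊(x : ℝ) ^ (1 / 2 : ℝ)⌋₊) atTop atTop :=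
    tendsto_nat_floor_atTop.comp ((tendsto_rpow_atTop (by norm_num)).comp tN)
  have hV' := tfl.eventually hV
  have hlo := (Real.isLittleO_log_id_atTop.comp_tendsto tN)
  -- `x ^ (1/2) log x ≤ δ / 2 x`
  have hsq : ∀ᶠ x : ℕ in atTop, (x : ℝ) ^ (1 / 2 : ℝ) * Real.log x ≤ δ / 2 * x := by
    have h1 := (isLittleO_log_rpow_atTop (show (0 : ℝ) < 1 / 2 by norm_num)).bound
      (show 0 < δ / 2 by positivity)
    filter_upwards [tN.eventually h1, eventually_ge_atTop 1] with x hx hx1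
    have hx0 : (0 : ℝ) < x := by exact_mod_cast hx1
    have hl : 0 ≤ Real.log x := Real.log_nonneg (by exact_mod_cast hx1)
    rw [Real.norm_of_nonneg hl, Real.norm_of_nonneg (by positivity)] at hx
    calc (x : ℝ) ^ (1 / 2 : ℝ) * Real.log x ≤ (x : ℝ) ^ (1 / 2 : ℝ) *
          (δ / 2 * (x : ℝ) ^ (1 / 2 : ℝ)) := mul_le_mul_of_nonneg_left hx (by positivity)
      _ = δ / 2 * ((x : ℝ) ^ (1 / 2 : ℝ) * (x : ℝ) ^ (1 / 2 : ℝ)) := by ring
      _ = δ / 2 * x := by
          rw [← Real.rpow_add hx0]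
          norm_num
  filter_upwards [hV', hsq, eventually_ge_atTop X₀, eventually_ge_atTop 16] with x hVx hsqx hxX hx16
  intro P hP hPc D hD1 hD2
  have hx0 : (0 : ℝ) < x := by exact_mod_cast (show 0 < x by omega)
  have hx1 : (1 : ℝ) ≤ x := by exact_mod_cast (show 1 ≤ x by omega)
  have hlog : 0 < Real.log x := Real.log_pos (by exact_mod_cast (by omega : 1 < x))
  set y := ⌊(x : ℝ) ^ (1 / 2 : ℝ)⌋₊ with hy
  have hyle : (y : ℝ) ≤ (x : ℝ) ^ (1 / 2 : ℝ) := Nat.floor_le (by positivity)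
  have h4 : (4 : ℝ) ≤ (x : ℝ) ^ (1 / 2 : ℝ) := by
    have : (16 : ℝ) ≤ x := by exact_mod_cast hx16
    calc (4 : ℝ) = (16 : ℝ) ^ (1 / 2 : ℝ) := by
          rw [show (16 : ℝ) = 4 ^ (2 : ℝ) by norm_num, ← Real.rpow_mul (by norm_num)]
          norm_num
      _ ≤ _ := Real.rpow_le_rpow (by norm_num) this (by norm_num)
  have hylt : (x : ℝ) ^ (1 / 2 : ℝ) < y + 1 := Nat.lt_floor_add_one _
  have hy4 : 3 ≤ y := by
    have : (3 : ℝ) < y + 1 := by linarith
    have : 3 < y + 1 := by exact_mod_cast this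
    omega
  have hy0 : (0 : ℝ) < y := by exact_mod_cast (show 0 < y by omega)
  have hylog : 0 < Real.log y := Real.log_pos (by exact_mod_cast (by omega : 1 < y))
  -- the size of `log y`
  have hly1 : Real.log y ≤ Real.log x / 2 := by
    have h1 : Real.log y ≤ Real.log ((x : ℝ) ^ (1 / 2 : ℝ)) := Real.log_le_log hy0 hyle
    rw [Real.log_rpow hx0] at h1
    linarith
  have hly2 : Real.log x / 4 ≤ Real.log y := by
    have h1 : (x : ℝ) ^ (1 / 4 : ℝ) ≤ y := by
      have h2 : (x : ℝ) ^ (1 / 2 : ℝ) = (x : ℝ) ^ (1 / 4 : ℝ) * (x : ℝ) ^ (1 / 4 : ℝ) := by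
        rw [← Real.rpow_add hx0]
        norm_num
      have h3 : (2 : ℝ) ≤ (x : ℝ) ^ (1 / 4 : ℝ) := by
        by_contra hcon
        push Not at hcon
        have h5 : 0 ≤ (x : ℝ) ^ (1 / 4 : ℝ) := by positivity
        nlinarith
      nlinarith
    have h2 : Real.log ((x : ℝ) ^ (1 / 4 : ℝ)) ≤ Real.log y := Real.log_le_log (by positivity) h1
    rw [Real.log_rpow hx0] at h2
    linarith
  -- the primes of `P` larger than `x ^ (1/2)`
  set S := P.filter (fun p : ℕ => (x : ℝ) ^ (1 / 2 : ℝ) < (p : ℝ)) with hS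
  have hSP : S ⊆ P := filter_subset _ _
  have hSc : δ / (8 * C1) * x * VV Z0 0 y ≤ S.card := by
    have h1 : (P.card : ℝ) ≤ S.card + (x : ℝ) ^ (1 / 2 : ℝ) := by
      have h2 : P.card = S.card + (P.filter (fun p : ℕ => ¬ (x : ℝ) ^ (1 / 2 : ℝ) < (p : ℝ))).card :=
        (card_filter_add_card_filter_not _).symm
      have h3 : (P.filter (fun p : ℕ => ¬ (x : ℝ) ^ (1 / 2 : ℝ) < (p : ℝ))).card ≤ y := by
        have h5 : P.filter (fun p : ℕ => ¬ (x : ℝ) ^ (1 / 2 : ℝ) < (p : ℝ)) ⊆ Icc 1 y := by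
          intro p hp
          rw [mem_filter] at hp
          rw [mem_Icc]
          refine ⟨(hP p hp.1).1.one_le, ?_⟩
          apply Nat.le_floor
          exact not_lt.1 hp.2
        have := card_le_card h5
        rwa [Nat.card_Icc, Nat.add_sub_cancel] at this
      have h6 : (P.card : ℝ) = S.card + (P.filter (fun p : ℕ => ¬ (x : ℝ) ^ (1 / 2 : ℝ) < (p : ℝ))).card := by
        exact_mod_cast h2
      have h7 : ((P.filter (fun p : ℕ => ¬ (x : ℝ) ^ (1 / 2 : ℝ) < (p : ℝ))).card : ℝ) ≤ y := by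
        exact_mod_cast h3
      linarith
    have h2 : (x : ℝ) ^ (1 / 2 : ℝ) ≤ δ / 2 * (x / Real.log x) := by
      rw [← mul_div_assoc, le_div_iff₀ hlog]
      exact hsqx
    have h3 : δ / 2 * (x / Real.log x) ≤ S.card := by linarith
    refine le_trans ?_ h3
    calc δ / (8 * C1) * x * VV Z0 0 y ≤ δ / (8 * C1) * x * (C1 / Real.log y) :=
          mul_le_mul_of_nonneg_left hVx.2 (by positivity)
      _ = δ / 8 * x / Real.log y := by field_simp
      _ ≤ δ / 8 * x / (Real.log x / 4) :=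
          div_le_div_of_nonneg_left (by positivity) (by positivity) hly2
      _ = δ / 2 * (x / Real.log x) := by field_simp; ring
  have hmain := hcnt x 0 hxX Z0 (by
    intro p hp _
    unfold Z0
    refine ⟨by simp, ?_, ?_⟩
    · rw [card_singleton]
      exact hp.one_lt
    · intro c hc
      rw [mem_singleton] at hc
      rw [hc]
      exact hp.pos) S (by
    intro p hp
    rw [hS, mem_filter] at hp
    rw [mem_Ioc]
    have := hP p hp.1
    exact ⟨this.1.pos, by omega⟩) (by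
    intro n hn p hp hpx
    rw [hS, mem_filter] at hn
    unfold Z0
    rw [mem_singleton]
    intro h0
    have h1 := (Nat.prime_dvd_prime_iff_eq hp (hP n hn.1).1).1 (Nat.dvd_of_mod_eq_zero h0)
    rw [h1] at hpx
    linarith [hn.2]) hSc D hD1 hD2
  have hD0 : (0 : ℝ) ≤ D := Nat.cast_nonneg D
  refine (mul_le_mul_of_nonneg_right (min_le_left _ _) hD0).trans (hmain.trans ?_)
  have hsub : (Icc 1 D).filter (fun d => ∀ F ⊆ range k, 0 ∈ F →
        c * x * VV Z0 0 y ^ F.card ≤
          ((S.filter (fun n => ∀ j ∈ F, n + j * d ∈ S)).card : ℝ)) ⊆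
      (Icc 1 D).filter (fun d => ∀ F ⊆ range k, 0 ∈ F →
        c' * (x / Real.log x ^ F.card) ≤
          ((P.filter (fun p => ∀ j ∈ F, p + j * d ∈ P)).card : ℝ)) := by
    intro d hd
    rw [mem_filter] at hd ⊢
    refine ⟨hd.1, ?_⟩
    intro F hF h0F
    have h1 := hd.2 F hF h0F
    have h2 : ((S.filter (fun n => ∀ j ∈ F, n + j * d ∈ S)).card : ℝ) ≤
        ((P.filter (fun p => ∀ j ∈ F, p + j * d ∈ P)).card : ℝ) := by
      have : S.filter (fun n => ∀ j ∈ F, n + j * d ∈ S) ⊆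
          P.filter (fun p => ∀ j ∈ F, p + j * d ∈ P) := by
        intro n hn
        rw [mem_filter] at hn ⊢
        exact ⟨hSP hn.1, fun j hj => hSP (hn.2 j hj)⟩
      exact_mod_cast card_le_card this
    refine le_trans ?_ (h1.trans h2)
    have hFc : F.card ≤ k := by
      have := card_le_card hF
      rwa [card_range] at this
    have h3 : 2 * c1 / Real.log x ≤ VV Z0 0 y := by
      refine le_trans ?_ hVx.1
      rw [div_le_div_iff₀ hlog hylog]
      have := mul_le_mul_of_nonneg_left hly1 hc1.le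
      linarith
    have h4 : min 1 (2 * c1) ^ k / Real.log x ^ F.card ≤ VV Z0 0 y ^ F.card := by
      calc min 1 (2 * c1) ^ k / Real.log x ^ F.card
          ≤ min 1 (2 * c1) ^ F.card / Real.log x ^ F.card := by
            apply div_le_div_of_nonneg_right _ (by positivity)
            exact pow_le_pow_of_le_one hm0.le (min_le_left _ _) hFc
        _ ≤ (2 * c1) ^ F.card / Real.log x ^ F.card := by
            apply div_le_div_of_nonneg_right _ (by positivity)
            exact pow_le_pow_left₀ hm0.le (min_le_right _ _) _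
        _ = (2 * c1 / Real.log x) ^ F.card := by rw [div_pow]
        _ ≤ _ := pow_le_pow_left₀ (by positivity) h3 _
    calc c' * (x / Real.log x ^ F.card) ≤ (c * min 1 (2 * c1) ^ k) * (x / Real.log x ^ F.card) :=
          mul_le_mul_of_nonneg_right (min_le_right _ _) (by positivity)
      _ = c * x * (min 1 (2 * c1) ^ k / Real.log x ^ F.card) := by ring
      _ ≤ _ := mul_le_mul_of_nonneg_left h4 (by positivity)
  exact_mod_cast card_le_card hsub

end Pool.Agent.L5helper4.DL
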