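import Pool.Agent.L5helper4.DL.Poly
import Pool.Agent.L5helper4.DL.Primes
import Pool.Agent.W93.GB1

/-!
# Dense sets of Goldbach representations: popular differences at all scales
-/

set_option autoImplicit false

namespace Pool.Agent.L5helper4.DL

open Finset Filter Topology
open Pool.Agent.Y843.HS
open Pool.Agent.W93.GB
open Pool.Agent.H560R3.GB (sing C₂)

/-- the classes modulo `p` of the numbers `n` with `p ∣ n` or `p ∣ m - n` -/
def ZG (m p : ℕ) : Finset ℕ := {0, m % p}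

theorem card_ZG (m p : ℕ) : (ZG m p).card = if p ∣ m then 1 else 2 := by
  unfold ZG
  split_ifs with h
  · rw [Nat.mod_eq_zero_of_dvd h]
    rfl
  · rw [card_pair]
    intro h0
    exact h (Nat.dvd_of_mod_eq_zero h0.symm)

theorem VV_ZG (m y : ℕ) (hm : 2 ∣ m) (hy : 2 ≤ y) :
    VV (ZG m) 0 y = 2 * VV Z0 0 y ^ 2 * Pz y *
      ∏ p ∈ (Icc 3 y).filter Nat.Prime, (if p ∣ m then dv p else 1) := by
  have e : Pr 0 y = insert 2 ((Icc 3 y).filter Nat.Prime) := by
    unfold Pr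
    ext p
    rw [mem_filter, mem_insert, mem_filter, mem_Ioc, mem_Icc]
    constructor
    · rintro ⟨⟨h1, h2⟩, h3⟩
      by_cases h : p = 2
      · exact Or.inl h
      · right
        have := h3.two_le
        exact ⟨⟨by omega, h2⟩, h3⟩
    · rintro (rfl | ⟨⟨h1, h2⟩, h3⟩)
      · exact ⟨⟨by omega, hy⟩, Nat.prime_two⟩
      · exact ⟨⟨by omega, h2⟩, h3⟩
  have hn : 2 ∉ (Icc 3 y).filter Nat.Prime := by
    rw [mem_filter, mem_Icc]
    omega
  unfold VV
  rw [e, prod_insert hn, prod_insert hn, card_ZG, if_pos hm]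
  unfold Z0
  rw [card_singleton, mul_pow, ← prod_pow]
  unfold Pz
  have e2 : (∏ p ∈ (Icc 3 y).filter Nat.Prime, (1 - ((ZG m p).card : ℝ) / p)) =
      (∏ p ∈ (Icc 3 y).filter Nat.Prime, (1 - ((({0} : Finset ℕ).card : ℕ) : ℝ) / p) ^ 2) *
        (∏ p ∈ (Icc 3 y).filter Nat.Prime, (1 - 1 / ((p : ℝ) - 1) ^ 2)) *
        ∏ p ∈ (Icc 3 y).filter Nat.Prime, (if p ∣ m then dv p else 1) := by
    rw [← prod_mul_distrib, ← prod_mul_distrib]
    apply prod_congr rfl
    intro p hp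
    rw [mem_filter, mem_Icc] at hp
    have hp3 : (3 : ℝ) ≤ p := by exact_mod_cast hp.1.1
    have h1 : (p : ℝ) ≠ 0 := by linarith
    have h2 : (p : ℝ) - 1 ≠ 0 := by linarith
    have h3 : (p : ℝ) - 2 ≠ 0 := by linarith
    rw [card_ZG, card_singleton]
    split_ifs with h
    · unfold dv
      field_simp
      push_cast
      ring
    · push_cast
      field_simp
      ring
  rw [e2]
  push_cast
  simp only [card_singleton]
  norm_num
  ring

theorem sing_split (m y : ℕ) (hm0 : m ≠ 0) (hy : 2 ≤ y) (hym : m.primeFactors.card + 1 ≤ y) :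
    2 * C₂ * (∏ p ∈ (Icc 3 y).filter Nat.Prime, (if p ∣ m then dv p else 1)) ≤ sing m ∧
    sing m ≤ 2 * C₂ * (∏ p ∈ (Icc 3 y).filter Nat.Prime, (if p ∣ m then dv p else 1)) *
      Real.exp 1 := by
  have hC := C2_pos
  have e1 : (∏ p ∈ (Icc 3 y).filter Nat.Prime, (if p ∣ m then dv p else 1)) =
      ∏ p ∈ (m.primeFactors.filter (fun p => 2 < p)).filter (fun p => p ≤ y), dv p := by
    rw [← prod_filter]
    apply prod_congr _ (fun _ _ => rfl)
    ext p
    simp only [mem_filter, mem_Icc, Nat.mem_primeFactors]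
    constructor
    · rintro ⟨⟨⟨h1, h2⟩, h3⟩, h4⟩
      exact ⟨⟨⟨h3, h4, hm0⟩, by omega⟩, h2⟩
    · rintro ⟨⟨⟨h3, h4, _⟩, h1⟩, h2⟩
      exact ⟨⟨⟨by omega, h2⟩, h3⟩, h4⟩
  have e2 : sing m = 2 * C₂ * ((∏ p ∈ (m.primeFactors.filter (fun p => 2 < p)).filter (fun p => p ≤ y), dv p) *
      ∏ p ∈ (m.primeFactors.filter (fun p => 2 < p)).filter (fun p => ¬ p ≤ y), dv p) := by
    rw [sing_eq, prod_filter_mul_prod_filter_not]
  have h3 : 1 ≤ ∏ p ∈ (m.primeFactors.filter (fun p => 2 < p)).filter (fun p => ¬ p ≤ y), dv p :=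
    one_le_prod_dv _ (fun p hp => (mem_filter.1 (mem_filter.1 hp).1).2)
  have h4 : 0 ≤ ∏ p ∈ (m.primeFactors.filter (fun p => 2 < p)).filter (fun p => p ≤ y), dv p :=
    zero_le_one.trans (one_le_prod_dv _ (fun p hp => (mem_filter.1 (mem_filter.1 hp).1).2))
  have h5 : ∏ p ∈ (m.primeFactors.filter (fun p => 2 < p)).filter (fun p => ¬ p ≤ y), dv p ≤
      Real.exp 1 := by
    have hyr : (2 : ℝ) ≤ y := by exact_mod_cast hy
    calc ∏ p ∈ (m.primeFactors.filter (fun p => 2 < p)).filter (fun p => ¬ p ≤ y), dv p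
        ≤ ∏ _p ∈ (m.primeFactors.filter (fun p => 2 < p)).filter (fun p => ¬ p ≤ y),
          Real.exp (1 / ((y : ℝ) - 1)) := by
          apply Finset.prod_le_prod
          · intro p hp
            exact zero_le_one.trans (one_le_dv p (mem_filter.1 (mem_filter.1 hp).1).2)
          · intro p hp
            rw [mem_filter, mem_filter] at hp
            exact dv_le p y hp.1.2 (not_le.1 hp.2) hy
      _ = Real.exp (((m.primeFactors.filter (fun p => 2 < p)).filter (fun p => ¬ p ≤ y)).card *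
            (1 / ((y : ℝ) - 1))) := by
          rw [prod_const, ← Real.exp_nat_mul]
      _ ≤ Real.exp 1 := by
          apply Real.exp_le_exp.2
          have h6 : ((m.primeFactors.filter (fun p => 2 < p)).filter (fun p => ¬ p ≤ y)).card ≤
              m.primeFactors.card :=
            (card_le_card (filter_subset _ _)).trans (card_le_card (filter_subset _ _))
          have h7 : ((((m.primeFactors.filter (fun p => 2 < p)).filter (fun p => ¬ p ≤ y)).card : ℕ) : ℝ) ≤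
              (y : ℝ) - 1 := by
            have h8 : ((m.primeFactors.filter (fun p => 2 < p)).filter (fun p => ¬ p ≤ y)).card + 1 ≤ y := by
              omega
            have h9 : ((((m.primeFactors.filter (fun p => 2 < p)).filter
              (fun p => ¬ p ≤ y)).card : ℕ) : ℝ) + 1 ≤ y := by exact_mod_cast h8
            linarith
          rw [mul_one_div, div_le_one (by linarith)]
          exact h7
  rw [e1, e2]
  constructor
  · apply mul_le_mul_of_nonneg_left _ (by linarith)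
    exact le_mul_of_one_le_right h4 h3
  · rw [mul_assoc (2 * C₂)]
    apply mul_le_mul_of_nonneg_left _ (by linarith)
    exact mul_le_mul_of_nonneg_left h5 h4

theorem VV_ZG_bounds (m y : ℕ) (hm0 : m ≠ 0) (hm : 2 ∣ m) (hy : 2 ≤ y)
    (hym : m.primeFactors.card + 1 ≤ y) :
    VV Z0 0 y ^ 2 * sing m / Real.exp 1 ≤ VV (ZG m) 0 y ∧
      VV (ZG m) 0 y ≤ 2 * VV Z0 0 y ^ 2 * sing m := by
  have hC := C2_pos
  have hCh := C2_half
  obtain ⟨h1, h2⟩ := sing_split m y hm0 hy hym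
  rw [VV_ZG m y hm hy]
  obtain ⟨Q, hQ⟩ : ∃ Q, Q = ∏ p ∈ (Icc 3 y).filter Nat.Prime, (if p ∣ m then dv p else 1) := ⟨_, rfl⟩
  rw [← hQ] at h1 h2 ⊢
  have hQ0 : 0 ≤ Q := by
    rw [hQ]
    apply prod_nonneg
    intro p hp
    rw [mem_filter, mem_Icc] at hp
    split_ifs
    · exact zero_le_one.trans (one_le_dv p (by omega))
    · exact zero_le_one
  obtain ⟨V, hV⟩ : ∃ V, V = VV Z0 0 y ^ 2 := ⟨_, rfl⟩
  have hV0 : 0 ≤ V := by rw [hV]; positivity
  rw [← hV]
  have hP0 := Pz_pos y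
  have hP1 : Pz y ≤ 1 := by
    have := Pz_anti (show 2 ≤ y from hy)
    have h3 : Pz 2 = 1 := by
      unfold Pz
      have : (Icc 3 2 : Finset ℕ) = ∅ := by simp
      rw [this]; simp
    rwa [h3] at this
  have hPC := C2_le y
  have he := Real.exp_pos 1
  constructor
  · rw [div_le_iff₀ he]
    calc V * sing m ≤ V * (2 * C₂ * Q * Real.exp 1) := mul_le_mul_of_nonneg_left h2 hV0
      _ = 2 * V * C₂ * Q * Real.exp 1 := by ring
      _ ≤ 2 * V * Pz y * Q * Real.exp 1 := by gcongr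
  · calc 2 * V * Pz y * Q ≤ 2 * V * 1 * Q := by gcongr
      _ ≤ 2 * V * (2 * C₂) * Q := by
          gcongr
          linarith
      _ = 2 * V * (2 * C₂ * Q) := by ring
      _ ≤ 2 * V * sing m := by gcongr

theorem card_primeFactors_log (m : ℕ) (hm : m ≠ 0) :
    (m.primeFactors.card : ℝ) ≤ 2 * Real.log m := by
  have h1 : 2 ^ m.primeFactors.card ≤ m := by
    calc 2 ^ m.primeFactors.card = ∏ _p ∈ m.primeFactors, 2 := by rw [prod_const]
      _ ≤ ∏ p ∈ m.primeFactors, p :=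
          Finset.prod_le_prod (fun _ _ => by norm_num) (fun p hp => (Nat.prime_of_mem_primeFactors hp).two_le)
      _ ≤ m := Nat.le_of_dvd (Nat.pos_of_ne_zero hm) (Nat.prod_primeFactors_dvd m)
  have h2 : ((2 : ℝ)) ^ m.primeFactors.card ≤ m := by exact_mod_cast h1
  have h3 := Real.log_le_log (by positivity) h2
  rw [Real.log_pow] at h3
  have h4 := Real.log_two_gt_d9
  have h5 : (0 : ℝ) ≤ m.primeFactors.card := Nat.cast_nonneg _
  nlinarith

open Classical in
/-- **Dense sets of Goldbach representations.** -/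
theorem gold (k A : ℕ) (δ : ℝ) (hδ : 0 < δ) :
    ∃ (B : ℕ) (c : ℝ), 0 < c ∧ ∀ᶠ m : ℕ in atTop, 2 ∣ m → ∀ y₁ y₂ : ℕ, y₂ ≤ m →
      (m : ℝ) / Real.log m ^ A ≤ (y₂ : ℝ) - y₁ → ∀ P : Finset ℕ,
      (∀ p ∈ P, y₁ < p ∧ p ≤ y₂ ∧ p.Prime ∧ (m - p).Prime) →
      δ * (sing m * ((y₂ : ℝ) - y₁) / Real.log m ^ 2) ≤ P.card →
      ∀ D : ℕ, Real.log m ^ B ≤ D → D * Real.log m ^ B ≤ (y₂ : ℝ) - y₁ →
      c * D ≤ (((Icc 1 D).filter (fun d => ∀ F ⊆ range k, 0 ∈ F →
        c * (((y₂ : ℝ) - y₁) * (sing m / Real.log m ^ 2) ^ F.card) ≤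
          ((P.filter (fun p => ∀ j ∈ F, p + j * d ∈ P)).card : ℝ))).card : ℝ) := by
  obtain ⟨c1, C1, hc1, hC1, hV⟩ := VV_Z0_asymp
  obtain ⟨B, X₀, c, hc, hcnt⟩ := cnt k 2 (1 / 2) (δ / (256 * C1 ^ 2)) (by norm_num) (by positivity)
  set c' := min c (c * min 1 (c1 ^ 2) ^ k) with hc'
  have hm0 : 0 < min 1 (c1 ^ 2) := lt_min one_pos (by positivity)
  have hc'0 : 0 < c' := lt_min hc (by positivity)
  refine ⟨B, c', hc'0, ?_⟩
  have tN : Tendsto (fun N : ℕ => (N : ℝ)) atTop atTop := tendsto_natCast_atTop_atTop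
  obtain ⟨Y₀, hY₀⟩ := eventually_atTop.1 hV
  obtain ⟨X₁, hX₁⟩ := eventually_atTop.1 (floor_rpow (show (0 : ℝ) < 1 / 2 by norm_num))
  have h14 : Tendsto (fun m : ℕ => (m : ℝ) ^ (1 / 4 : ℝ)) atTop atTop :=
    (tendsto_rpow_atTop (by norm_num)).comp tN
  have h12 : Tendsto (fun m : ℕ => (m : ℝ) ^ (1 / 2 : ℝ)) atTop atTop :=
    (tendsto_rpow_atTop (by norm_num)).comp tN
  -- `(log m) ^ n ≤ ε m ^ a`
  have hlo : ∀ (n : ℕ) (a ε : ℝ), 0 < a → 0 < ε → ∀ᶠ m : ℕ in atTop,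
      Real.log m ^ n ≤ ε * (m : ℝ) ^ a := by
    intro n a ε ha hε
    have h1 := (isLittleO_log_rpow_rpow_atTop (n : ℝ) ha).bound hε
    filter_upwards [tN.eventually h1, eventually_ge_atTop 1] with x hx hx1
    have hl : 0 ≤ Real.log x := Real.log_nonneg (by exact_mod_cast hx1)
    rw [Real.norm_of_nonneg (by positivity), Real.norm_of_nonneg (by positivity),
      Real.rpow_natCast] at hx
    exact hx
  filter_upwards [hlo A (1 / 2) 1 (by norm_num) one_pos, hlo 2 (1 / 4) (δ / 6) (by norm_num)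
    (by positivity), hlo 1 (1 / 4) (1 / 8) (by norm_num) (by norm_num),
    h14.eventually_ge_atTop (Y₀ + 9), h12.eventually_ge_atTop (X₀ + X₁ + 9),
    eventually_ge_atTop 16] with m hA hl2 hl1 hm14 hm12 hm16
  intro hm2 y₁ y₂ hy2m hH P hP hPc D hD1 hD2
  have hmr : (16 : ℝ) ≤ m := by exact_mod_cast hm16
  have hm0' : (0 : ℝ) < m := by linarith
  have hlog : 0 < Real.log m := Real.log_pos (by linarith)
  obtain ⟨L, hL⟩ : ∃ L, L = Real.log (m : ℝ) := ⟨_, rfl⟩
  rw [← hL] at hA hl2 hl1 hlog hH hPc hD1 hD2 ⊢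
  have hHpos : 0 < (y₂ : ℝ) - y₁ := lt_of_lt_of_le (by positivity) hH
  have hy12 : y₁ < y₂ := by
    have : (y₁ : ℝ) < y₂ := by linarith
    exact_mod_cast this
  obtain ⟨H, hHd⟩ : ∃ H : ℕ, H = y₂ - y₁ := ⟨_, rfl⟩
  have hHr : (H : ℝ) = (y₂ : ℝ) - y₁ := by
    rw [hHd, Nat.cast_sub hy12.le]
  rw [← hHr] at hH hPc hD2 hHpos ⊢
  have hHm : (H : ℝ) ≤ m := by
    have : H ≤ m := by omega
    exact_mod_cast this
  -- `√m ≤ H`
  have hHs : (m : ℝ) ^ (1 / 2 : ℝ) ≤ H := by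
    refine le_trans ?_ hH
    rw [one_mul] at hA
    rw [le_div_iff₀ (by positivity)]
    calc (m : ℝ) ^ (1 / 2 : ℝ) * L ^ A ≤ (m : ℝ) ^ (1 / 2 : ℝ) * (m : ℝ) ^ (1 / 2 : ℝ) := by gcongr
      _ = m := by
          rw [← Real.rpow_add hm0']
          norm_num
  have hHX : X₀ + X₁ + 9 ≤ H := by
    have : ((X₀ + X₁ + 9 : ℕ) : ℝ) ≤ H := by
      push_cast
      linarith
    exact_mod_cast this
  have hH9 : (9 : ℝ) ≤ H := by
    have : 9 ≤ H := by omega
    exact_mod_cast this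
  obtain ⟨hy3, hly2, hly1⟩ := hX₁ H (by omega)
  set y := ⌊(H : ℝ) ^ (1 / 2 : ℝ)⌋₊ with hy
  have hyle : (y : ℝ) ≤ (H : ℝ) ^ (1 / 2 : ℝ) := Nat.floor_le (by positivity)
  have hylt : (H : ℝ) ^ (1 / 2 : ℝ) < y + 1 := Nat.lt_floor_add_one _
  have hH14 : (m : ℝ) ^ (1 / 4 : ℝ) ≤ (H : ℝ) ^ (1 / 2 : ℝ) := by
    calc (m : ℝ) ^ (1 / 4 : ℝ) = ((m : ℝ) ^ (1 / 2 : ℝ)) ^ (1 / 2 : ℝ) := by
          rw [← Real.rpow_mul hm0'.le]
          norm_num
      _ ≤ _ := Real.rpow_le_rpow (by positivity) hHs (by norm_num)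
  have hyY : Y₀ ≤ y := by
    have : ((Y₀ + 9 : ℕ) : ℝ) < ((y + 1 : ℕ) : ℝ) := by
      push_cast
      linarith
    have : Y₀ + 9 < y + 1 := by exact_mod_cast this
    omega
  obtain ⟨hV1, hV2⟩ := hY₀ y hyY
  have hylog : 0 < Real.log y := Real.log_pos (by exact_mod_cast (by omega : 1 < y))
  have hlH1 : Real.log H ≤ L := by
    rw [hL]
    exact Real.log_le_log hHpos hHm
  have hlH2 : L / 2 ≤ Real.log H := by
    have h1 := Real.log_le_log (by positivity) hHs
    rw [Real.log_rpow hm0', ← hL] at h1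
    linarith
  have hlyL1 : Real.log y ≤ L / 2 := by linarith
  have hlyL2 : L / 8 ≤ Real.log y := by linarith
  have hpf : m.primeFactors.card + 1 ≤ y := by
    have h1 := card_primeFactors_log m (by omega)
    rw [← hL] at h1
    rw [pow_one] at hl1
    have h2 : (m.primeFactors.card : ℝ) ≤ 1 / 4 * (m : ℝ) ^ (1 / 4 : ℝ) := by linarith
    have h4 : (9 : ℝ) ≤ (m : ℝ) ^ (1 / 4 : ℝ) := by
      have : (0 : ℝ) ≤ Y₀ := Nat.cast_nonneg _
      linarith
    have h3 : ((m.primeFactors.card + 1 : ℕ) : ℝ) ≤ y := by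
      push_cast
      linarith
    exact_mod_cast h3
  obtain ⟨hG1, hG2⟩ := VV_ZG_bounds m y (by omega) hm2 (by omega) hpf
  have hs1 := one_le_sing m
  obtain ⟨s, hs⟩ : ∃ s, s = sing m := ⟨_, rfl⟩
  rw [← hs] at hG1 hG2 hs1 hPc ⊢
  have hs0 : 0 < s := by linarith
  -- the bounds for the product
  have hVup : VV (ZG m) 0 y ≤ 128 * C1 ^ 2 * (s / L ^ 2) := by
    have h1 : VV Z0 0 y ≤ 8 * C1 / L := by
      refine hV2.trans ?_
      calc C1 / Real.log y ≤ C1 / (L / 8) := div_le_div_of_nonneg_left hC1.le (by positivity) hlyL2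
        _ = 8 * C1 / L := by field_simp
    have h0 : 0 ≤ VV Z0 0 y := le_trans (by positivity) hV1
    calc VV (ZG m) 0 y ≤ 2 * VV Z0 0 y ^ 2 * s := hG2
      _ ≤ 2 * (8 * C1 / L) ^ 2 * s := by gcongr
      _ = 128 * C1 ^ 2 * (s / L ^ 2) := by
          field_simp
          ring
  have hVlo : c1 ^ 2 * (s / L ^ 2) ≤ VV (ZG m) 0 y := by
    refine le_trans ?_ hG1
    have h1 : 2 * c1 / L ≤ VV Z0 0 y := by
      refine le_trans ?_ hV1
      calc 2 * c1 / L = c1 / (L / 2) := by field_simp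
        _ ≤ c1 / Real.log y := div_le_div_of_nonneg_left hc1.le hylog hlyL1
    have he : Real.exp 1 ≤ 4 := by
      have := Real.exp_one_lt_d9
      linarith
    rw [le_div_iff₀ (Real.exp_pos 1)]
    calc c1 ^ 2 * (s / L ^ 2) * Real.exp 1 ≤ c1 ^ 2 * (s / L ^ 2) * 4 := by gcongr
      _ = (2 * c1 / L) ^ 2 * s := by
          field_simp
          ring
      _ ≤ VV Z0 0 y ^ 2 * s := by gcongr
  -- the set
  set S := P.filter (fun p : ℕ => (H : ℝ) ^ (1 / 2 : ℝ) < (p : ℝ) ∧ (H : ℝ) ^ (1 / 2 : ℝ) < ((m - p : ℕ) : ℝ))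
    with hS
  have hSP : S ⊆ P := filter_subset _ _
  have hSc : δ / (256 * C1 ^ 2) * H * VV (ZG m) 0 y ≤ S.card := by
    have h1 : (P.card : ℝ) ≤ S.card + 3 * (H : ℝ) ^ (1 / 2 : ℝ) := by
      have h2 : P ⊆ S ∪ (Icc 1 y ∪ Icc (m - y) m) := by
        intro p hp
        by_cases hpS : p ∈ S
        · exact mem_union_left _ hpS
        · apply mem_union_right
          rw [hS, mem_filter, not_and] at hpS
          have h3 := hpS hp
          have hpp := hP p hp
          rw [not_and_or, not_lt, not_lt] at h3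
          rcases h3 with h3 | h3
          · apply mem_union_left
            rw [mem_Icc]
            exact ⟨hpp.2.2.1.one_le, Nat.le_floor h3⟩
          · apply mem_union_right
            rw [mem_Icc]
            have : m - p ≤ y := Nat.le_floor h3
            omega
      have h3 := (card_le_card h2).trans ((card_union_le _ _).trans
        (Nat.add_le_add_left (card_union_le _ _) _))
      rw [Nat.card_Icc, Nat.card_Icc] at h3
      have h4 : P.card ≤ S.card + 3 * y := by omega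
      have h5 : (P.card : ℝ) ≤ S.card + 3 * y := by exact_mod_cast h4
      linarith
    have h2 : 3 * (H : ℝ) ^ (1 / 2 : ℝ) ≤ δ / 2 * (s * H / L ^ 2) := by
      have h3 : (H : ℝ) = (H : ℝ) ^ (1 / 2 : ℝ) * (H : ℝ) ^ (1 / 2 : ℝ) := by
        rw [← Real.rpow_add hHpos]
        norm_num
      have h4 : 6 * L ^ 2 ≤ δ * (H : ℝ) ^ (1 / 2 : ℝ) := by
        calc 6 * L ^ 2 ≤ 6 * (δ / 6 * (m : ℝ) ^ (1 / 4 : ℝ)) := by linarith
          _ = δ * (m : ℝ) ^ (1 / 4 : ℝ) := by ring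
          _ ≤ _ := by gcongr
      rw [← mul_div_assoc, le_div_iff₀ (by positivity)]
      calc 3 * (H : ℝ) ^ (1 / 2 : ℝ) * L ^ 2 = (H : ℝ) ^ (1 / 2 : ℝ) / 2 * (6 * L ^ 2) := by ring
        _ ≤ (H : ℝ) ^ (1 / 2 : ℝ) / 2 * (δ * (H : ℝ) ^ (1 / 2 : ℝ)) := by gcongr
        _ = δ / 2 * (1 * ((H : ℝ) ^ (1 / 2 : ℝ) * (H : ℝ) ^ (1 / 2 : ℝ))) := by ring
        _ = δ / 2 * (1 * H) := by rw [← h3]
        _ ≤ δ / 2 * (s * H) := by gcongr
    calc δ / (256 * C1 ^ 2) * H * VV (ZG m) 0 y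
        ≤ δ / (256 * C1 ^ 2) * H * (128 * C1 ^ 2 * (s / L ^ 2)) := by gcongr
      _ = δ / 2 * (s * H / L ^ 2) := by
          field_simp
          ring
      _ ≤ S.card := by linarith
  have hmain := hcnt H y₁ (by omega) (ZG m) (by
    intro p hp _
    refine ⟨?_, ?_, ?_⟩
    · rw [card_ZG]
      split_ifs <;> omega
    · rw [card_ZG]
      by_cases hp2 : p = 2
      · rw [hp2, if_pos hm2]
        norm_num
      · have := hp.two_le
        split_ifs <;> omega
    · intro c hc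
      unfold ZG at hc
      rw [mem_insert, mem_singleton] at hc
      rcases hc with rfl | rfl
      · exact hp.pos
      · exact Nat.mod_lt _ hp.pos) S (by
    intro p hp
    rw [hS, mem_filter] at hp
    rw [mem_Ioc]
    have := hP p hp.1
    omega) (by
    intro n hn p hp hpx
    rw [hS, mem_filter] at hn
    have hnP := hP n hn.1
    unfold ZG
    rw [mem_insert, mem_singleton]
    rintro (h0 | h0)
    · have h1 := (Nat.prime_dvd_prime_iff_eq hp hnP.2.2.1).1 (Nat.dvd_of_mod_eq_zero h0)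
      rw [h1] at hpx
      linarith [hn.2.1]
    · have h1 : p ∣ m - n := (Nat.modEq_iff_dvd' (by omega)).1 h0
      have h2 := (Nat.prime_dvd_prime_iff_eq hp hnP.2.2.2).1 h1
      rw [h2] at hpx
      linarith [hn.2.2]) hSc D (by
    refine le_trans ?_ hD1
    exact pow_le_pow_left₀ (by linarith) hlH1 _) (by
    refine le_trans ?_ hD2
    gcongr)
  have hD0 : (0 : ℝ) ≤ D := Nat.cast_nonneg D
  refine (mul_le_mul_of_nonneg_right (min_le_left _ _) hD0).trans (hmain.trans ?_)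
  have hsub : (Icc 1 D).filter (fun d => ∀ F ⊆ range k, 0 ∈ F →
        c * H * VV (ZG m) 0 y ^ F.card ≤
          ((S.filter (fun n => ∀ j ∈ F, n + j * d ∈ S)).card : ℝ)) ⊆
      (Icc 1 D).filter (fun d => ∀ F ⊆ range k, 0 ∈ F →
        c' * (H * (s / L ^ 2) ^ F.card) ≤
          ((P.filter (fun p => ∀ j ∈ F, p + j * d ∈ P)).card : ℝ)) := by
    intro d hd
    rw [mem_filter] at hd ⊢
    refine ⟨hd.1, ?_⟩
    intro F hF h0F
    have h1 := hd.2 F hF h0F
    have h2 : ((S.filter (fun n => ∀ j ∈ F, n + j * d ∈ S)).card : ℝ) ≤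
        ((P.filter (fun p => ∀ j ∈ F, p + j * d ∈ P)).card : ℝ) := by
      have : S.filter (fun n => ∀ j ∈ F, n + j * d ∈ S) ⊆
          P.filter (fun p => ∀ j ∈ F, p + j * d ∈ P) := by
        intro n hn
        rw [mem_filter] at hn ⊢
        exact ⟨hSP hn.1, fun j hj => hSP (hn.2 j hj)⟩
      exact_mod_cast card_le_card this
    refine le_trans ?_ (h1.trans h2)
    have hFc : F.card ≤ k := by
      have := card_le_card hF
      rwa [card_range] at this
    have h4 : min 1 (c1 ^ 2) ^ k * (s / L ^ 2) ^ F.card ≤ VV (ZG m) 0 y ^ F.card := by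
      calc min 1 (c1 ^ 2) ^ k * (s / L ^ 2) ^ F.card
          ≤ min 1 (c1 ^ 2) ^ F.card * (s / L ^ 2) ^ F.card := by
            apply mul_le_mul_of_nonneg_right _ (by positivity)
            exact pow_le_pow_of_le_one hm0.le (min_le_left _ _) hFc
        _ ≤ (c1 ^ 2) ^ F.card * (s / L ^ 2) ^ F.card := by
            apply mul_le_mul_of_nonneg_right _ (by positivity)
            exact pow_le_pow_left₀ hm0.le (min_le_right _ _) _
        _ = (c1 ^ 2 * (s / L ^ 2)) ^ F.card := by rw [mul_pow]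
        _ ≤ _ := pow_le_pow_left₀ (by positivity) hVlo _
    calc c' * (H * (s / L ^ 2) ^ F.card) ≤
          (c * min 1 (c1 ^ 2) ^ k) * (H * (s / L ^ 2) ^ F.card) :=
          mul_le_mul_of_nonneg_right (min_le_right _ _) (by positivity)
      _ = c * H * (min 1 (c1 ^ 2) ^ k * (s / L ^ 2) ^ F.card) := by ring
      _ ≤ _ := mul_le_mul_of_nonneg_left h4 (by positivity)
  exact_mod_cast card_le_card hsub

end Pool.Agent.L5helper4.DL
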