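import Pool.Agent.Y882.MG.Lin
import Pool.Agent.Y882.KW.Alm
import Pool.Agent.Y882.KW.Num

/-!
# Almost primes in every short interval

The weighted linear sieve of helper882 for the integers of an interval `(N, N + H]`, `N ≤ H ^ S`.
-/

set_option autoImplicit false

namespace Pool.Agent.L5helper4.DL

open Finset Filter
open Pool.Agent.W23.DC
open Pool.Agent.Y882.PX
open Pool.Agent.Y882.KW
open Pool.Agent.Y882.SI
open Pool.Agent.Y882.MG
open Pool.Agent.Y882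

theorem cnt_dvd (N H d : ℕ) (hd : 0 < d) :
    |((((Icc 1 H).filter (fun j : ℕ => d ∣ N + j)).card : ℕ) : ℝ) - H / d| ≤ 1 := by
  have h1 : ((Icc 1 H).filter (fun j : ℕ => d ∣ N + j)).card = (N + H) / d - N / d := by
    have e1 : ((Icc 1 H).filter (fun j : ℕ => d ∣ N + j)).card =
        ((Ioc N (N + H)).filter (fun n : ℕ => d ∣ n)).card := by
      apply card_bij (fun j _ => N + j)
      · intro j hj
        rw [mem_filter, mem_Icc] at hj
        rw [mem_filter, mem_Ioc]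
        exact ⟨⟨by omega, by omega⟩, hj.2⟩
      · intro a _ b _ h
        omega
      · intro n hn
        rw [mem_filter, mem_Ioc] at hn
        refine ⟨n - N, ?_, by omega⟩
        rw [mem_filter, mem_Icc]
        refine ⟨⟨by omega, by omega⟩, ?_⟩
        rw [Nat.add_sub_cancel' (by omega)]
        exact hn.2
    have e2 : (Ioc 0 (N + H)).filter (fun n : ℕ => d ∣ n) =
        (Ioc 0 N).filter (fun n : ℕ => d ∣ n) ∪ (Ioc N (N + H)).filter (fun n : ℕ => d ∣ n) := by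
      rw [← filter_union, Ioc_union_Ioc_eq_Ioc (Nat.zero_le _) (by omega)]
    have e3 : Disjoint ((Ioc 0 N).filter (fun n : ℕ => d ∣ n))
        ((Ioc N (N + H)).filter (fun n : ℕ => d ∣ n)) := by
      rw [disjoint_left]
      intro a ha hb
      rw [mem_filter, mem_Ioc] at ha hb
      omega
    have e4 := congrArg card e2
    rw [card_union_of_disjoint e3, Nat.Ioc_filter_dvd_card_eq_div, Nat.Ioc_filter_dvd_card_eq_div] at e4
    omega
  rw [h1]
  have hd0 : (0 : ℝ) < d := by exact_mod_cast hd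
  have hmono : N / d ≤ (N + H) / d := Nat.div_le_div_right (by omega)
  rw [Nat.cast_sub hmono]
  have a1 : (((N + H) / d : ℕ) : ℝ) ≤ ((N + H : ℕ) : ℝ) / d := Nat.cast_div_le
  have a2 : ((N / d : ℕ) : ℝ) ≤ (N : ℝ) / d := Nat.cast_div_le
  have a3 : ((N + H : ℕ) : ℝ) / d < (((N + H) / d : ℕ) : ℝ) + 1 := by
    rw [div_lt_iff₀ hd0]
    have := Nat.lt_mul_div_succ (N + H) hd
    have h2 : ((N + H : ℕ) : ℝ) < ((d * ((N + H) / d + 1) : ℕ) : ℝ) := by exact_mod_cast this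
    rw [mul_comm]
    push_cast at h2 ⊢
    exact h2
  have a4 : (N : ℝ) / d < ((N / d : ℕ) : ℝ) + 1 := by
    rw [div_lt_iff₀ hd0]
    have := Nat.lt_mul_div_succ N hd
    have h2 : (N : ℝ) < ((d * (N / d + 1) : ℕ) : ℝ) := by exact_mod_cast this
    rw [mul_comm]
    push_cast at h2 ⊢
    exact h2
  have a5 : ((N + H : ℕ) : ℝ) / d = N / d + H / d := by
    push_cast
    ring
  rw [a5] at a1 a3
  rw [abs_le]
  constructor <;> linarith

open Classical in
/-- **Almost primes in every short interval.** -/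
theorem long (r : ℕ) (S : ℝ) (hS1 : 1 ≤ S) (hSr : 9 / 8 + 25 / 24 * S < r + 1) :
    ∃ δ : ℝ, 0 < δ ∧ ∃ H₀ : ℕ, ∀ H N : ℕ, H₀ ≤ H → (N : ℝ) ≤ (H : ℝ) ^ S →
      δ * (H / Real.log H) ≤ (((Ioc N (N + H)).filter (fun n => n.primeFactorsList.length ≤ r ∧
        ∀ q : ℕ, q.Prime → q ∣ n → (H : ℝ) ^ (6 / 25 : ℝ) ≤ q)).card : ℝ) := by
  obtain ⟨Δ, hΔ⟩ : ∃ Δ : ℝ, Δ = (r + 1 : ℝ) - 9 / 8 - 25 / 24 * S := ⟨_, rfl⟩
  obtain ⟨g, hg⟩ : ∃ g : ℝ, g = (r + 1 : ℝ) - 9 / 8 := ⟨_, rfl⟩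
  have hΔ0 : 0 < Δ := by linarith
  have hg0 : 0 < g := by linarith
  obtain ⟨ρ, hρ0, hρ1, hρ2⟩ : ∃ ρ : ℝ, 0 < ρ ∧ ρ ≤ Δ / (2 * g) ∧ ρ ≤ 1 / 50 :=
    ⟨min (Δ / (2 * g)) (1 / 50), lt_min (by positivity) (by norm_num), min_le_left _ _, min_le_right _ _⟩
  have hρ1' : g * ρ ≤ Δ / 2 := by
    rw [le_div_iff₀ (by positivity)] at hρ1
    linarith
  obtain ⟨τ, hτ⟩ : ∃ τ : ℝ, τ = 1 - ρ := ⟨_, rfl⟩
  obtain ⟨υ, hυ⟩ : ∃ υ : ℝ, υ = 24 / 25 * τ := ⟨_, rfl⟩
  obtain ⟨ζ, hζ⟩ : ∃ ζ : ℝ, ζ = τ / 4 := ⟨_, rfl⟩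
  have hτ0 : 0 < τ := by linarith
  have hυ0 : 0 < υ := by linarith
  have hζ0 : 0 < ζ := by linarith
  have hζυ : ζ ≤ υ := by linarith
  have hυτ : υ < τ := by linarith
  have hυ1 : υ ≤ 1 := by linarith
  have hυ2 : υ < 1 := by linarith
  have hr : 1 / (8 / 9 : ℝ) + (S + Δ / 4) / υ ≤ r + 1 := by
    have : (S + Δ / 4) / υ ≤ g := by
      rw [div_le_iff₀ hυ0, hυ, hτ]
      nlinarith
    norm_num
    linarith
  obtain ⟨δ, ε₁, η, hδ, hε₁, hε₁ζ, hε₁β, hη, Y1, HC⟩ :=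
    core4 1 τ ζ υ (8 / 9) (8 / 9 / υ) (1 - ρ / 2) 1 (ρ / 4) hζ0 (by linarith) (by linarith)
      (by linarith) hζυ hυτ (by norm_num) (by positivity) (by
        rw [div_mul_cancel₀ _ hυ0.ne']) (by
        rw [hζ, hυ]
        exact cond_A τ (8 / 9) hτ0 (by norm_num) (by norm_num)) (by linarith) one_pos (by linarith)
  obtain ⟨Y2, hmer⟩ := mer_lin ε₁ υ η hε₁ hυ1 hη
  obtain ⟨c, hc, hlo⟩ := lo_lin
  have tN : Tendsto (fun N : ℕ => (N : ℝ)) atTop atTop := tendsto_natCast_atTop_atTop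
  have ev1 : ∀ᶠ Y : ℕ in atTop, 5 * Real.log Y ≤ (Y : ℝ) ^ (ρ / 4) := by
    have h1 := (isLittleO_log_rpow_atTop (show 0 < ρ / 4 by linarith)).bound
      (show (0 : ℝ) < 1 / 5 by norm_num)
    filter_upwards [tN.eventually h1, eventually_ge_atTop 1] with Y hY hY1
    have hY1r : (1 : ℝ) ≤ Y := by exact_mod_cast hY1
    rw [Real.norm_of_nonneg (Real.log_nonneg hY1r), Real.norm_of_nonneg (by positivity)] at hY
    linarith
  have ev2 : ∀ᶠ Y : ℕ in atTop, 8 / (δ * c) * Real.log Y ≤ (Y : ℝ) ^ ζ := by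
    have h1 := (isLittleO_log_rpow_atTop hζ0).bound
      (show (0 : ℝ) < (δ * c) / 8 by positivity)
    filter_upwards [tN.eventually h1, eventually_ge_atTop 1] with Y hY hY1
    have hY1r : (1 : ℝ) ≤ Y := by exact_mod_cast hY1
    rw [Real.norm_of_nonneg (Real.log_nonneg hY1r), Real.norm_of_nonneg (by positivity)] at hY
    rw [div_mul_eq_mul_div, div_le_iff₀ (by positivity)]
    linarith
  have ev3 : ∀ᶠ Y : ℕ in atTop, 4 / (δ * c) * Real.log Y ≤ (Y : ℝ) ^ (1 - υ) := by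
    have h1 := (isLittleO_log_rpow_atTop (show 0 < 1 - υ by linarith)).bound
      (show (0 : ℝ) < (δ * c) / 4 by positivity)
    filter_upwards [tN.eventually h1, eventually_ge_atTop 1] with Y hY hY1
    have hY1r : (1 : ℝ) ≤ Y := by exact_mod_cast hY1
    rw [Real.norm_of_nonneg (Real.log_nonneg hY1r), Real.norm_of_nonneg (by positivity)] at hY
    rw [div_mul_eq_mul_div, div_le_iff₀ (by positivity)]
    linarith
  have ev4 : ∀ᶠ Y : ℕ in atTop, (2 : ℝ) ≤ (Y : ℝ) ^ ζ :=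
    ((tendsto_rpow_atTop hζ0).comp tN).eventually_ge_atTop _
  have ev5 : ∀ᶠ Y : ℕ in atTop, (2 : ℝ) ≤ (Y : ℝ) ^ (Δ / 4) :=
    ((tendsto_rpow_atTop (by linarith)).comp tN).eventually_ge_atTop _
  obtain ⟨Y3, hY3⟩ := eventually_atTop.1 (ev1.and (ev2.and (ev3.and (ev4.and (ev5.and
    (eventually_ge_atTop 3))))))
  refine ⟨δ * c / 2, by positivity, max Y1 (max Y2 Y3), ?_⟩
  intro H N hH hN
  obtain ⟨e1, e2, e3, e4, e5, e6⟩ := hY3 H (((le_max_right _ _).trans (le_max_right _ _)).trans hH)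
  have hHY1 : Y1 ≤ H := (le_max_left _ _).trans hH
  have hHY2 : Y2 ≤ H := ((le_max_left _ _).trans (le_max_right _ _)).trans hH
  have hHr : (3 : ℝ) ≤ H := by exact_mod_cast e6
  have hH0 : (0 : ℝ) < H := by linarith
  have hH1 : (1 : ℝ) ≤ H := by linarith
  have hlH : 0 < Real.log H := Real.log_pos (by linarith)
  obtain ⟨w, hwL, hwD, key⟩ := HC H hHY1
  have hPZ : ∀ p ∈ PZ H υ, p.Prime := by
    intro p hp
    unfold PZ at hp
    rw [mem_filter] at hp
    exact hp.2.1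
  have hpos := key (Icc 1 H) (fun j => N + j) (fun p => ro LF 0 p) H (by rw [Real.rpow_one])
    (fun p hp => by rw [ro_lin p hp.pos]) (fun p _ => ro_le_self LF 0 p) (hmer H hHY2) (by
      have hterm : ∀ T ∈ (PZ H υ).powerset, |w T * (((((Icc 1 H).filter
          (fun j => ∏ p ∈ T, p ∣ N + j)).card : ℕ) : ℝ) - ((Icc 1 H).card : ℝ) *
          ∏ p ∈ T, ((ro LF 0 p : ℝ) / p))| ≤
          if ((∏ p ∈ T, p : ℕ) : ℝ) ≤ (H : ℝ) ^ (1 - ρ / 2) then 5 * Real.log H else 0 := by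
        intro T hT
        rw [mem_powerset] at hT
        by_cases hw : w T = 0
        · rw [hw, zero_mul, abs_zero]
          split_ifs
          · positivity
          · exact le_rfl
        · rw [if_pos (hwD T hT hw), abs_mul]
          have h1 : ∏ p ∈ T, ((ro LF 0 p : ℝ) / p) = 1 / ((∏ p ∈ T, p : ℕ) : ℝ) := by
            rw [prod_div_distrib]
            push_cast
            congr 1
            apply prod_eq_one
            intro p hp
            rw [ro_lin p (hPZ p (hT hp)).pos]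
            norm_num
          have h2 := cnt_dvd N H (∏ p ∈ T, p) (prod_pos (fun p hp => (hPZ p (hT hp)).pos))
          rw [h1, Nat.card_Icc, Nat.add_sub_cancel, mul_one_div]
          calc _ ≤ 5 * Real.log H * 1 :=
                mul_le_mul (hwL T) h2 (abs_nonneg _) (by positivity)
            _ = _ := mul_one _
      refine (abs_sum_le_sum_abs _ _).trans ((sum_le_sum hterm).trans ?_)
      rw [← sum_filter, sum_const, nsmul_eq_mul]
      have hcard : ((((PZ H υ).powerset.filter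
          (fun T => ((∏ p ∈ T, p : ℕ) : ℝ) ≤ (H : ℝ) ^ (1 - ρ / 2))).card : ℕ) : ℝ) ≤
          (H : ℝ) ^ (1 - ρ / 2) := by
        have h1 : ((PZ H υ).powerset.filter
            (fun T => ((∏ p ∈ T, p : ℕ) : ℝ) ≤ (H : ℝ) ^ (1 - ρ / 2))).card ≤
            (Icc 1 ⌊(H : ℝ) ^ (1 - ρ / 2)⌋₊).card := by
          apply card_le_card_of_injOn (fun T => ∏ p ∈ T, p)
          · intro T hT
            rw [mem_coe, mem_filter, mem_powerset] at hT
            rw [mem_coe, mem_Icc]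
            exact ⟨prod_pos (fun p hp => (hPZ p (hT.1 hp)).pos), Nat.le_floor hT.2⟩
          · intro T hT T' hT' h
            rw [mem_coe, mem_filter, mem_powerset] at hT hT'
            simp only at h
            rw [← pf_prod T (fun p hp => hPZ p (hT.1 hp)), h,
              pf_prod T' (fun p hp => hPZ p (hT'.1 hp))]
        rw [Nat.card_Icc, Nat.add_sub_cancel] at h1
        calc _ ≤ ((⌊(H : ℝ) ^ (1 - ρ / 2)⌋₊ : ℕ) : ℝ) := by exact_mod_cast h1
          _ ≤ _ := Nat.floor_le (by positivity)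
      calc _ ≤ (H : ℝ) ^ (1 - ρ / 2) * (H : ℝ) ^ (ρ / 4) :=
            mul_le_mul hcard e1 (by positivity) (by positivity)
        _ = ((Icc 1 H).card : ℝ) * (H : ℝ) ^ (-(ρ / 4)) := by
            rw [Nat.card_Icc, Nat.add_sub_cancel, ← Real.rpow_add hH0]
            nth_rewrite 2 [← Real.rpow_one (H : ℝ)]
            rw [← Real.rpow_add hH0]
            congr 1
            ring)
  have hlo1 := hlo H e6
  unfold lo at hlo1
  rw [Nat.card_Icc, Nat.add_sub_cancel] at hpos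
  have hpos1 : δ * c * (H / Real.log H) ≤
      ((((Icc 1 H).filter (fun j => 0 < WW H ζ υ (8 / 9) (8 / 9 / υ) (N + j))).card : ℕ) : ℝ) := by
    refine le_trans ?_ hpos
    calc δ * c * (H / Real.log H) = δ * H * (c / Real.log H) := by ring
      _ ≤ _ := mul_le_mul_of_nonneg_left hlo1 (by positivity)
  have hprm : ∀ q ∈ pr H ζ υ, q.Prime ∧ (H : ℝ) ^ ζ ≤ q ∧ (q : ℝ) ≤ (H : ℝ) ^ υ := by
    intro q hq
    obtain ⟨u1, u2, u3⟩ := pr_mem H q ζ υ (by omega) hq
    exact ⟨u1, u2, u3.le⟩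
  have hbad : ((((Icc 1 H).filter (fun j => ∃ q ∈ pr H ζ υ, q ^ 2 ∣ N + j)).card : ℕ) : ℝ) ≤
      H * (2 / (H : ℝ) ^ ζ) + (H : ℝ) ^ υ := by
    have hsub : (Icc 1 H).filter (fun j => ∃ q ∈ pr H ζ υ, q ^ 2 ∣ N + j) ⊆ (pr H ζ υ).biUnion
        (fun q => (Icc 1 H).filter (fun j : ℕ => q ^ 2 ∣ N + j)) := by
      intro j hj
      rw [mem_filter] at hj
      obtain ⟨hj1, q, hq, hqj⟩ := hj
      rw [mem_biUnion]
      exact ⟨q, hq, by rw [mem_filter]; exact ⟨hj1, hqj⟩⟩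
    calc ((((Icc 1 H).filter (fun j => ∃ q ∈ pr H ζ υ, q ^ 2 ∣ N + j)).card : ℕ) : ℝ) ≤
        ((∑ q ∈ pr H ζ υ, ((Icc 1 H).filter (fun j : ℕ => q ^ 2 ∣ N + j)).card : ℕ) : ℝ) := by
          exact_mod_cast (card_le_card hsub).trans card_biUnion_le
      _ ≤ ∑ q ∈ pr H ζ υ, (H * (1 / (q : ℝ) ^ 2) + 1) := by
          push_cast
          apply sum_le_sum
          intro q hq
          have u := (abs_le.1 (cnt_dvd N H (q ^ 2) (pow_pos (hprm q hq).1.pos 2))).2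
          push_cast at u
          rw [mul_one_div]
          linarith
      _ = H * (∑ q ∈ pr H ζ υ, 1 / (q : ℝ) ^ 2) + (pr H ζ υ).card := by
          rw [sum_add_distrib, ← mul_sum, sum_const, nsmul_eq_mul, mul_one]
      _ ≤ H * (2 / (H : ℝ) ^ ζ) + (H : ℝ) ^ υ := by
          have u1 := tail_sq (pr H ζ υ) ((H : ℝ) ^ ζ) e4 (fun q hq => (hprm q hq).2.1)
          have u2 := card_lt (pr H ζ υ) ((H : ℝ) ^ υ) (by positivity)
            (fun q hq => ⟨(hprm q hq).1.one_le, (hprm q hq).2.2⟩)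
          gcongr
  have hb1 : H * (2 / (H : ℝ) ^ ζ) ≤ δ * c / 4 * (H / Real.log H) := by
    have hz : 0 < (H : ℝ) ^ ζ := by positivity
    rw [div_mul_eq_mul_div, div_le_iff₀ (by positivity)] at e2
    have : 2 / (H : ℝ) ^ ζ ≤ δ * c / 4 / Real.log H := by
      rw [div_le_div_iff₀ hz hlH]
      linarith
    calc H * (2 / (H : ℝ) ^ ζ) ≤ H * (δ * c / 4 / Real.log H) :=
          mul_le_mul_of_nonneg_left this hH0.le
      _ = _ := by ring
  have hb2 : (H : ℝ) ^ υ ≤ δ * c / 4 * (H / Real.log H) := by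
    rw [div_mul_eq_mul_div, div_le_iff₀ (by positivity)] at e3
    rw [mul_div_assoc', le_div_iff₀ hlH]
    have h1 : (H : ℝ) = (H : ℝ) ^ υ * (H : ℝ) ^ (1 - υ) := by
      rw [← Real.rpow_add hH0]
      have : υ + (1 - υ) = 1 := by ring
      rw [this, Real.rpow_one]
    calc (H : ℝ) ^ υ * Real.log H ≤ (H : ℝ) ^ υ * ((H : ℝ) ^ (1 - υ) * (δ * c) / 4) := by
          apply mul_le_mul_of_nonneg_left _ (by positivity)
          linarith
      _ = δ * c / 4 * ((H : ℝ) ^ υ * (H : ℝ) ^ (1 - υ)) := by ring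
      _ = _ := by rw [← h1]
  have hfin : (Icc 1 H).filter (fun j => 0 < WW H ζ υ (8 / 9) (8 / 9 / υ) (N + j)) ⊆
      ((Icc 1 H).filter (fun j => (N + j).primeFactorsList.length ≤ r ∧
        ∀ q : ℕ, q.Prime → q ∣ N + j → (H : ℝ) ^ (6 / 25 : ℝ) ≤ q)) ∪
      (Icc 1 H).filter (fun j => ∃ q ∈ pr H ζ υ, q ^ 2 ∣ N + j) := by
    intro j hj
    rw [mem_filter, mem_Icc] at hj
    rw [mem_union, mem_filter, mem_filter, mem_Icc]
    by_cases hb : ∃ q ∈ pr H ζ υ, q ^ 2 ∣ N + j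
    · exact Or.inr ⟨hj.1, hb⟩
    · left
      refine ⟨hj.1, ?_⟩
      push Not at hb
      have hjr : (j : ℝ) ≤ H := by exact_mod_cast hj.1.2
      have hHS : (H : ℝ) ≤ (H : ℝ) ^ S := by
        nth_rewrite 1 [← Real.rpow_one (H : ℝ)]
        exact Real.rpow_le_rpow_of_exponent_le hH1 hS1
      obtain ⟨v1, v2⟩ := almost H (by omega) ζ υ (8 / 9) (S + Δ / 4) r hζυ hυ0 hυ1 (by norm_num) hr
        (N + j) (by omega) (by
          push_cast
          calc (N : ℝ) + j ≤ (H : ℝ) ^ S + (H : ℝ) ^ S := add_le_add hN (hjr.trans hHS)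
            _ = (H : ℝ) ^ S * 2 := by ring
            _ ≤ (H : ℝ) ^ S * (H : ℝ) ^ (Δ / 4) := mul_le_mul_of_nonneg_left e5 (by positivity)
            _ = _ := (Real.rpow_add hH0 _ _).symm) hj.2 hb
      refine ⟨v1, fun q hq hd => le_trans ?_ (v2 q hq hd)⟩
      apply Real.rpow_le_rpow_of_exponent_le hH1
      rw [hζ, hτ]
      linarith
  have hcard := (card_le_card hfin).trans (card_union_le _ _)
  have hcardr : ((((Icc 1 H).filter (fun j => 0 < WW H ζ υ (8 / 9) (8 / 9 / υ) (N + j))).card : ℕ) : ℝ) ≤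
      ((((Icc 1 H).filter (fun j => (N + j).primeFactorsList.length ≤ r ∧
        ∀ q : ℕ, q.Prime → q ∣ N + j → (H : ℝ) ^ (6 / 25 : ℝ) ≤ q)).card : ℕ) : ℝ) +
      ((((Icc 1 H).filter (fun j => ∃ q ∈ pr H ζ υ, q ^ 2 ∣ N + j)).card : ℕ) : ℝ) := by
    exact_mod_cast hcard
  have hcongr : ((Icc 1 H).filter (fun j => (N + j).primeFactorsList.length ≤ r ∧
        ∀ q : ℕ, q.Prime → q ∣ N + j → (H : ℝ) ^ (6 / 25 : ℝ) ≤ q)).card =
      ((Ioc N (N + H)).filter (fun n => n.primeFactorsList.length ≤ r ∧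
        ∀ q : ℕ, q.Prime → q ∣ n → (H : ℝ) ^ (6 / 25 : ℝ) ≤ q)).card := by
    apply card_bij (fun j _ => N + j)
    · intro j hj
      rw [mem_filter, mem_Icc] at hj
      rw [mem_filter, mem_Ioc]
      exact ⟨⟨by omega, by omega⟩, hj.2⟩
    · intro a _ b _ h
      omega
    · intro n hn
      rw [mem_filter, mem_Ioc] at hn
      refine ⟨n - N, ?_, by omega⟩
      rw [mem_filter, mem_Icc]
      refine ⟨⟨by omega, by omega⟩, ?_⟩
      rw [Nat.add_sub_cancel' (by omega)]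
      exact hn.2
  rw [hcongr] at hcardr
  linarith

end Pool.Agent.L5helper4.DL
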