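import Pool.Agent.L5helper4.DL.Int

/-!
# Almost primes in almost all short intervals

The weighted linear sieve with the large sieve of helper882 for the integers.
-/

set_option autoImplicit false

namespace Pool.Agent.L5helper4.DL

open Finset Filter
open Pool.Agent.W23.DC
open Pool.Agent.Y882.PX
open Pool.Agent.Y882.KW
open Pool.Agent.Y882.SI
open Pool.Agent.Y882.MG
open Pool.Agent.Y882

open Classical in
/-- the integers of `(N, N + H]` with at most `r` prime factors, all of them at least `w` -/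
noncomputable def alm (r : ℕ) (w : ℝ) (N H : ℕ) : Finset ℕ :=
  (Ioc N (N + H)).filter (fun n => n.primeFactorsList.length ≤ r ∧
    ∀ q : ℕ, q.Prime → q ∣ n → w ≤ q)

open Classical in
theorem fewLin (r : ℕ) (τ ζ υ lam S : ℝ) (hζ : 0 < ζ) (h2 : 2 * ζ < τ)
    (h4 : τ ≤ 4 * ζ) (hτ : τ < 1) (hτ2 : 1 / 2 ≤ τ) (hζυ : ζ ≤ υ) (hυτ : υ < τ)
    (hlam : 0 < lam)
    (hJ0 : ∫ x in ζ..υ, (lam - lam / υ * x) / (τ - x) / x < Real.log (τ / ζ - 1) / τ) (hS : 1 < S)
    (hr : 1 / lam + S / υ ≤ r + 1) (h ε : ℝ) (hh : 0 < h) (hh1 : h ≤ τ) (hε : 0 < ε) :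
    ∃ δ : ℝ, 0 < δ ∧ ∃ X0 : ℕ, ∀ X : ℕ, X0 ≤ X →
      (((Icc 1 (2 * X)).filter (fun N => ((alm r ((X : ℝ) ^ ζ) N ⌊(X : ℝ) ^ h⌋₊).card : ℝ) <
        δ * (X : ℝ) ^ h / Real.log X)).card : ℝ) ≤
      (X : ℝ) ^ (2 * τ - h + ε) := by
  have hυ0 : 0 < υ := by linarith
  have hυ1 : υ ≤ 1 := by linarith
  obtain ⟨c, hc, HL⟩ := lo_lin
  obtain ⟨δ, ε₁, η, hδ, hε₁, hε₁ζ, hη, Y1, HE⟩ := engS 1 τ ζ υ lam (lam / υ) (ε / 2) c
    hζ h2 h4 hτ hζυ hυτ hlam.le (by positivity) (by rw [div_mul_cancel₀ _ hυ0.ne']) hJ0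
    (by linarith) hc
  obtain ⟨Y2, HM⟩ := mer_lin ε₁ υ η hε₁ hυ1 hη
  have ev1 : ∀ᶠ Y : ℕ in atTop, (6 : ℝ) ≤ (Y : ℝ) ^ (ε / 2) :=
    ((tendsto_rpow_atTop (by linarith)).comp tendsto_natCast_atTop_atTop).eventually_ge_atTop _
  have ev2 : ∀ᶠ Y : ℕ in atTop, (2 : ℝ) ≤ (Y : ℝ) ^ h :=
    ((tendsto_rpow_atTop hh).comp tendsto_natCast_atTop_atTop).eventually_ge_atTop _
  have ev4 : ∀ᶠ Y : ℕ in atTop, (3 : ℝ) ≤ (Y : ℝ) ^ (S - 1) :=
    ((tendsto_rpow_atTop (by linarith)).comp tendsto_natCast_atTop_atTop).eventually_ge_atTop _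
  obtain ⟨Y4, hY4⟩ := eventually_atTop.1
    (ev1.and (ev2.and (ev4.and (eventually_ge_atTop 3))))
  refine ⟨δ / 2, by positivity, max (max Y1 Y2) Y4, ?_⟩
  intro X hX
  obtain ⟨e1, e2, e4, e5⟩ := hY4 X ((le_max_right _ _).trans hX)
  have hX1 : Y1 ≤ X := ((le_max_left _ _).trans (le_max_left _ _)).trans hX
  have hX2 : Y2 ≤ X := ((le_max_right _ _).trans (le_max_left _ _)).trans hX
  have hXr : (3 : ℝ) ≤ X := by exact_mod_cast e5
  have hX0 : (0 : ℝ) < X := by linarith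
  have hX1r : (1 : ℝ) ≤ X := by linarith
  have hlX : 0 < Real.log X := Real.log_pos (by linarith)
  set H : ℕ := ⌊(X : ℝ) ^ h⌋₊ with hH
  have hHle : (H : ℝ) ≤ (X : ℝ) ^ h := Nat.floor_le (by positivity)
  have hHge : (X : ℝ) ^ h / 2 ≤ H := by
    have := Nat.lt_floor_add_one ((X : ℝ) ^ h)
    rw [← hH] at this
    linarith
  have hH1 : 1 ≤ H := by
    rw [hH]
    exact Nat.le_floor (by push_cast; linarith)
  have hHr : (0 : ℝ) < H := by exact_mod_cast hH1
  have hHX : (H : ℝ) ≤ X := by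
    refine hHle.trans ?_
    calc (X : ℝ) ^ h ≤ (X : ℝ) ^ (1 : ℝ) := Real.rpow_le_rpow_of_exponent_le hX1r (by linarith)
      _ = X := Real.rpow_one _
  have hHXn : H ≤ X := by exact_mod_cast hHX
  have hA := HE X hX1 LF (2 * X) H (fun p hp => by rw [ro_lin p hp.pos]) (by
      intro q hq _ N H'
      exact sq_lin q hq N H') (by omega)
    (by
      refine hHle.trans (Real.rpow_le_rpow_of_exponent_le hX1r ?_)
      linarith) (HL X e5) (HM X hX2)
  have hsub : (Icc 1 (2 * X)).filter (fun N => ((alm r ((X : ℝ) ^ ζ) N H).card : ℝ) <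
        δ / 2 * (X : ℝ) ^ h / Real.log X) ⊆
      (Icc 1 (2 * X)).filter (fun N => ((posS LF X ζ υ lam (lam / υ) H N).card : ℝ) <
          δ * H / Real.log X) := by
    intro N hN
    rw [mem_filter] at hN ⊢
    refine ⟨hN.1, ?_⟩
    have hNX : N ≤ 2 * X := (mem_Icc.1 hN.1).2
    have g3 : (posS LF X ζ υ lam (lam / υ) H N).card ≤ (alm r ((X : ℝ) ^ ζ) N H).card := by
      apply card_le_card_of_injOn (fun j => N + j)
      · intro j hj
        show N + j ∈ _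
        unfold posS pos at hj
        rw [mem_coe, mem_filter, mem_filter, mem_Icc] at hj
        obtain ⟨⟨⟨hj3, hj4⟩, hj5⟩, hj6⟩ := hj
        rw [LF_eval, Int.natAbs_natCast] at hj5
        unfold alm
        rw [mem_coe, mem_filter, mem_Ioc]
        refine ⟨⟨by omega, by omega⟩, ?_⟩
        have hsize : ((N + j : ℕ) : ℝ) ≤ (X : ℝ) ^ S := by
          have u2 : (((N + j : ℕ) : ℝ)) ≤ 3 * X := by
            have : N + j ≤ 3 * X := by omega
            exact_mod_cast this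
          calc (((N + j : ℕ) : ℝ)) ≤ 3 * X := u2
            _ ≤ (X : ℝ) ^ (S - 1) * (X : ℝ) ^ (1 : ℝ) := by
                rw [Real.rpow_one]
                exact mul_le_mul_of_nonneg_right e4 hX0.le
            _ = (X : ℝ) ^ S := by
                rw [← Real.rpow_add hX0]
                congr 1
                ring
        exact almost X (by omega) ζ υ lam S r hζυ hυ0 hυ1 hlam hr
          (N + j) (by omega) hsize hj5 (by
            intro q hq hqd
            apply hj6 q hq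
            rw [LF_eval]
            exact Int.natCast_dvd_natCast.2 hqd)
      · intro x _ y _ hxy
        simpa using hxy
    have g3r : ((posS LF X ζ υ lam (lam / υ) H N).card : ℝ) ≤
        ((alm r ((X : ℝ) ^ ζ) N H).card : ℝ) := by exact_mod_cast g3
    refine g3r.trans_lt (hN.2.trans_le ?_)
    apply div_le_div_of_nonneg_right _ hlX.le
    calc δ / 2 * (X : ℝ) ^ h = δ * ((X : ℝ) ^ h / 2) := by ring
      _ ≤ δ * H := mul_le_mul_of_nonneg_left hHge hδ.le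
  have hXh0 : (0 : ℝ) < (X : ℝ) ^ h := by positivity
  calc (((Icc 1 (2 * X)).filter (fun N => ((alm r ((X : ℝ) ^ ζ) N H).card : ℝ) <
        δ / 2 * (X : ℝ) ^ h / Real.log X)).card : ℝ) ≤ _ := by exact_mod_cast card_le_card hsub
    _ ≤ (((2 * X : ℕ) : ℝ) + (X : ℝ) ^ (2 * τ)) / H * (X : ℝ) ^ (ε / 2) := hA
    _ ≤ (3 * (X : ℝ) ^ (2 * τ)) / ((X : ℝ) ^ h / 2) * (X : ℝ) ^ (ε / 2) := by
        have u1 : (X : ℝ) ≤ (X : ℝ) ^ (2 * τ) := by
          calc (X : ℝ) = (X : ℝ) ^ (1 : ℝ) := (Real.rpow_one _).symm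
            _ ≤ _ := Real.rpow_le_rpow_of_exponent_le hX1r (by linarith)
        apply mul_le_mul_of_nonneg_right _ (by positivity)
        apply div_le_div₀ (by positivity) (by push_cast; linarith) (by positivity) hHge
    _ = 6 * ((X : ℝ) ^ (2 * τ) / (X : ℝ) ^ h) * (X : ℝ) ^ (ε / 2) := by
        field_simp
        norm_num
    _ ≤ (X : ℝ) ^ (ε / 2) * ((X : ℝ) ^ (2 * τ) / (X : ℝ) ^ h) * (X : ℝ) ^ (ε / 2) := by
        gcongr
    _ = _ := by
        rw [← Real.rpow_sub hX0, ← Real.rpow_add hX0, ← Real.rpow_add hX0]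
        congr 1
        ring

end Pool.Agent.L5helper4.DL
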