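import Pool.Agent.L5helper4.DL.Repl

/-!
# The extended linear forms condition in most windows
-/

set_option autoImplicit false

open Finset

namespace Pool.Agent.L5helper4.DL

open Pool.Agent.H602R3.DHJ (av av_prod av_const av_mono av_nonneg av_add av_sub av_mul av_sum)
open Pool.Agent.Y727.PSP
open Pool.Agent.Y843.HS

variable {k N : ℕ}

/-- the form `t.1` at the choice `t.2` of the components, as a homomorphism -/
def frE (t : Option (Fin k) × Finset (Option (Fin k))) :
    (Option (Fin k) → ZMod N × ZMod N) →+ ZMod N where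
  toFun y := Le t.1 (sl t.2 y)
  map_zero' := by
    unfold Le sl
    simp
  map_add' y y' := by
    unfold Le
    rw [← sum_add_distrib]
    apply sum_congr rfl
    intro i _
    unfold sl
    split_ifs
    · simp only [Pi.add_apply, Prod.snd_add, mul_add]
    · simp only [Pi.add_apply, Prod.fst_add, mul_add]

theorem frE_single (t : Option (Fin k) × Finset (Option (Fin k))) (i : Option (Fin k))
    (a : ZMod N × ZMod N) :
    frE t (Pi.single i a) = cf t.1 i * (if i ∈ t.2 then a.2 else a.1) := by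
  show Le t.1 (sl t.2 (Pi.single i a)) = _
  unfold Le
  rw [sum_eq_single i]
  · unfold sl
    rw [Pi.single_eq_same]
  · intro b _ hb
    unfold sl
    rw [Pi.single_eq_of_ne hb]
    simp
  · intro h
    exact absurd (mem_univ _) h

theorem frE_sep [Fact N.Prime] (hkN : k ≤ N) (t t' : Option (Fin k) × Finset (Option (Fin k)))
    (ha : t.1 ≠ none) (ha' : t'.1 ≠ none)
    (ht : t.1 ∉ t.2) (ht' : t'.1 ∉ t'.2) (h : t ≠ t') :
    ∃ v : Option (Fin k) → ZMod N × ZMod N, frE t v ≠ frE t' v := by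
  obtain ⟨⟨j, hj⟩⟩ : Nonempty {j : Fin k // t.1 = some j} :=
    let ⟨j, hj⟩ := Option.ne_none_iff_exists'.1 ha
    ⟨⟨j, hj⟩⟩
  obtain ⟨⟨j', hj'⟩⟩ : Nonempty {j : Fin k // t'.1 = some j} :=
    let ⟨j, hj⟩ := Option.ne_none_iff_exists'.1 ha'
    ⟨⟨j, hj⟩⟩
  by_cases h1 : t.1 = t'.1
  · have h2 : t.2 ≠ t'.2 := fun h' => h (Prod.ext h1 h')
    have h3 : ∃ i, (i ∈ t.2 ∧ i ∉ t'.2) ∨ (i ∉ t.2 ∧ i ∈ t'.2) := by
      by_contra hc
      push Not at hc
      apply h2
      ext i
      have := hc i
      constructor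
      · intro hi
        exact this.1 hi
      · intro hi
        by_contra hi'
        exact this.2 hi' hi
    obtain ⟨i, hi⟩ := h3
    refine ⟨Pi.single i (0, 1), ?_⟩
    rw [frE_single, frE_single]
    rcases hi with ⟨hi, hi'⟩ | ⟨hi, hi'⟩
    · rw [if_pos hi, if_neg hi', mul_one, mul_zero, hj]
      exact cf_ne hkN (fun h => ht (by rw [hj, ← h]; exact hi))
    · rw [if_neg hi, if_pos hi', mul_one, mul_zero, hj']
      exact (cf_ne hkN (fun h => ht' (by rw [hj', ← h]; exact hi'))).symm
  · refine ⟨Pi.single t.1 (1, 1), ?_⟩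
    rw [frE_single, frE_single]
    simp only [ite_self, mul_one]
    rw [cf_self, hj']
    exact (cf_ne hkN (fun h => h1 (by rw [hj', h]))).symm

theorem frE_ne [Fact N.Prime] (hkN : k ≤ N) (t : Option (Fin k) × Finset (Option (Fin k)))
    (ha : t.1 ≠ none) : ∃ v : Option (Fin k) → ZMod N × ZMod N, frE t v ≠ 0 := by
  obtain ⟨j, hj⟩ := Option.ne_none_iff_exists'.1 ha
  refine ⟨Pi.single none (1, 1), ?_⟩
  rw [frE_single, hj]
  simp only [ite_self, mul_one]
  exact cf_ne hkN (by simp)

open Classical in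
/-- (LFE) the extended linear forms condition in most windows -/
theorem lfe {ν : ℕ → ℝ} {M : ℕ} {η E : ℝ} {A X N : ℕ} [NeZero N]
    [Fact N.Prime] (hkN : k ≤ N) (h : Cor ν M E A X N)
    (hX : 1 ≤ X) (hM : 2 * ((k + 1) * 2 ^ (k + 1)) ≤ M) (hη : 0 < η)
    (h2 : 2 ^ ((k + 1) * 2 ^ (k + 1)) * (3 * E) ≤ η ^ 3) :
    (((Ioc A (A + X)).filter (fun x => ¬ LFe k N (nuX ν N x) η)).card : ℝ) ≤ η * X := by
  have hX' : (0 : ℝ) < X := by exact_mod_cast hX
  set m := (k + 1) * 2 ^ (k + 1) with hm
  have hcardP : Fintype.card (Option (Fin k) × Finset (Option (Fin k))) = m := by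
    rw [Fintype.card_prod, Fintype.card_finset, Fintype.card_option, Fintype.card_fin]
  set TT : Finset (Finset (Option (Fin k) × Finset (Option (Fin k)))) :=
    univ.filter (fun T => ∀ t ∈ T, t.1 ∉ t.2) with hTT
  set bad : Finset (Option (Fin k) × Finset (Option (Fin k))) → Finset ℕ := fun T =>
    (Ioc A (A + X)).filter (fun x => η < |av (fun y : Option (Fin k) → ZMod N × ZMod N =>
      ∏ t ∈ T, nue (nuX ν N x) t.1 (sl t.2 y)) - 1|) with hbad
  have hsub : (Ioc A (A + X)).filter (fun x => ¬ LFe k N (nuX ν N x) η) ⊆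
      TT.biUnion bad := by
    intro x hx
    rw [mem_filter] at hx
    have h3 := hx.2
    unfold LFe LF at h3
    push Not at h3
    obtain ⟨T, hT, h4⟩ := h3
    rw [mem_biUnion]
    refine ⟨T, by rw [hTT, mem_filter]; exact ⟨mem_univ _, hT⟩, ?_⟩
    rw [hbad, mem_filter]
    refine ⟨hx.1, ?_⟩
    convert h4
  have hone : ∀ T ∈ TT, ((bad T).card : ℝ) * 2 ^ m ≤ η * X := by
    intro T hT
    rw [hTT, mem_filter] at hT
    set T' := T.filter (fun t => t.1 ≠ none) with hT'
    have hcT : Fintype.card T' ≤ m := by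
      rw [Fintype.card_coe, ← hcardP]
      exact card_le_univ _
    have h3 := lemC h hX (I := T') (by omega)
      (fun t => (frE (t : Option (Fin k) × Finset (Option (Fin k))) :
        (Option (Fin k) → ZMod N × ZMod N) →+ ZMod N))
      (fun t t' htt => frE_sep hkN t t' (mem_filter.1 t.2).2 (mem_filter.1 t'.2).2
        (hT.2 t (mem_filter.1 t.2).1) (hT.2 t' (mem_filter.1 t'.2).1)
        (fun h => htt (Subtype.ext h)))
      (fun t => frE_ne hkN t (mem_filter.1 t.2).2)
    have h4 : ∀ x, av (fun y : Option (Fin k) → ZMod N × ZMod N => ∏ t : T', nuX ν N x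
        (frE (t : Option (Fin k) × Finset (Option (Fin k))) y)) =
        av (fun y : Option (Fin k) → ZMod N × ZMod N =>
          ∏ t ∈ T, nue (nuX ν N x) t.1 (sl t.2 y)) := by
      intro x
      congr 1
      funext y
      rw [prod_coe_sort T' (fun t => nuX ν N x (frE t y)), hT', prod_filter]
      apply prod_congr rfl
      intro t _
      unfold nue
      by_cases ht : t.1 = none
      · rw [if_neg (not_not.2 ht), if_pos ht]
      · rw [if_pos ht, if_neg ht]
        rfl
    simp_rw [h4] at h3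
    have h5 : ((bad T).card : ℝ) * η ^ 2 ≤ 3 * E * X := by
      refine le_trans ?_ h3
      calc ((bad T).card : ℝ) * η ^ 2 = ∑ x ∈ bad T, η ^ 2 := by
            rw [sum_const, nsmul_eq_mul]
        _ ≤ ∑ x ∈ bad T, (av (fun y : Option (Fin k) → ZMod N × ZMod N =>
          ∏ t ∈ T, nue (nuX ν N x) t.1 (sl t.2 y)) - 1) ^ 2 := by
            apply sum_le_sum
            intro x hx
            rw [hbad, mem_filter] at hx
            rw [← sq_abs (av _ - 1)]
            exact pow_le_pow_left₀ hη.le hx.2.le 2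
        _ ≤ _ := sum_le_sum_of_subset_of_nonneg (filter_subset _ _)
            (fun x _ _ => sq_nonneg _)
    have h6 : ((bad T).card : ℝ) * 2 ^ m * η ^ 2 ≤ η * X * η ^ 2 := by
      calc ((bad T).card : ℝ) * 2 ^ m * η ^ 2
          = 2 ^ m * (((bad T).card : ℝ) * η ^ 2) := by ring
        _ ≤ 2 ^ m * (3 * E * X) :=
            mul_le_mul_of_nonneg_left h5 (by positivity)
        _ = (2 ^ m * (3 * E)) * X := by ring
        _ ≤ η ^ 3 * X := mul_le_mul_of_nonneg_right h2 hX'.le
        _ = η * X * η ^ 2 := by ring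
    exact le_of_mul_le_mul_right h6 (by positivity)
  have hTTc : TT.card ≤ 2 ^ m := by
    refine (card_le_univ _).trans (le_of_eq ?_)
    rw [Fintype.card_finset, hcardP]
  have h7 : (((Ioc A (A + X)).filter (fun x => ¬ LFe k N (nuX ν N x) η)).card : ℝ) ≤
      ∑ T ∈ TT, ((bad T).card : ℝ) := by
    have := (card_le_card hsub).trans card_biUnion_le
    exact_mod_cast this
  have h8 : (∑ T ∈ TT, ((bad T).card : ℝ)) * 2 ^ m ≤ η * X * 2 ^ m := by
    rw [sum_mul]
    calc ∑ T ∈ TT, ((bad T).card : ℝ) * 2 ^ m ≤ ∑ T ∈ TT, η * X := sum_le_sum hone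
      _ = TT.card * (η * X) := by rw [sum_const, nsmul_eq_mul]
      _ ≤ 2 ^ m * (η * X) := by
          apply mul_le_mul_of_nonneg_right _ (by positivity)
          exact_mod_cast hTTc
      _ = η * X * 2 ^ m := by ring
  exact h7.trans (le_of_mul_le_mul_right h8 (by positivity))

end Pool.Agent.L5helper4.DL
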