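import Pool.Agent.L5helper4.DL.Top
import Pool.Agent.W182.PW.Main

/-!
# Primes with almost prime values of polynomials: the differences `d` for which all parts of
# `0, d, …, (k - 1) d` occur often
-/

set_option autoImplicit false

namespace Pool.Agent.L5helper4.DL

open Polynomial Finset Filter Topology
open Pool.Agent.Y843.HS (Pr VV)
open Pool.Agent.W182.PW Pool.Agent.W123.RP Pool.Agent.H373R2.T7 Pool.Agent.W123.RU
  Pool.Agent.W123.RU.Poly

open Classical in
/-- the classes modulo `p` with `p ∣ f i (n)` for some `i` -/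
noncomputable def ZQ {ι : Type} (f : ι → ℤ[X]) (p : ℕ) : Finset ℕ :=
  (range p).filter (fun c => Q f p c)

theorem VV_ZQ {ι : Type} (f : ι → ℤ[X]) (y : ℕ) : VV (ZQ f) 0 y = Vq (Q f) y := by
  unfold VV Vq Pr
  have : Ioc 0 y = Icc 1 y := by ext n; rw [mem_Icc, mem_Ioc]; omega
  rw [this]
  rfl

theorem floor_rpow {κ : ℝ} (hκ : 0 < κ) : ∀ᶠ X : ℕ in atTop,
    3 ≤ ⌊(X : ℝ) ^ κ⌋₊ ∧ κ / 2 * Real.log X ≤ Real.log (⌊(X : ℝ) ^ κ⌋₊ : ℕ) ∧
      Real.log (⌊(X : ℝ) ^ κ⌋₊ : ℕ) ≤ κ * Real.log X := by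
  have tN : Tendsto (fun N : ℕ => (N : ℝ)) atTop atTop := tendsto_natCast_atTop_atTop
  have t1 : Tendsto (fun N : ℕ => (N : ℝ) ^ (κ / 2)) atTop atTop :=
    (tendsto_rpow_atTop (by positivity)).comp tN
  filter_upwards [t1.eventually_ge_atTop 3, eventually_ge_atTop 1] with X h1 hX1
  have hX0 : (0 : ℝ) < X := by exact_mod_cast hX1
  set u : ℝ := (X : ℝ) ^ (κ / 2) with hu
  have e : (X : ℝ) ^ κ = u * u := by
    rw [hu, ← Real.rpow_add hX0]; congr 1; ring
  have h3 : u ≤ (⌊(X : ℝ) ^ κ⌋₊ : ℝ) := by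
    have := Nat.lt_floor_add_one ((X : ℝ) ^ κ)
    rw [e] at this ⊢
    nlinarith
  have h4 : (⌊(X : ℝ) ^ κ⌋₊ : ℝ) ≤ (X : ℝ) ^ κ := Nat.floor_le (by positivity)
  refine ⟨?_, ?_, ?_⟩
  · exact_mod_cast h1.trans h3
  · calc κ / 2 * Real.log X = Real.log u := by rw [hu, Real.log_rpow hX0]
      _ ≤ _ := Real.log_le_log (by linarith) h3
  · calc Real.log (⌊(X : ℝ) ^ κ⌋₊ : ℕ) ≤ Real.log ((X : ℝ) ^ κ) :=
          Real.log_le_log (by linarith) h4
      _ = κ * Real.log X := Real.log_rpow hX0 κ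

open Classical in
/-- **Dense sets of primes with almost prime values.** -/
theorem polyDense {ι : Type} [Fintype ι] (f : ι → ℤ[X]) (hg : Sys (ext f)) (k : ℕ) (κ δ : ℝ)
    (hκ : 0 < κ) (hκ1 : κ < 1) (hδ : 0 < δ) :
    ∃ (B : ℕ) (c : ℝ), 0 < c ∧ ∀ᶠ x : ℕ in atTop, ∀ P : Finset ℕ,
      (∀ n ∈ P, n ≤ x ∧ n.Prime ∧ ∀ i, ∀ p : ℕ, p.Prime → (p : ℤ) ∣ (f i).eval (n : ℤ) →
        (x : ℝ) ^ κ < p) →
      δ * (x / Real.log x ^ (Fintype.card ι + 1)) ≤ P.card →
      ∀ D : ℕ, Real.log x ^ B ≤ D → D * Real.log x ^ B ≤ x →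
      c * D ≤ (((Icc 1 D).filter (fun d => ∀ F ⊆ range k, 0 ∈ F →
        c * (x / Real.log x ^ ((Fintype.card ι + 1) * F.card)) ≤
          ((P.filter (fun p => ∀ j ∈ F, p + j * d ∈ P)).card : ℝ))).card : ℝ) := by
  obtain ⟨m, hm⟩ : ∃ m, m = Fintype.card ι + 1 := ⟨_, rfl⟩
  rw [← hm]
  obtain ⟨c₀, hc₀, hQ⟩ := exists_c (ext f) hg
  obtain ⟨v, Cv, hv, hCv, hV⟩ := V_bounds (ext f) hg
  rw [Fintype.card_option, ← hm] at hV
  obtain ⟨B, X₀, c, hc, hcnt⟩ := cnt k c₀ κ (δ / 2 * (κ / 2) ^ m / Cv) hκ (by positivity)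
  set c' := min c (c * min 1 v ^ k) with hc'
  have hm0 : 0 < min 1 v := lt_min one_pos hv
  have hc'0 : 0 < c' := lt_min hc (by positivity)
  refine ⟨B, c', hc'0, ?_⟩
  have tN : Tendsto (fun N : ℕ => (N : ℝ)) atTop atTop := tendsto_natCast_atTop_atTop
  -- `x ^ κ (log x) ^ m ≤ δ / 2 x`
  have hsq : ∀ᶠ x : ℕ in atTop, (x : ℝ) ^ κ * Real.log x ^ m ≤ δ / 2 * x := by
    have h1 := (isLittleO_log_rpow_rpow_atTop (m : ℝ) (show (0 : ℝ) < 1 - κ by linarith)).bound
      (show 0 < δ / 2 by positivity)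
    filter_upwards [tN.eventually h1, eventually_ge_atTop 1] with x hx hx1
    have hx0 : (0 : ℝ) < x := by exact_mod_cast hx1
    have hl : 0 ≤ Real.log x := Real.log_nonneg (by exact_mod_cast hx1)
    rw [Real.norm_of_nonneg (by positivity), Real.norm_of_nonneg (by positivity),
      Real.rpow_natCast] at hx
    calc (x : ℝ) ^ κ * Real.log x ^ m ≤ (x : ℝ) ^ κ *
          (δ / 2 * (x : ℝ) ^ (1 - κ)) := mul_le_mul_of_nonneg_left hx (by positivity)
      _ = δ / 2 * ((x : ℝ) ^ κ * (x : ℝ) ^ (1 - κ)) := by ring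
      _ = δ / 2 * x := by
          rw [← Real.rpow_add hx0]
          norm_num
  have hlog1 : ∀ᶠ x : ℕ in atTop, 1 ≤ Real.log x :=
    (Real.tendsto_log_atTop.comp tN).eventually_ge_atTop 1
  filter_upwards [floor_rpow hκ, hsq, eventually_ge_atTop X₀, eventually_ge_atTop 2, hlog1] with x
    hfl hsqx hxX hx2 hlx
  intro P hP hPc D hD1 hD2
  obtain ⟨hy3, hly2, hly1⟩ := hfl
  have hx0 : (0 : ℝ) < x := by exact_mod_cast (show 0 < x by omega)
  have hlog : 0 < Real.log x := by linarith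
  set y := ⌊(x : ℝ) ^ κ⌋₊ with hy
  have hyle : (y : ℝ) ≤ (x : ℝ) ^ κ := Nat.floor_le (by positivity)
  have hylog : 0 < Real.log y := Real.log_pos (by exact_mod_cast (by omega : 1 < y))
  obtain ⟨hVlo, hVhi⟩ := hV y hy3
  rw [← VV_ZQ] at hVlo hVhi
  have hly3 : Real.log y ≤ Real.log x := hly1.trans (mul_le_of_le_one_left hlog.le hκ1.le)
  set S := P.filter (fun p : ℕ => (x : ℝ) ^ κ < (p : ℝ)) with hS
  have hSP : S ⊆ P := filter_subset _ _
  have hSc : δ / 2 * (κ / 2) ^ m / Cv * x * VV (ZQ (ext f)) 0 y ≤ S.card := by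
    have h1 : (P.card : ℝ) ≤ S.card + (x : ℝ) ^ κ := by
      have h2 : P.card = S.card + (P.filter (fun p : ℕ => ¬ (x : ℝ) ^ κ < (p : ℝ))).card :=
        (card_filter_add_card_filter_not _).symm
      have h3 : (P.filter (fun p : ℕ => ¬ (x : ℝ) ^ κ < (p : ℝ))).card ≤ y := by
        have h5 : P.filter (fun p : ℕ => ¬ (x : ℝ) ^ κ < (p : ℝ)) ⊆ Icc 1 y := by
          intro p hp
          rw [mem_filter] at hp
          rw [mem_Icc]
          refine ⟨(hP p hp.1).2.1.one_le, ?_⟩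
          apply Nat.le_floor
          exact not_lt.1 hp.2
        have := card_le_card h5
        rwa [Nat.card_Icc, Nat.add_sub_cancel] at this
      have h6 : (P.card : ℝ) = S.card + (P.filter (fun p : ℕ => ¬ (x : ℝ) ^ κ < (p : ℝ))).card := by
        exact_mod_cast h2
      have h7 : ((P.filter (fun p : ℕ => ¬ (x : ℝ) ^ κ < (p : ℝ))).card : ℝ) ≤ y := by
        exact_mod_cast h3
      linarith
    have h2 : (x : ℝ) ^ κ ≤ δ / 2 * (x / Real.log x ^ m) := by
      rw [← mul_div_assoc, le_div_iff₀ (by positivity)]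
      exact hsqx
    have h3 : δ / 2 * (x / Real.log x ^ m) ≤ S.card := by linarith
    refine le_trans ?_ h3
    calc δ / 2 * (κ / 2) ^ m / Cv * x * VV (ZQ (ext f)) 0 y
        ≤ δ / 2 * (κ / 2) ^ m / Cv * x * (Cv / Real.log y ^ m) :=
          mul_le_mul_of_nonneg_left hVhi (by positivity)
      _ = δ / 2 * x * ((κ / 2) ^ m / Real.log y ^ m) := by field_simp
      _ ≤ δ / 2 * x * ((κ / 2) ^ m / (κ / 2 * Real.log x) ^ m) := by
          apply mul_le_mul_of_nonneg_left _ (by positivity)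
          apply div_le_div_of_nonneg_left (by positivity) (by positivity)
          exact pow_le_pow_left₀ (by positivity) hly2 _
      _ = δ / 2 * (x / Real.log x ^ m) := by
          rw [mul_pow]
          field_simp
  have hmain := hcnt x 0 hxX (ZQ (ext f)) (by
    intro p hp _
    refine ⟨?_, ?_, ?_⟩
    · have := hQ.few p hp
      unfold nuB at this
      exact this
    · obtain ⟨a, ha⟩ := hg.adm p hp
      have h1 : ZQ (ext f) p ⊂ range p := by
        rw [ssubset_iff_subset_ne]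
        refine ⟨filter_subset _ _, ?_⟩
        intro h2
        have h3 : a % p ∈ ZQ (ext f) p := by
          rw [h2, mem_range]
          exact Nat.mod_lt _ hp.pos
        unfold ZQ at h3
        rw [mem_filter] at h3
        obtain ⟨i, hi⟩ := (hQ.per p a).2 h3.2
        exact ha i hi
      have h2 := card_lt_card h1
      rwa [card_range] at h2
    · intro c hc
      unfold ZQ at hc
      rw [mem_filter, mem_range] at hc
      exact hc.1) S (by
    intro p hp
    rw [hS, mem_filter] at hp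
    rw [mem_Ioc]
    have := hP p hp.1
    exact ⟨this.2.1.pos, by omega⟩) (by
    intro n hn p hp hpx
    rw [hS, mem_filter] at hn
    unfold ZQ
    rw [mem_filter]
    rintro ⟨_, h0⟩
    rw [← hQ.per p n, Q_ext] at h0
    rcases h0 with h0 | ⟨i, hi⟩
    · have h1 := (Nat.prime_dvd_prime_iff_eq hp (hP n hn.1).2.1).1 h0
      rw [h1] at hpx
      linarith [hn.2]
    · have := (hP n hn.1).2.2 i p hp hi
      linarith) hSc D hD1 hD2
  have hD0 : (0 : ℝ) ≤ D := Nat.cast_nonneg D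
  refine (mul_le_mul_of_nonneg_right (min_le_left _ _) hD0).trans (hmain.trans ?_)
  have hsub : (Icc 1 D).filter (fun d => ∀ F ⊆ range k, 0 ∈ F →
        c * x * VV (ZQ (ext f)) 0 y ^ F.card ≤
          ((S.filter (fun n => ∀ j ∈ F, n + j * d ∈ S)).card : ℝ)) ⊆
      (Icc 1 D).filter (fun d => ∀ F ⊆ range k, 0 ∈ F →
        c' * (x / Real.log x ^ (m * F.card)) ≤
          ((P.filter (fun p => ∀ j ∈ F, p + j * d ∈ P)).card : ℝ)) := by
    intro d hd
    rw [mem_filter] at hd ⊢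
    refine ⟨hd.1, ?_⟩
    intro F hF h0F
    have h1 := hd.2 F hF h0F
    have h2 : ((S.filter (fun n => ∀ j ∈ F, n + j * d ∈ S)).card : ℝ) ≤
        ((P.filter (fun p => ∀ j ∈ F, p + j * d ∈ P)).card : ℝ) := by
      have : S.filter (fun n => ∀ j ∈ F, n + j * d ∈ S) ⊆
          P.filter (fun p => ∀ j ∈ F, p + j * d ∈ P) := by
        intro n hn
        rw [mem_filter] at hn ⊢
        exact ⟨hSP hn.1, fun j hj => hSP (hn.2 j hj)⟩
      exact_mod_cast card_le_card this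
    refine le_trans ?_ (h1.trans h2)
    have hFc : F.card ≤ k := by
      have := card_le_card hF
      rwa [card_range] at this
    have h3 : v / Real.log x ^ m ≤ VV (ZQ (ext f)) 0 y := by
      refine le_trans ?_ hVlo
      apply div_le_div_of_nonneg_left hv.le (by positivity)
      exact pow_le_pow_left₀ hylog.le hly3 _
    have h4 : min 1 v ^ k / Real.log x ^ (m * F.card) ≤ VV (ZQ (ext f)) 0 y ^ F.card := by
      calc min 1 v ^ k / Real.log x ^ (m * F.card)
          ≤ min 1 v ^ F.card / Real.log x ^ (m * F.card) := by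
            apply div_le_div_of_nonneg_right _ (by positivity)
            exact pow_le_pow_of_le_one hm0.le (min_le_left _ _) hFc
        _ ≤ v ^ F.card / Real.log x ^ (m * F.card) := by
            apply div_le_div_of_nonneg_right _ (by positivity)
            exact pow_le_pow_left₀ hm0.le (min_le_right _ _) _
        _ = (v / Real.log x ^ m) ^ F.card := by rw [div_pow, pow_mul]
        _ ≤ _ := pow_le_pow_left₀ (by positivity) h3 _
    calc c' * (x / Real.log x ^ (m * F.card)) ≤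
          (c * min 1 v ^ k) * (x / Real.log x ^ (m * F.card)) :=
          mul_le_mul_of_nonneg_right (min_le_right _ _) (by positivity)
      _ = c * x * (min 1 v ^ k / Real.log x ^ (m * F.card)) := by ring
      _ ≤ _ := mul_le_mul_of_nonneg_left h4 (by positivity)
  exact_mod_cast card_le_card hsub

/-- the extended system -/
theorem sys_ext {ι : Type} [Fintype ι] (f : ι → ℤ[X])
    (hirr : ∀ i, Irreducible (f i)) (hdeg : ∀ i, 0 < (f i).natDegree)
    (hlead : ∀ i, 0 < (f i).leadingCoeff) (hinj : Function.Injective f) (hX : ∀ i, f i ≠ X)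
    (hadm : ∀ p : ℕ, p.Prime → ∃ m : ℕ, ¬ p ∣ m ∧ ∀ i, ¬ (p : ℤ) ∣ (f i).eval (m : ℤ)) :
    Sys (ext f) := by
  refine ⟨?_, ?_, ?_, ?_, ?_⟩
  · rintro (_ | i)
    · exact irreducible_X
    · exact hirr i
  · rintro (_ | i)
    · change 0 < (X : ℤ[X]).natDegree
      rw [natDegree_X]; norm_num
    · exact hdeg i
  · rintro (_ | i)
    · change 0 < (X : ℤ[X]).leadingCoeff
      rw [leadingCoeff_X]; norm_num
    · exact hlead i
  · rintro (_ | i) (_ | j) h
    · rfl
    · exact absurd h.symm (hX j)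
    · exact absurd h (hX i)
    · exact congrArg some (hinj h)
  · intro p hp
    obtain ⟨m, hm1, hm2⟩ := hadm p hp
    refine ⟨m, ?_⟩
    rintro (_ | i)
    · change ¬ (p : ℤ) ∣ (X : ℤ[X]).eval (m : ℤ)
      rw [eval_X, Int.natCast_dvd_natCast]
      exact hm1
    · exact hm2 i

open Classical in
/-- many primes with rough values -/
theorem polyLow {ι : Type} [Fintype ι] (f : ι → ℤ[X]) (hg : Sys (ext f)) :
    ∃ (r : ℕ) (w : ℝ), 2 ≤ r ∧ 0 < w ∧ ∀ᶠ X : ℕ in atTop,
      w * (X / Real.log X ^ (Fintype.card ι + 1)) ≤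
        (((Finset.Ioc X (2 * X)).filter (fun n => n.Prime ∧
        ∀ p ∈ pz ⌊(X : ℝ) ^ (1 / (r : ℝ))⌋₊, ¬ Q f p n)).card : ℝ) := by
  obtain ⟨k0, hk0⟩ : ∃ k0, k0 = Fintype.card ι := ⟨_, rfl⟩
  rw [← hk0]
  obtain ⟨c, hc, hQ⟩ := exists_c (ext f) hg
  have hQA : PerA (Q f) c := by
    refine ⟨fun p n => Poly.per f p n, fun p hp => ?_⟩
    have h1 := hQ.few p hp
    rw [nuB_ext f p hp] at h1
    omega
  obtain ⟨w, hw, hW⟩ := prod_low f hg
  rw [← hk0] at hW
  obtain ⟨r, hr0, hlow⟩ := prime_lower c hc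
  have hrr : (2 : ℝ) ≤ r := by exact_mod_cast hr0
  refine ⟨r, w / 8, hr0, by positivity, ?_⟩
  have tN : Tendsto (fun N : ℕ => (N : ℝ)) atTop atTop := tendsto_natCast_atTop_atTop
  have hlogX : Tendsto (fun X : ℕ => Real.log (X : ℝ)) atTop atTop :=
    Real.tendsto_log_atTop.comp tN
  filter_upwards [hlow r le_rfl (k0 + 1), floor_rpow (show (0 : ℝ) < 1 / (r : ℝ) by positivity),
    hlogX.eventually_ge_atTop (1 + 1 / w)] with X hlow hfl hXlog
  obtain ⟨hz5, -, hly1⟩ := hfl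
  have hv1 : 0 < 1 / w := by positivity
  have hlX : 0 < Real.log X := by linarith
  have hzlog : 0 < Real.log ⌊(X : ℝ) ^ (1 / (r : ℝ))⌋₊ :=
    Real.log_pos (by exact_mod_cast (by omega : 1 < ⌊(X : ℝ) ^ (1 / (r : ℝ))⌋₊))
  have hz3 : Real.log ⌊(X : ℝ) ^ (1 / (r : ℝ))⌋₊ ≤ Real.log X := by
    refine hly1.trans (mul_le_of_le_one_left hlX.le ?_)
    rw [div_le_one (by linarith)]
    linarith
  have hWz : w / Real.log X ^ k0 ≤
      ∏ p ∈ pz ⌊(X : ℝ) ^ (1 / (r : ℝ))⌋₊, (1 - (rhoA (Q f) p : ℝ) / (p - 1 : ℝ)) := by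
    refine le_trans ?_ (hW _ hz5)
    gcongr
  have h1 := hlow (Q f) hQA (by
    refine le_trans ?_ hWz
    rw [div_le_div_iff₀ (by positivity) (by positivity), one_mul, pow_succ]
    have h2 : 1 ≤ w * Real.log X := by
      have : 1 / w ≤ Real.log X := by linarith
      rw [div_le_iff₀ hw] at this
      linarith
    calc Real.log X ^ k0 = Real.log X ^ k0 * 1 := (mul_one _).symm
      _ ≤ Real.log X ^ k0 * (w * Real.log X) := by gcongr
      _ = _ := by ring)
  refine le_trans ?_ h1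
  calc w / 8 * (X / Real.log X ^ (k0 + 1)) = w / Real.log X ^ k0 * X / (8 * Real.log X) := by
        rw [pow_succ]
        field_simp
    _ ≤ _ := by gcongr

open Classical in
/-- **Primes with almost prime values of polynomials.** -/
theorem polyPrimes {ι : Type} [Fintype ι] (f : ι → ℤ[X]) (hg : Sys (ext f)) :
    ∃ R : ℕ, 2 ≤ R ∧ ∀ k : ℕ, ∃ (B : ℕ) (c : ℝ), 0 < c ∧ ∀ᶠ x : ℕ in atTop,
      ∀ D : ℕ, Real.log x ^ B ≤ D → D * Real.log x ^ B ≤ x →
      c * D ≤ (((Icc 1 D).filter (fun d => ∀ F ⊆ range k, 0 ∈ F →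
        c * (x / Real.log x ^ ((Fintype.card ι + 1) * F.card)) ≤
          (((Icc 1 x).filter (fun p => ∀ j ∈ F,
            PrimeAlmost f R ((x : ℝ) ^ (1 / (R : ℝ))) (p + j * d))).card : ℝ))).card : ℝ) := by
  obtain ⟨r, w, hr0, hw, hlow⟩ := polyLow f hg
  choose Ki Di hKD using fun i => eval_bound (f i)
  obtain ⟨A, hA⟩ : ∃ A : ℕ, A = 1 + ∑ i, Ki i := ⟨_, rfl⟩
  obtain ⟨d, hd⟩ : ∃ d : ℕ, d = ∑ i, Di i := ⟨_, rfl⟩
  obtain ⟨R, hR⟩ : ∃ R : ℕ, R = (d + 2) * (2 * r) := ⟨_, rfl⟩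
  have hrr : (2 : ℝ) ≤ r := by exact_mod_cast hr0
  have hR2r : 2 * r ≤ R := by rw [hR]; nlinarith
  have hR0 : 2 ≤ R := by omega
  have hR2r' : 2 * (r : ℝ) ≤ R := by exact_mod_cast hR2r
  refine ⟨R, hR0, ?_⟩
  intro k
  obtain ⟨m, hm⟩ : ∃ m, m = Fintype.card ι + 1 := ⟨_, rfl⟩
  rw [← hm] at hlow ⊢
  obtain ⟨B, c, hc, hdense⟩ := polyDense f hg k (1 / (2 * r)) (w / 4) (by positivity) (by
    rw [div_lt_one (by positivity)]
    linarith) (by positivity)
  rw [← hm] at hdense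
  refine ⟨B, c, hc, ?_⟩
  have tN : Tendsto (fun N : ℕ => (N : ℝ)) atTop atTop := tendsto_natCast_atTop_atTop
  have hhalf : Tendsto (fun x : ℕ => x / 2) atTop atTop :=
    Nat.tendsto_div_const_atTop (by norm_num)
  have hz : ∀ᶠ x : ℕ in atTop, (2 : ℝ) ≤ (x : ℝ) ^ (1 / (2 * r : ℝ)) :=
    ((tendsto_rpow_atTop (by positivity)).comp tN).eventually_ge_atTop 2
  filter_upwards [hdense, hhalf.eventually hlow, eventually_ge_atTop (max 16 (A * 3 ^ d)), hz] with x
    hdense hlow hx16' hz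
  have hx16 : 16 ≤ x := (le_max_left _ _).trans hx16'
  have hxA : A * 3 ^ d ≤ x := (le_max_right _ _).trans hx16'
  intro D hD1 hD2
  set X := x / 2 with hX
  have hX8 : 8 ≤ X := by omega
  have h2X : 2 * X ≤ x := by omega
  have hx3X : x ≤ 3 * X := by omega
  have hx0 : (0 : ℝ) < x := by exact_mod_cast (show 0 < x by omega)
  have hx1 : (1 : ℝ) ≤ x := by exact_mod_cast (show 1 ≤ x by omega)
  have hX0 : (0 : ℝ) < X := by exact_mod_cast (show 0 < X by omega)
  -- `x ^ (1 / (2 r)) ≤ X ^ (1 / r)`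
  have hxX : (x : ℝ) ^ (1 / (2 * r : ℝ)) ≤ (X : ℝ) ^ (1 / (r : ℝ)) := by
    calc (x : ℝ) ^ (1 / (2 * r : ℝ)) ≤ ((X : ℝ) ^ (2 : ℝ)) ^ (1 / (2 * r : ℝ)) := by
          apply Real.rpow_le_rpow hx0.le _ (by positivity)
          rw [Real.rpow_two]
          have h1 : x ≤ X ^ 2 := by nlinarith
          exact_mod_cast h1
      _ = (X : ℝ) ^ (1 / (r : ℝ)) := by
          rw [← Real.rpow_mul hX0.le]
          congr 1
          field_simp
  set P := (Finset.Ioc X (2 * X)).filter (fun n => n.Prime ∧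
        ∀ p ∈ pz ⌊(X : ℝ) ^ (1 / (r : ℝ))⌋₊, ¬ Q f p n) with hP
  have hrough : ∀ n ∈ P, ∀ i, ∀ p : ℕ, p.Prime → (p : ℤ) ∣ (f i).eval (n : ℤ) →
      (x : ℝ) ^ (1 / (2 * r : ℝ)) < p := by
    intro n hn i p hp hd
    rw [hP, mem_filter] at hn
    exact lt_of_le_of_lt hxX (not_mem_pz hp (fun h => hn.2.2 p h ⟨i, hd⟩))
  have hPx : ∀ n ∈ P, n ≤ x ∧ n.Prime := by
    intro n hn
    rw [hP, mem_filter, mem_Ioc] at hn
    exact ⟨by omega, hn.2.1⟩
  have hlogX : Real.log X ≤ Real.log x := Real.log_le_log hX0 (by exact_mod_cast (show X ≤ x by omega))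
  have hlogX0 : 0 < Real.log X := Real.log_pos (by exact_mod_cast (show 1 < X by omega))
  have hmain := hdense P (fun n hn => ⟨(hPx n hn).1, (hPx n hn).2, hrough n hn⟩) (by
    refine le_trans ?_ hlow
    have h1 : (x : ℝ) ≤ 4 * X := by exact_mod_cast (show x ≤ 4 * X by omega)
    calc w / 4 * (x / Real.log x ^ m) ≤ w / 4 * (4 * X / Real.log X ^ m) := by gcongr
      _ = w * (X / Real.log X ^ m) := by ring) D hD1 hD2
  refine hmain.trans ?_
  have halm : ∀ n ∈ P, PrimeAlmost f R ((x : ℝ) ^ (1 / (R : ℝ))) n := by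
    intro n hn
    refine ⟨(hPx n hn).2, ?_⟩
    intro i
    have hzR : (x : ℝ) ^ (1 / (R : ℝ)) ≤ (x : ℝ) ^ (1 / (2 * r : ℝ)) := by
      apply Real.rpow_le_rpow_of_exponent_le hx1
      apply one_div_le_one_div_of_le (by positivity) hR2r'
    have hne : (f i).eval (n : ℤ) ≠ 0 := by
      intro h0
      have := hrough n hn i 2 Nat.prime_two (by rw [h0]; exact dvd_zero _)
      push_cast at this
      linarith
    refine ⟨?_, fun p hp hd => lt_of_le_of_lt hzR (hrough n hn i p hp hd)⟩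
    apply length_le _ R (Int.natAbs_ne_zero.2 hne) ((x : ℝ) ^ (1 / (2 * r : ℝ)))
    · intro p hp hd
      exact hrough n hn i p hp (Int.natCast_dvd.2 hd)
    · have h8 := hKD i (n : ℤ)
      have e1 : ((((f i).eval (n : ℤ)).natAbs : ℕ) : ℝ) =
          |(((f i).eval (n : ℤ) : ℤ) : ℝ)| := by
        rw [Nat.cast_natAbs, Int.cast_abs]
      have e2 : |((n : ℤ) : ℝ)| = (n : ℝ) := by
        rw [Int.cast_natCast, abs_of_nonneg (Nat.cast_nonneg n)]
      rw [e1]
      rw [e2] at h8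
      have hm5 : (1 : ℝ) + n ≤ 3 * x := by
        have h10 : (n : ℝ) ≤ x := by exact_mod_cast (hPx n hn).1
        linarith
      have hm6 : (1 : ℝ) ≤ 1 + n := by
        have : (0 : ℝ) ≤ n := Nat.cast_nonneg n
        linarith
      have hKA : (Ki i : ℝ) ≤ A := by
        have h9 : Ki i ≤ ∑ i, Ki i :=
          Finset.single_le_sum (f := Ki) (fun _ _ => Nat.zero_le _) (mem_univ i)
        have h10 : Ki i ≤ A := by omega
        exact_mod_cast h10
      have hDd : Di i ≤ d := by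
        rw [hd]
        exact Finset.single_le_sum (f := Di) (fun _ _ => Nat.zero_le _) (mem_univ i)
      have hXA' : (A : ℝ) * 3 ^ d ≤ x := by exact_mod_cast hxA
      have e3 : ((x : ℝ) ^ (1 / (2 * r : ℝ))) ^ R = (x : ℝ) ^ (d + 2) := by
        have hRr : (R : ℝ) = (d + 2) * (2 * r) := by rw [hR]; push_cast; ring
        rw [← Real.rpow_natCast ((x : ℝ) ^ (1 / (2 * r : ℝ))), ← Real.rpow_mul hx0.le, hRr,
          ← Real.rpow_natCast]
        congr 1
        push_cast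
        field_simp
      rw [pow_succ, e3]
      calc |(((f i).eval (n : ℤ) : ℤ) : ℝ)| ≤ Ki i * (1 + n) ^ Di i := h8
        _ ≤ A * (1 + n) ^ d := by
          apply mul_le_mul hKA (pow_le_pow_right₀ hm6 hDd) (by positivity) (by positivity)
        _ ≤ A * (3 * x) ^ d := by gcongr
        _ = A * 3 ^ d * (x : ℝ) ^ d := by rw [mul_pow]; ring
        _ ≤ x * (x : ℝ) ^ d := by gcongr
        _ = (x : ℝ) ^ (d + 1) * 1 := by rw [pow_succ]; ring
        _ ≤ (x : ℝ) ^ (d + 2) * (x : ℝ) ^ (1 / (2 * r : ℝ)) := by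
          apply mul_le_mul (pow_le_pow_right₀ hx1 (by omega)) _ (by norm_num) (by positivity)
          linarith
    · linarith
  have hsub : (Icc 1 D).filter (fun d => ∀ F ⊆ range k, 0 ∈ F →
        c * (x / Real.log x ^ (m * F.card)) ≤
          ((P.filter (fun p => ∀ j ∈ F, p + j * d ∈ P)).card : ℝ)) ⊆
      (Icc 1 D).filter (fun d => ∀ F ⊆ range k, 0 ∈ F →
        c * (x / Real.log x ^ (m * F.card)) ≤
          (((Icc 1 x).filter (fun p => ∀ j ∈ F,
            PrimeAlmost f R ((x : ℝ) ^ (1 / (R : ℝ))) (p + j * d))).card : ℝ)) := by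
    intro d' hd'
    rw [mem_filter] at hd' ⊢
    refine ⟨hd'.1, ?_⟩
    intro F hF h0F
    refine (hd'.2 F hF h0F).trans ?_
    have : P.filter (fun p => ∀ j ∈ F, p + j * d' ∈ P) ⊆ (Icc 1 x).filter (fun p => ∀ j ∈ F,
            PrimeAlmost f R ((x : ℝ) ^ (1 / (R : ℝ))) (p + j * d')) := by
      intro n hn
      rw [mem_filter] at hn ⊢
      refine ⟨?_, fun j hj => halm _ (hn.2 j hj)⟩
      rw [mem_Icc]
      exact ⟨(hPx n hn.1).2.one_le, (hPx n hn.1).1⟩
    exact_mod_cast card_le_card this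
  exact_mod_cast card_le_card hsub

end Pool.Agent.L5helper4.DL
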