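import Pool.Agent.Y843.HS.Top

/-!
# Replacing the weight by one in a progression, with a bounded function of the difference

The system `a, a + d, …, a + (k - 1) d` and `d` is parametrised by `Option (Fin k) → ZMod N`.
-/

set_option autoImplicit false

open Finset

namespace Pool.Agent.L5helper4.DL

open Pool.Agent.H602R3.DHJ (av av_prod av_const av_mono av_nonneg av_add av_sub av_mul av_sum)
open Pool.Agent.Y727.PSP
open Pool.Agent.Y843.HS

variable {k N : ℕ}

/-- the coefficients: `some j` is the form `a + j d`, `none` is the form `d` -/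
def cf : Option (Fin k) → Option (Fin k) → ZMod N
  | some j, some i => ((i : ℕ) : ZMod N) - ((j : ℕ) : ZMod N)
  | some _, none => 1
  | none, some _ => -1
  | none, none => 0

theorem cf_self (j : Option (Fin k)) : (cf j j : ZMod N) = 0 := by
  cases j <;> simp [cf]

theorem cf_ne [Fact N.Prime] (hkN : k ≤ N) {j : Fin k} {i : Option (Fin k)} (h : i ≠ some j) :
    (cf (some j) i : ZMod N) ≠ 0 := by
  cases i with
  | none => simp [cf]
  | some i =>
    apply Pool.Agent.Y79.PSP.MK.cast_ne hkN
    intro h'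
    exact h (by rw [h'])

/-- the forms -/
def Le (j : Option (Fin k)) (x : Option (Fin k) → ZMod N) : ZMod N := ∑ i, cf j i * x i

/-- the weights: `ν (a + j d)` for `some j`, and one for `none` -/
def nue (ν : ZMod N → ℝ) (j : Option (Fin k)) (x : Option (Fin k) → ZMod N) : ℝ :=
  if j = none then 1 else ν (Le j x)

/-- the linear forms condition for the extended system -/
def LFe (k N : ℕ) [NeZero N] (ν : ZMod N → ℝ) (η : ℝ) : Prop :=
  LF (fun (j : Option (Fin k)) (x : Option (Fin k) → ZMod N) => nue ν j x) η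

theorem Ind_Le (j : Option (Fin k)) (F : ZMod N → ℝ) :
    Ind j (fun x : Option (Fin k) → ZMod N => F (Le j x)) := by
  intro x v
  show F _ = F _
  congr 1
  unfold Le
  apply sum_congr rfl
  intro i _
  by_cases hi : i = j
  · subst hi
    rw [cf_self, zero_mul, zero_mul]
  · rw [Function.update_of_ne hi]

theorem Ind_nue (ν : ZMod N → ℝ) (j : Option (Fin k)) :
    Ind j (nue (k := k) ν j) := by
  intro x v
  unfold nue
  split_ifs
  · rfl
  · exact Ind_Le j ν x v

/-- the homomorphism `x ↦ (a, d)` -/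
def Tad (k N : ℕ) : (Option (Fin k) → ZMod N) →+ ZMod N × ZMod N where
  toFun x := (∑ i : Fin k, ((i : ℕ) : ZMod N) * x (some i) + x none, -∑ i : Fin k, x (some i))
  map_zero' := by simp
  map_add' x y := by
    simp only [Pi.add_apply, mul_add, sum_add_distrib, neg_add, Prod.mk_add_mk]
    congr 1
    ring

theorem Tad_surj (hk : 1 ≤ k) : Function.Surjective (Tad k N) := by
  intro p
  obtain ⟨a, d⟩ := p
  have h0 : (⟨0, hk⟩ : Fin k) ∈ (univ : Finset (Fin k)) := mem_univ _
  refine ⟨fun i => if i = none then a else if i = some ⟨0, hk⟩ then -d else 0, ?_⟩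
  show ((_ : ZMod N), (_ : ZMod N)) = _
  rw [Prod.mk.injEq]
  constructor
  · rw [sum_eq_single (⟨0, hk⟩ : Fin k)]
    · simp
    · intro i _ hi
      simp [hi]
    · intro h
      exact absurd h0 h
  · rw [sum_eq_single (⟨0, hk⟩ : Fin k)]
    · simp
    · intro i _ hi
      simp [hi]
    · intro h
      exact absurd h0 h

theorem Le_some (j : Fin k) (x : Option (Fin k) → ZMod N) :
    Le (some j) x = (Tad k N x).1 + ((j : ℕ) : ZMod N) * (Tad k N x).2 := by
  show ∑ i, cf (some j) i * x i = (∑ i : Fin k, ((i : ℕ) : ZMod N) * x (some i) + x none) +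
    ((j : ℕ) : ZMod N) * (-∑ i : Fin k, x (some i))
  rw [Fintype.sum_option]
  simp only [cf]
  rw [mul_neg, mul_sum]
  have : ∑ i : Fin k, (((i : ℕ) : ZMod N) - ((j : ℕ) : ZMod N)) * x (some i) =
      ∑ i : Fin k, ((i : ℕ) : ZMod N) * x (some i) - ∑ i : Fin k, ((j : ℕ) : ZMod N) * x (some i) := by
    rw [← sum_sub_distrib]
    exact sum_congr rfl fun i _ => by ring
  rw [this]
  ring

theorem Le_none (x : Option (Fin k) → ZMod N) : Le none x = (Tad k N x).2 := by
  show ∑ i, cf none i * x i = -∑ i : Fin k, x (some i)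
  rw [Fintype.sum_option]
  simp only [cf]
  rw [zero_mul, zero_add, ← sum_neg_distrib]
  exact sum_congr rfl fun i _ => by ring

/-- the average over the parameters -/
theorem av_ad [NeZero N] (hk : 1 ≤ k) (F : ZMod N × ZMod N → ℝ) :
    av (fun x : Option (Fin k) → ZMod N => F (Tad k N x)) = av F :=
  av_hom (Tad k N) (Tad_surj hk) F

/-- the product over a set of terms of the progression, in the parameters -/
theorem prod_Le (S : Finset (Fin k)) (f : ZMod N → ℝ) (x : Option (Fin k) → ZMod N) :
    ∏ j ∈ S, f (Le (some j) x) =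
      ∏ j ∈ S, f ((Tad k N x).1 + ((j : ℕ) : ZMod N) * (Tad k N x).2) :=
  prod_congr rfl fun j _ => by rw [Le_some]

/-- one step of the replacement -/
theorem repl_one (hk : 1 ≤ k) [NeZero N] {ε : ℝ} {ν f : ZMod N → ℝ}
    (hf : ∀ a, 0 ≤ f a ∧ f a ≤ ν a)
    (h : ∀ (j : Option (Fin k)) (g : Bool → Option (Fin k) → (Option (Fin k) → ZMod N) → ℝ)
      (b : Bool → Option (Fin k) → Bool), (∀ c i, Ind i (g c i)) →
      (∀ c i x, |g c i x| ≤ if b c i = true then nue ν i x else 1) →
      |av (fun y : Option (Fin k) → ZMod N × ZMod N => (nue ν j (sl ∅ y) - 1) *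
        ∏ i ∈ univ.erase j, (g false i (sl ∅ y) * g true i (sl {j} y)))| ≤ ε)
    (E : ZMod N → ℝ) (hE : ∀ d, 0 ≤ E d ∧ E d ≤ 1) (S : Finset (Fin k)) (j : Fin k) (hj : j ∉ S) :
    av (fun p : ZMod N × ZMod N => E p.2 * ∏ i ∈ insert j S, f (p.1 + ((i : ℕ) : ZMod N) * p.2)) ≤
      av (fun p : ZMod N × ZMod N => E p.2 * ∏ i ∈ S, f (p.1 + ((i : ℕ) : ZMod N) * p.2)) + ε := by
  classical
  have hν0 : ∀ a, 0 ≤ ν a := fun a => (hf a).1.trans (hf a).2
  set g : Bool → Option (Fin k) → (Option (Fin k) → ZMod N) → ℝ := fun c i x =>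
    if c = true then 1 else
      (match i with
        | none => E (Le none x)
        | some i' => if i' ∈ S then f (Le (some i') x) else 1) with hg
  have hgInd : ∀ c i, Ind i (g c i) := by
    intro c i x v
    rw [hg]
    cases c with
    | true => rfl
    | false =>
      cases i with
      | none => exact Ind_Le none E x v
      | some i' =>
        simp only [Bool.false_eq_true, if_false]
        split_ifs
        · exact Ind_Le (some i') f x v
        · rfl
  have hgb : ∀ c i x, |g c i x| ≤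
      if (decide (c = false) && decide (i ≠ none) && decide (∃ i' ∈ S, i = some i')) = true
        then nue ν i x else 1 := by
    intro c i x
    rw [hg]
    cases c with
    | true => simp
    | false =>
      cases i with
      | none =>
        simp only [Bool.false_eq_true, if_false]
        simp [abs_of_nonneg (hE _).1, (hE _).2]
      | some i' =>
        by_cases hi : i' ∈ S
        · simp only [Bool.false_eq_true, if_false, hi, if_true]
          simp [hi, nue, abs_of_nonneg (hf _).1, (hf _).2]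
        · simp [hi]
  have h1 := h (some j) g _ hgInd hgb
  have h2 : (fun y : Option (Fin k) → ZMod N × ZMod N => (nue ν (some j) (sl ∅ y) - 1) *
        ∏ i ∈ univ.erase (some j), (g false i (sl ∅ y) * g true i (sl {some j} y))) =
      fun y => (fun x : Option (Fin k) → ZMod N => (fun p : ZMod N × ZMod N =>
        (ν (p.1 + ((j : ℕ) : ZMod N) * p.2) - 1) * (E p.2 *
          ∏ i ∈ S, f (p.1 + ((i : ℕ) : ZMod N) * p.2))) (Tad k N x)) (sl ∅ y) := by
    funext y
    simp only
    congr 1
    · unfold nue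
      rw [if_neg (by simp), Le_some]
    · have e1 : ∀ i, g true i (sl {some j} y) = 1 := fun i => by rw [hg]; simp
      simp only [e1, mul_one]
      rw [← prod_Le, ← Le_none]
      have e2 : (univ.erase (some j) : Finset (Option (Fin k))) =
          insert none ((univ.erase j).map Function.Embedding.some) := by
        ext i
        cases i with
        | none => simp
        | some i' => simp
      rw [e2, prod_insert (by simp), prod_map]
      congr 1
      have e3 : ∀ i : Fin k, g false (Function.Embedding.some i) (sl ∅ y) =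
          if i ∈ S then f (Le (some i) (sl ∅ y)) else 1 := by
        intro i
        rw [hg]
        rfl
      simp only [e3]
      rw [prod_ite, prod_const_one, mul_one]
      apply prod_congr _ (fun _ _ => rfl)
      ext i
      rw [mem_filter, mem_erase]
      constructor
      · exact fun h => h.2
      · exact fun h => ⟨⟨fun h' => hj (h' ▸ h), mem_univ _⟩, h⟩
  rw [h2] at h1
  have h2' := av_sl (J := Option (Fin k)) (V := ZMod N) (fun x : Option (Fin k) → ZMod N =>
    (fun p : ZMod N × ZMod N => (ν (p.1 + ((j : ℕ) : ZMod N) * p.2) - 1) * (E p.2 *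
          ∏ i ∈ S, f (p.1 + ((i : ℕ) : ZMod N) * p.2))) (Tad k N x))
  have h2'' := h2'.trans (av_ad hk (fun p : ZMod N × ZMod N =>
    (ν (p.1 + ((j : ℕ) : ZMod N) * p.2) - 1) * (E p.2 *
          ∏ i ∈ S, f (p.1 + ((i : ℕ) : ZMod N) * p.2))))
  replace h1 := (le_of_eq (congrArg abs h2''.symm)).trans h1
  have h3 : ∀ p : ZMod N × ZMod N,
      E p.2 * ∏ i ∈ insert j S, f (p.1 + ((i : ℕ) : ZMod N) * p.2) ≤
      E p.2 * ∏ i ∈ S, f (p.1 + ((i : ℕ) : ZMod N) * p.2) +
      (ν (p.1 + ((j : ℕ) : ZMod N) * p.2) - 1) * (E p.2 *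
          ∏ i ∈ S, f (p.1 + ((i : ℕ) : ZMod N) * p.2)) := by
    intro p
    rw [prod_insert hj]
    have h4 : 0 ≤ E p.2 * ∏ i ∈ S, f (p.1 + ((i : ℕ) : ZMod N) * p.2) :=
      mul_nonneg (hE _).1 (prod_nonneg fun i _ => (hf _).1)
    have h5 := mul_le_mul_of_nonneg_right (hf (p.1 + ((j : ℕ) : ZMod N) * p.2)).2 h4
    calc E p.2 * (f (p.1 + ((j : ℕ) : ZMod N) * p.2) *
          ∏ i ∈ S, f (p.1 + ((i : ℕ) : ZMod N) * p.2)) =
          f (p.1 + ((j : ℕ) : ZMod N) * p.2) * (E p.2 *
            ∏ i ∈ S, f (p.1 + ((i : ℕ) : ZMod N) * p.2)) := by ring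
      _ ≤ _ := h5
      _ = _ := by ring
  refine (av_mono h3).trans ?_
  rw [av_add]
  have := (abs_le.1 h1).2
  linarith

/-- (REPL) passing to a part of the progression -/
theorem repl (hSLF : S_SLF) (k : ℕ) (hk : 1 ≤ k) (ε : ℝ) (hε : 0 < ε) : ∃ η : ℝ, 0 < η ∧
    ∀ (N : ℕ) [NeZero N] (ν f : ZMod N → ℝ), (∀ a, 0 ≤ f a ∧ f a ≤ ν a) → LFe k N ν η →
    ∀ (E : ZMod N → ℝ), (∀ d, 0 ≤ E d ∧ E d ≤ 1) → ∀ S : Finset (Fin k),
    av (fun p : ZMod N × ZMod N => E p.2 * ∏ i : Fin k, f (p.1 + ((i : ℕ) : ZMod N) * p.2)) ≤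
      av (fun p : ZMod N × ZMod N => E p.2 * ∏ i ∈ S, f (p.1 + ((i : ℕ) : ZMod N) * p.2)) +
        k * ε := by
  classical
  obtain ⟨η, hη, hS⟩ := hSLF (Option (Fin k)) ε hε
  refine ⟨η, hη, ?_⟩
  intro N _ ν f hf hLF E hE S
  have hν0 : ∀ a, 0 ≤ ν a := fun a => (hf a).1.trans (hf a).2
  have h1 := hS (ZMod N) (nue ν) (fun j x => by
    unfold nue
    split_ifs
    · exact zero_le_one
    · exact hν0 _) (fun j => Ind_nue ν j) hLF
  have key : ∀ R : Finset (Fin k), Disjoint S R →
      av (fun p : ZMod N × ZMod N => E p.2 * ∏ i ∈ S ∪ R, f (p.1 + ((i : ℕ) : ZMod N) * p.2)) ≤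
      av (fun p : ZMod N × ZMod N => E p.2 * ∏ i ∈ S, f (p.1 + ((i : ℕ) : ZMod N) * p.2)) +
        R.card * ε := by
    intro R
    induction R using Finset.induction_on with
    | empty =>
      intro _
      simp
    | insert j R hj ih =>
      intro hd
      rw [disjoint_insert_right] at hd
      have h2 := ih hd.2
      have h3 := repl_one hk hf h1 E hE (S ∪ R) j (by
        rw [mem_union, not_or]
        exact ⟨hd.1, hj⟩)
      rw [union_insert, card_insert_of_notMem hj]
      push_cast
      linarith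
  have h2 := key Sᶜ disjoint_compl_right
  rw [union_compl] at h2
  have h3 : ((Sᶜ.card : ℕ) : ℝ) ≤ k := by
    have := card_le_univ Sᶜ
    rw [Fintype.card_fin] at this
    exact_mod_cast this
  have h4 := mul_le_mul_of_nonneg_right h3 hε.le
  linarith

end Pool.Agent.L5helper4.DL
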