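import Pool.Agent.L5helper4.DL.Top
import Pool.Agent.X58.IV.Up
import Pool.Agent.H386R2.HL.A

/-!
# Sifted sets in windows, uniformly in the sifted classes: the differences, and the singular series
-/

set_option autoImplicit false

namespace Pool.Agent.L5helper4.DL

open Finset Filter
open Pool.Agent.Y843.HS (Pr VV)
open Pool.Agent.X58.IV (Adm Sift lowZ VV_pos VV_le_one mert_low)

open Classical in
/-- **The sifted integers of a window, uniformly in the classes.** -/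
theorem siftPop (k l : ℕ) : ∃ κ : ℝ, 0 < κ ∧ κ ≤ 1 ∧ ∃ (B X₀ : ℕ) (c : ℝ), 0 < c ∧
    ∀ X A : ℕ, X₀ ≤ X → ∀ Z : ℕ → Finset ℕ, Adm l Z →
      c * X * VV Z 0 ⌊(X : ℝ) ^ κ⌋₊ ≤ ((Sift Z κ A X).card : ℝ) ∧
      ∀ D : ℕ, Real.log X ^ B ≤ D → D * Real.log X ^ B ≤ X →
        c * D ≤ (((Icc 1 D).filter (fun d => ∀ F ⊆ range k, 0 ∈ F →
          c * X * VV Z 0 ⌊(X : ℝ) ^ κ⌋₊ ^ F.card ≤
            (((Sift Z κ A X).filter (fun n => ∀ j ∈ F, n + j * d ∈ Sift Z κ A X)).card : ℝ))).card : ℝ) := by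
  obtain ⟨κ, c₁, hκ, hκ1, hc₁, X₁, hlow⟩ := lowZ l
  obtain ⟨B, X₂, c₂, hc₂, hcnt⟩ := cnt k l κ c₁ hκ hc₁
  refine ⟨κ, hκ, hκ1, B, max X₁ X₂, min c₁ c₂, lt_min hc₁ hc₂, fun X A hX Z hZ => ?_⟩
  have h1 := hlow X A ((le_max_left _ _).trans hX) Z hZ
  have hV0 := VV_pos hZ 0 ⌊(X : ℝ) ^ κ⌋₊
  refine ⟨?_, fun D hD1 hD2 => ?_⟩
  · refine le_trans ?_ h1
    have : min c₁ c₂ ≤ c₁ := min_le_left _ _
    gcongr
  · have h2 := hcnt X A ((le_max_right _ _).trans hX) Z (fun p hp _ => hZ p hp) (Sift Z κ A X)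
      (filter_subset _ _) (fun n hn p hp hpX => (mem_filter.1 hn).2 p hp hpX) h1 D hD1 hD2
    have hmin : min c₁ c₂ ≤ c₂ := min_le_right _ _
    calc min c₁ c₂ * D ≤ c₂ * D := mul_le_mul_of_nonneg_right hmin (Nat.cast_nonneg _)
      _ ≤ _ := h2
      _ ≤ _ := by
          apply Nat.cast_le.2
          apply card_le_card
          intro d hd
          rw [mem_filter] at hd ⊢
          refine ⟨hd.1, fun F hF h0 => le_trans ?_ (hd.2 F hF h0)⟩
          gcongr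

/-- the factor of the singular series -/
noncomputable def lf (l : ℕ) (Z : ℕ → Finset ℕ) (p : ℕ) : ℝ :=
  (1 - ((Z p).card : ℝ) / p) / (1 - 1 / (p : ℝ)) ^ l

theorem lf_nonneg {l : ℕ} {Z : ℕ → Finset ℕ} (hZ : Adm l Z) {p : ℕ} (hp : p.Prime) :
    0 ≤ lf l Z p := by
  unfold lf
  have h1 := Pool.Agent.H386R2.HL.one_sub_pos hp
  have h2 := (Pool.Agent.X58.IV.fac hZ hp).1
  have h3 : 0 ≤ 1 / (p : ℝ) := by positivity
  exact div_nonneg (h3.trans h2) (by positivity)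

theorem lf_big {l : ℕ} {Z : ℕ → Finset ℕ} {p : ℕ} (hp : p.Prime) (hl : l < p) (hc : (Z p).card = l) :
    lf l Z p ≤ 1 ∧ |lf l Z p - 1| ≤ (l : ℝ) ^ 2 * (1 / (p : ℝ) ^ 2) := by
  have e : lf l Z p = Pool.Agent.H386R2.HL.localFactor (fun i : Fin l => (i : ℕ)) p := by
    unfold lf Pool.Agent.H386R2.HL.localFactor
    rw [Pool.Agent.H386R2.HL.nu_eq_of_large _ (fun i j h => Fin.ext h) (fun i => i.2.trans hl), hc,
      inv_pow, div_eq_mul_inv, mul_comm]
  refine ⟨?_, ?_⟩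
  · unfold lf
    have h1 := Pool.Agent.H386R2.HL.one_sub_pos hp
    rw [div_le_one (by positivity), hc]
    have hp2 : (2 : ℝ) ≤ p := by exact_mod_cast hp.two_le
    have h2 : 1 / (p : ℝ) ≤ 1 := by
      rw [div_le_one (by linarith)]
      linarith
    have := one_add_mul_le_pow (a := -(1 / (p : ℝ))) (by linarith) l
    have e1 : (1 : ℝ) + (l : ℝ) * -(1 / (p : ℝ)) = 1 - (l : ℝ) / p := by ring
    have e2 : (1 : ℝ) + -(1 / (p : ℝ)) = 1 - 1 / (p : ℝ) := by ring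
    rw [e1, e2] at this
    exact this
  · rw [e]
    exact Pool.Agent.H386R2.HL.abs_localFactor_sub_one _ (fun i j h => Fin.ext h) hp
      (fun i => i.2.trans hl) hl.le

theorem lf_mult {l y : ℕ} {Z : ℕ → Finset ℕ} (hbig : ∀ p : ℕ, p.Prime → y < p → (Z p).card = l) :
    Multipliable (fun p : Nat.Primes => lf l Z p) := by
  have hs : Summable (fun p : Nat.Primes => lf l Z p - 1) := by
    have hg : Summable (fun p : Nat.Primes => (l : ℝ) ^ 2 * (1 / ((p : ℕ) : ℝ) ^ 2)) := by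
      apply Summable.mul_left
      exact (Real.summable_one_div_nat_pow.2 (by norm_num : 1 < 2)).comp_injective
        (Subtype.val_injective)
    apply Summable.of_norm_bounded_eventually hg
    have hfin : {p : Nat.Primes | (p : ℕ) ≤ l + y}.Finite := by
      apply Set.Finite.of_finite_image (f := (fun p : Nat.Primes => (p : ℕ)))
      · apply (Set.finite_Iic (l + y)).subset
        rintro _ ⟨p, hp, rfl⟩
        exact hp
      · exact Subtype.val_injective.injOn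
    rw [Filter.eventually_cofinite]
    apply hfin.subset
    intro p hp
    simp only [Set.mem_ofPred_eq] at hp ⊢
    by_contra hcon
    push Not at hcon
    apply hp
    rw [Real.norm_eq_abs]
    exact (lf_big p.2 (by omega) (hbig p p.2 (by omega))).2
  have := Real.multipliable_one_add_of_summable hs
  simpa using this

/-- **The singular series and the sieve product.** -/
theorem sing_le (l : ℕ) : ∃ C : ℝ, 0 < C ∧ ∀ (Z : ℕ → Finset ℕ) (y : ℕ), 2 ≤ y → l ≤ y → Adm l Z →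
    (∀ p : ℕ, p.Prime → y < p → (Z p).card = l) →
    ∏' p : Nat.Primes, lf l Z p ≤ C * Real.log y ^ l * VV Z 0 y := by
  obtain ⟨c, hc, hm⟩ := mert_low
  refine ⟨1 / c ^ l, by positivity, fun Z y hy hly hZ hbig => ?_⟩
  have hlog : 0 < Real.log y := Real.log_pos (by exact_mod_cast (by omega : 1 < y))
  have hmul := (lf_mult hbig).hasProd
  set s0 : Finset Nat.Primes := (Pr 0 y).preimage (fun p : Nat.Primes => (p : ℕ))
    Subtype.val_injective.injOn with hs0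
  have hs0' : ∀ p : Nat.Primes, p ∈ s0 ↔ (p : ℕ) ≤ y := by
    intro p
    rw [hs0, mem_preimage, Pr, mem_filter, mem_Ioc]
    constructor
    · rintro ⟨⟨_, h⟩, _⟩; exact h
    · intro h; exact ⟨⟨p.2.pos, h⟩, p.2⟩
  have hprod : ∏ p ∈ s0, lf l Z (p : ℕ) = ∏ p ∈ Pr 0 y, lf l Z p := by
    rw [hs0]
    refine prod_preimage (fun p : Nat.Primes => (p : ℕ)) _ Subtype.val_injective.injOn
      (fun p : ℕ => lf l Z p) ?_
    intro p hp hp2
    exact absurd ⟨⟨p, (mem_filter.1 hp).2⟩, rfl⟩ hp2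
  have h1 : ∏' p : Nat.Primes, lf l Z p ≤ ∏ p ∈ Pr 0 y, lf l Z p := by
    refine le_of_tendsto hmul ?_
    filter_upwards [Filter.eventually_ge_atTop s0] with s hs
    have hsplit : ∏ p ∈ s, lf l Z (p : ℕ) =
        (∏ p ∈ s0, lf l Z (p : ℕ)) * ∏ p ∈ s \ s0, lf l Z (p : ℕ) := by
      rw [mul_comm, prod_sdiff hs]
    rw [hsplit, hprod]
    have h2 : 0 ≤ ∏ p ∈ Pr 0 y, lf l Z p := prod_nonneg fun p hp => lf_nonneg hZ (mem_filter.1 hp).2
    have h3 : ∏ p ∈ s \ s0, lf l Z (p : ℕ) ≤ 1 := by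
      apply prod_le_one
      · intro p _
        exact lf_nonneg hZ p.2
      · intro p hp
        rw [Finset.mem_sdiff, hs0'] at hp
        exact (lf_big p.2 (by omega) (hbig p p.2 (by omega))).1
    calc _ ≤ (∏ p ∈ Pr 0 y, lf l Z p) * 1 := mul_le_mul_of_nonneg_left h3 h2
      _ = _ := mul_one _
  refine h1.trans ?_
  have h4 : ∏ p ∈ Pr 0 y, lf l Z p = VV Z 0 y / (∏ p ∈ Pr 0 y, (1 - 1 / (p : ℝ))) ^ l := by
    unfold lf VV
    rw [prod_div_distrib, prod_pow]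
  have h5 : c / Real.log y ≤ ∏ p ∈ Pr 0 y, (1 - 1 / (p : ℝ)) := hm y hy
  have hV := VV_pos hZ 0 y
  rw [h4]
  calc VV Z 0 y / (∏ p ∈ Pr 0 y, (1 - 1 / (p : ℝ))) ^ l ≤ VV Z 0 y / (c / Real.log y) ^ l := by
        gcongr
    _ = 1 / c ^ l * Real.log y ^ l * VV Z 0 y := by
        rw [div_pow]
        field_simp

/-- the singular series is positive -/
theorem sing_pos {l y : ℕ} {Z : ℕ → Finset ℕ} (hZ : Adm l Z)
    (hbig : ∀ p : ℕ, p.Prime → y < p → (Z p).card = l) :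
    0 ≤ ∏' p : Nat.Primes, lf l Z p := by
  have hm := (lf_mult hbig).hasProd
  refine ge_of_tendsto hm ?_
  filter_upwards with s
  exact prod_nonneg fun p _ => lf_nonneg hZ p.2

/-- **The singular series and the sieve product, the other direction.** -/
theorem sing_ge (l : ℕ) : ∃ (c : ℝ) (y₀ : ℕ), 0 < c ∧ ∀ (Z : ℕ → Finset ℕ) (y : ℕ), y₀ ≤ y →
    Adm l Z → (∀ p : ℕ, p.Prime → y < p → (Z p).card = l) →
    c * Real.log y ^ l * VV Z 0 y ≤ ∏' p : Nat.Primes, lf l Z p := by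
  obtain ⟨C, hC, hm⟩ := Pool.Agent.Y840.PT.mert
  refine ⟨1 / (2 * C ^ l), 2 * l ^ 2 + l + 2, by positivity, fun Z y hy hZ hbig => ?_⟩
  have hy2 : 2 ≤ y := by omega
  have hly : l ≤ y := by omega
  have hlog : 0 < Real.log y := Real.log_pos (by exact_mod_cast (by omega : 1 < y))
  have hmul := (lf_mult hbig).hasProd
  set s0 : Finset Nat.Primes := (Pr 0 y).preimage (fun p : Nat.Primes => (p : ℕ))
    Subtype.val_injective.injOn with hs0
  have hs0' : ∀ p : Nat.Primes, p ∈ s0 ↔ (p : ℕ) ≤ y := by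
    intro p
    rw [hs0, mem_preimage, Pr, mem_filter, mem_Ioc]
    constructor
    · rintro ⟨⟨_, h⟩, _⟩; exact h
    · intro h; exact ⟨⟨p.2.pos, h⟩, p.2⟩
  have hprod : ∏ p ∈ s0, lf l Z (p : ℕ) = ∏ p ∈ Pr 0 y, lf l Z p := by
    rw [hs0]
    refine prod_preimage (fun p : Nat.Primes => (p : ℕ)) _ Subtype.val_injective.injOn
      (fun p : ℕ => lf l Z p) ?_
    intro p hp hp2
    exact absurd ⟨⟨p, (mem_filter.1 hp).2⟩, rfl⟩ hp2
  have hy0 : (0 : ℝ) < y := by exact_mod_cast (by omega : 0 < y)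
  have h1 : (∏ p ∈ Pr 0 y, lf l Z p) * (1 / 2) ≤ ∏' p : Nat.Primes, lf l Z p := by
    refine ge_of_tendsto hmul ?_
    filter_upwards [Filter.eventually_ge_atTop s0] with s hs
    have hsplit : ∏ p ∈ s, lf l Z (p : ℕ) =
        (∏ p ∈ s0, lf l Z (p : ℕ)) * ∏ p ∈ s \ s0, lf l Z (p : ℕ) := by
      rw [mul_comm, prod_sdiff hs]
    rw [hsplit, hprod]
    have h2 : 0 ≤ ∏ p ∈ Pr 0 y, lf l Z p := prod_nonneg fun p hp => lf_nonneg hZ (mem_filter.1 hp).2
    apply mul_le_mul_of_nonneg_left _ h2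
    classical
    obtain ⟨T, hT⟩ : ∃ T : Finset ℕ, T = (s \ s0).image (fun p : Nat.Primes => (p : ℕ)) := ⟨_, rfl⟩
    have hTm : ∀ p ∈ T, p.Prime ∧ y < p := by
      intro p hp
      rw [hT, mem_image] at hp
      obtain ⟨q, hq, rfl⟩ := hp
      rw [Finset.mem_sdiff, hs0'] at hq
      exact ⟨q.2, not_le.1 hq.2⟩
    have e1 : ∏ p ∈ s \ s0, lf l Z (p : ℕ) = ∏ p ∈ T, lf l Z p := by
      rw [hT]
      exact (Finset.prod_image (f := fun p : ℕ => lf l Z p) (g := fun p : Nat.Primes => (p : ℕ))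
        (fun a _ b _ h => Subtype.ext h)).symm
    rw [e1]
    have hf1 : ∀ p ∈ T, (l : ℝ) ^ 2 * (1 / (p : ℝ) ^ 2) ≤ 1 := by
      intro p hp
      have h3 := (hTm p hp).2
      have h4 : (l : ℝ) ≤ p := by exact_mod_cast (hly.trans h3.le)
      have hp0 : (0 : ℝ) < p := by exact_mod_cast (by omega : 0 < p)
      rw [mul_one_div, div_le_one (by positivity)]
      exact pow_le_pow_left₀ (Nat.cast_nonneg _) h4 2
    have h5 := Pool.Agent.Y840.PT.one_sub_sum_le T (fun p => (l : ℝ) ^ 2 * (1 / (p : ℝ) ^ 2))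
      (fun p _ => by positivity) hf1
    have h6 : ∑ p ∈ T, (l : ℝ) ^ 2 * (1 / (p : ℝ) ^ 2) ≤ 1 / 2 := by
      rw [← mul_sum]
      have h7 := Pool.Agent.Y840.PT.sum_inv_sq T y (by omega) (fun p hp => (hTm p hp).2)
      calc (l : ℝ) ^ 2 * ∑ p ∈ T, 1 / (p : ℝ) ^ 2 ≤ (l : ℝ) ^ 2 * (1 / y) := by gcongr
        _ ≤ 1 / 2 := by
            rw [mul_one_div, div_le_div_iff₀ hy0 (by norm_num), one_mul]
            have : (2 * l ^ 2 : ℕ) ≤ y := by omega
            have h8 : ((2 * l ^ 2 : ℕ) : ℝ) ≤ y := by exact_mod_cast this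
            push_cast at h8
            linarith
    have h9 : ∏ p ∈ T, (1 - (l : ℝ) ^ 2 * (1 / (p : ℝ) ^ 2)) ≤ ∏ p ∈ T, lf l Z p := by
      apply Finset.prod_le_prod
      · intro p hp
        have := hf1 p hp
        linarith
      · intro p hp
        obtain ⟨h10, h11⟩ := hTm p hp
        have := (abs_le.1 (lf_big h10 (by omega) (hbig p h10 h11)).2).1
        linarith
    linarith
  refine le_trans ?_ h1
  have h4 : ∏ p ∈ Pr 0 y, lf l Z p = VV Z 0 y / (∏ p ∈ Pr 0 y, (1 - 1 / (p : ℝ))) ^ l := by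
    unfold lf VV
    rw [prod_div_distrib, prod_pow]
  have h5 : ∏ p ∈ Pr 0 y, (1 - 1 / (p : ℝ)) ≤ C / Real.log y := hm y hy2
  have h6 : 0 < ∏ p ∈ Pr 0 y, (1 - 1 / (p : ℝ)) := by
    apply prod_pos
    intro p hp
    exact Pool.Agent.H386R2.HL.one_sub_pos (mem_filter.1 hp).2
  have hV := VV_pos hZ 0 y
  rw [h4]
  calc 1 / (2 * C ^ l) * Real.log y ^ l * VV Z 0 y = VV Z 0 y / (C / Real.log y) ^ l * (1 / 2) := by
        rw [div_pow]
        field_simp
    _ ≤ _ := by gcongr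

end Pool.Agent.L5helper4.DL
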