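import Pool.Agent.L5helper4.DL.CntB

/-!
# Sifted sets: the differences, unconditionally
-/

set_option autoImplicit false

namespace Pool.Agent.L5helper4.DL

open Finset
open Pool.Agent.Y843.HS

theorem slf_all : Pool.Agent.Y727.PSP.S_SLF := Pool.Agent.Y317.PSP.slf Pool.Agent.Y674.PSP.cs

open Classical in
/-- Let `Z p`, for every prime `p ≤ X ^ κ`, be a set of at most `r` classes modulo `p`, not all of them, and
`S ⊆ (A, A + X]` a set which avoids the classes `Z p` with at least `δ X V` elements,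
`V = ∏ (1 - |Z p| / p)`. Then for every `D` between `(log X) ^ B` and `X / (log X) ^ B` at least `c D` of
the `d ≤ D` are such that for EVERY set `F ∋ 0` of nonnegative integers less than `k` at least
`c X V ^ |F|` elements `n` of `S` are such that `n + j d` is in `S` for all `j` in `F`. -/
theorem cnt (k r : ℕ) (κ δ : ℝ) (hκ : 0 < κ) (hδ : 0 < δ) :
    ∃ (B X₀ : ℕ) (c : ℝ), 0 < c ∧ ∀ X A : ℕ, X₀ ≤ X →
      ∀ Z : ℕ → Finset ℕ, (∀ p : ℕ, p.Prime → (p : ℝ) ≤ (X : ℝ) ^ κ →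
        (Z p).card ≤ r ∧ (Z p).card < p ∧ ∀ c ∈ Z p, c < p) →
      ∀ S : Finset ℕ, S ⊆ Ioc A (A + X) →
      (∀ n ∈ S, ∀ p : ℕ, p.Prime → (p : ℝ) ≤ (X : ℝ) ^ κ → n % p ∉ Z p) →
      δ * X * VV Z 0 ⌊(X : ℝ) ^ κ⌋₊ ≤ S.card →
      ∀ D : ℕ, Real.log X ^ B ≤ D → D * Real.log X ^ B ≤ X →
      c * D ≤ (((Icc 1 D).filter (fun d => ∀ F ⊆ range k, 0 ∈ F →
        c * X * VV Z 0 ⌊(X : ℝ) ^ κ⌋₊ ^ F.card ≤
          ((S.filter (fun n => ∀ j ∈ F, n + j * d ∈ S)).card : ℝ))).card : ℝ) :=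
  partB Pool.Agent.Y257.HS.s_TH cor_all Pool.Agent.Y79.HS.gav Pool.Agent.Y79.HS.den rs_all
    slf_all k r κ δ hκ hδ

end Pool.Agent.L5helper4.DL
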