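import Pool.Agent.L5helper4.DL.Core

/-!
# From residues modulo `N` to integers
-/

set_option autoImplicit false

open Finset

namespace Pool.Agent.L5helper4.DL

open Pool.Agent.H602R3.DHJ (av av_prod av_const av_mono av_nonneg av_add av_sub av_mul av_sum av_comm)
open Pool.Agent.Y727.PSP
open Pool.Agent.Y843.HS
open Pool.Agent.Y79.PSP.MK (rp_mem rp_inj)

variable {k N : ℕ}

theorem sum_av_le [NeZero N] {G T' : Finset ℕ} {W : ℝ} (hW : 0 ≤ W) (h : ℕ → ZMod N → ℝ)
    (ρ : ZMod N → ℕ) (hle : ∀ x a, h x a ≤ W)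
    (h0 : ∀ x ∈ G, ∀ a, h x a ≠ 0 → x + ρ a ∈ T') :
    ∑ x ∈ G, av (h x) ≤ W * T'.card := by
  classical
  have hN0 : (0 : ℝ) < N := by exact_mod_cast Nat.pos_of_ne_zero (NeZero.ne N)
  unfold av
  rw [← sum_div, ZMod.card, div_le_iff₀ hN0, sum_comm]
  have h1 : ∀ a : ZMod N, ∑ x ∈ G, h x a ≤ W * T'.card := by
    intro a
    have h2 : ∑ x ∈ G, h x a ≤ ∑ x ∈ G.filter (fun x => x + ρ a ∈ T'), W := by
      rw [sum_filter]
      apply sum_le_sum
      intro x hx
      split_ifs with h3
      · exact hle x a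
      · by_contra h4
        exact h3 (h0 x hx a (fun h5 => h4 (by rw [h5])))
    refine h2.trans ?_
    rw [sum_const, nsmul_eq_mul, mul_comm]
    apply mul_le_mul_of_nonneg_left _ hW
    have h3 : (G.filter (fun x => x + ρ a ∈ T')).card ≤ T'.card := by
      apply card_le_card_of_injOn (fun x => x + ρ a)
      · intro x hx
        exact (mem_filter.1 hx).2
      · intro x _ y _ hxy
        simpa using hxy
    exact_mod_cast h3
  calc ∑ a : ZMod N, ∑ x ∈ G, h x a ≤ ∑ _a : ZMod N, W * T'.card := sum_le_sum fun a _ => h1 a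
    _ = W * T'.card * N := by
        rw [sum_const, card_univ, ZMod.card, nsmul_eq_mul]
        ring

/-- the difference as an integer -/
theorem diff_int [NeZero N] (hk : 2 ≤ k) {a d : ZMod N}
    (h : ∀ j < k, 2 * rp (a + (j : ZMod N) * d) < N) :
    ∃ e : ℤ, (e : ZMod N) = d ∧ 2 * ((k : ℤ) - 1) * |e| < N := by
  set c : ℕ → ℕ := fun j => rp (a + (j : ZMod N) * d) with hc
  have hc1 : ∀ j, 1 ≤ c j := fun j => (rp_mem _).1
  have hcast : ∀ j, ((c j : ℕ) : ZMod N) = a + (j : ZMod N) * d := fun j => rp_cast _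
  set D : ℤ := (c 1 : ℤ) - c 0 with hD
  have key : ∀ j, j < k → (c j : ℤ) = c 0 + j * D := by
    intro j
    induction j with
    | zero => intro _; simp
    | succ j ih =>
      intro hj
      rcases Nat.eq_zero_or_pos j with h0 | h0
      · subst h0
        rw [hD]; push_cast; ring
      · have ih' := ih (by omega)
        have e1 : ((((c (j + 1) : ℤ) + c 0) - (c j + c 1) : ℤ) : ZMod N) = 0 := by
          push_cast
          rw [hcast, hcast, hcast, hcast]
          push_cast
          ring
        rw [ZMod.intCast_zmod_eq_zero_iff_dvd] at e1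
        have b1 := h (j + 1) hj
        have b2 := h j (by omega)
        have b3 := h 0 (by omega)
        have b4 := h 1 (by omega)
        have b5 := hc1 (j + 1)
        have b6 := hc1 j
        have b7 := hc1 0
        have b8 := hc1 1
        change 2 * c (j + 1) < N at b1
        change 2 * c j < N at b2
        change 2 * c 0 < N at b3
        change 2 * c 1 < N at b4
        have e2 : ((c (j + 1) : ℤ) + c 0) - (c j + c 1) = 0 := by
          apply Int.eq_zero_of_abs_lt_dvd e1
          rw [abs_lt]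
          constructor <;> omega
        have e3 : (c (j + 1) : ℤ) = c j + D := by rw [hD]; linarith
        rw [e3, ih']
        push_cast
        ring
  refine ⟨D, ?_, ?_⟩
  · rw [hD]
    push_cast
    rw [hcast, hcast]
    push_cast
    ring
  · have e1 := key (k - 1) (by omega)
    have b1 := h (k - 1) (by omega)
    have b3 := h 0 (by omega)
    change 2 * c (k - 1) < N at b1
    change 2 * c 0 < N at b3
    have b5 := hc1 (k - 1)
    have b7 := hc1 0
    have e2 : ((k : ℤ) - 1) * |D| = |(c (k - 1) : ℤ) - c 0| := by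
      have e3 : (c (k - 1) : ℤ) - c 0 = ((k : ℤ) - 1) * D := by
        rw [e1, Nat.cast_sub (by omega)]
        push_cast
        ring
      rw [e3, abs_mul, abs_of_nonneg (show (0 : ℤ) ≤ (k : ℤ) - 1 by
        have : (2 : ℤ) ≤ k := by exact_mod_cast hk
        linarith)]
    have e4 : |(c (k - 1) : ℤ) - c 0| * 2 < N := by
      have : |(c (k - 1) : ℤ) - c 0| * 2 = |((c (k - 1) : ℤ) - c 0) * 2| := by
        rw [abs_mul, abs_two]
      rw [this, abs_lt]
      constructor <;> omega
    calc 2 * ((k : ℤ) - 1) * |D| = (((k : ℤ) - 1) * |D|) * 2 := by ring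
      _ = |(c (k - 1) : ℤ) - c 0| * 2 := by rw [e2]
      _ < N := e4

/-- the positions of the terms -/
theorem pos_int [NeZero N] {a d : ZMod N} {e : ℤ} (he : (e : ZMod N) = d)
    (hek : 2 * ((k : ℤ) - 1) * |e| < N) {i j : ℕ} (hj : j < k) (hi : i < k)
    (h0 : 2 * rp (a + (i : ZMod N) * d) < N) (h1 : 2 * rp (a + (j : ZMod N) * d) < N) :
    (rp (a + (j : ZMod N) * d) : ℤ) = rp (a + (i : ZMod N) * d) + ((j : ℤ) - i) * e := by
  have e1 : (((rp (a + (j : ZMod N) * d) : ℤ) - (rp (a + (i : ZMod N) * d) + ((j : ℤ) - i) * e) : ℤ) :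
      ZMod N) = 0 := by
    push_cast
    rw [rp_cast, rp_cast, he]
    ring
  rw [ZMod.intCast_zmod_eq_zero_iff_dvd] at e1
  have e2 : |((j : ℤ) - i) * e| * 2 < N := by
    rw [abs_mul]
    have h3 : |(j : ℤ) - i| ≤ (k : ℤ) - 1 := by
      rw [abs_le]
      constructor <;> omega
    calc |(j : ℤ) - i| * |e| * 2 ≤ ((k : ℤ) - 1) * |e| * 2 := by
          have := mul_le_mul_of_nonneg_right h3 (abs_nonneg e)
          linarith
      _ = 2 * ((k : ℤ) - 1) * |e| := by ring
      _ < N := hek
  have e3 := Int.eq_zero_of_abs_lt_dvd e1 (by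
    have h5 := abs_lt.1 (show |(((j : ℤ) - i) * e) * 2| < N by rw [abs_mul, abs_two]; exact e2)
    generalize ((j : ℤ) - i) * e = u at *
    rw [abs_lt]
    constructor <;> omega)
  linarith

open Classical in
/-- the progressions counted by a difference modulo `N` -/
theorem trans [NeZero N] (hk : 2 ≤ k) {T G : Finset ℕ} {w c2 : ℝ} {X : ℕ} (hw : 0 < w) {d : ZMod N}
    (hd : d ≠ 0)
    (hpos : 0 < ∑ x ∈ G, av (fun a : ZMod N => ∏ j : Fin k, fX T w N x
      (a + ((j : ℕ) : ZMod N) * d)))
    (hall : ∀ S : Finset (Fin k), c2 * X ≤ ∑ x ∈ G, av (fun a : ZMod N =>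
        ∏ j ∈ S, fX T w N x (a + ((j : ℕ) : ZMod N) * d))) :
    ∃ D : ℕ, D ∈ Icc 1 (N / 2) ∧ (d = (D : ZMod N) ∨ d = -(D : ZMod N)) ∧
      ∀ S ⊆ range k, 0 ∈ S →
        c2 * X ≤ w ^ S.card * ((T.filter (fun t => ∀ j ∈ S, t + j * D ∈ T)).card : ℝ) := by
  have hf0 : ∀ x a, 0 ≤ fX T w N x a ∧ fX T w N x a ≤ w := by
    intro x a
    unfold fX
    split_ifs
    · exact ⟨hw.le, le_rfl⟩
    · exact ⟨le_rfl, hw.le⟩
  have hfne : ∀ x (a : ZMod N), fX T w N x a ≠ 0 → x + rp a ∈ T ∧ 2 * rp a < N := by
    intro x a h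
    unfold fX at h
    by_contra hcon
    rw [if_neg hcon] at h
    exact h rfl
  -- a witness
  obtain ⟨x₀, -, hx₀⟩ := exists_ne_zero_of_sum_ne_zero hpos.ne'
  have h2 : ∃ a : ZMod N, ∏ j : Fin k, fX T w N x₀ (a + ((j : ℕ) : ZMod N) * d) ≠ 0 := by
    by_contra hcon
    push Not at hcon
    apply hx₀
    simp_rw [hcon]
    exact av_const 0
  obtain ⟨a₀, ha₀⟩ := h2
  obtain ⟨e, he, hek⟩ := diff_int (k := k) (a := a₀) (d := d) hk (fun j hj => by
    have := prod_ne_zero_iff.1 ha₀ ⟨j, hj⟩ (mem_univ _)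
    exact (hfne _ _ this).2)
  have he0 : e ≠ 0 := by
    rintro rfl
    apply hd
    rw [← he]
    simp
  have hk1 : (1 : ℤ) ≤ (k : ℤ) - 1 := by
    have : (2 : ℤ) ≤ k := by exact_mod_cast hk
    linarith
  have heN : 2 * |e| < N := by
    have h3 : 2 * |e| ≤ 2 * ((k : ℤ) - 1) * |e| := by
      have := mul_le_mul_of_nonneg_right hk1 (abs_nonneg e)
      linarith
    omega
  have hDabs : ((e.natAbs : ℕ) : ℤ) = |e| := Int.natCast_natAbs e
  have hprodle : ∀ (S : Finset (Fin k)) x (a : ZMod N),
      ∏ j ∈ S, fX T w N x (a + ((j : ℕ) : ZMod N) * d) ≤ w ^ S.card := by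
    intro S x a
    calc _ ≤ ∏ _j ∈ S, w := prod_le_prod (fun j _ => (hf0 _ _).1) (fun j _ => (hf0 _ _).2)
      _ = w ^ S.card := by rw [prod_const]
  refine ⟨e.natAbs, ?_, ?_, ?_⟩
  · rw [mem_Icc]
    have : 0 < |e| := abs_pos.2 he0
    constructor <;> omega
  · rcases lt_or_gt_of_ne he0 with h | h
    · right
      rw [← he]
      have h9 : e = -((e.natAbs : ℕ) : ℤ) := by rw [hDabs, abs_of_neg h]; ring
      have h10 : (e : ZMod N) = ((-((e.natAbs : ℕ) : ℤ) : ℤ) : ZMod N) := congrArg _ h9
      rw [h10, Int.cast_neg, Int.cast_natCast]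
    · left
      rw [← he]
      have h9 : e = ((e.natAbs : ℕ) : ℤ) := by rw [hDabs, abs_of_pos h]
      have h10 : (e : ZMod N) = ((((e.natAbs : ℕ) : ℤ) : ℤ) : ZMod N) := congrArg _ h9
      rw [h10, Int.cast_natCast]
  · intro S hS h0S
    have hSk : ∀ j ∈ S, j < k := fun j hj => mem_range.1 (hS hj)
    rcases lt_or_gt_of_ne he0 with hneg | hpos'
    · -- descending
      set m := S.max' ⟨0, h0S⟩ with hm
      have hmS : m ∈ S := max'_mem _ _
      have hmk : m < k := hSk m hmS
      set S' : Finset (Fin k) := univ.filter (fun i : Fin k => (i : ℕ) ≤ m ∧ m - (i : ℕ) ∈ S) with hS'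
      have hc : S'.card = S.card := by
        refine card_bij' (fun (i : Fin k) _ => m - (i : ℕ)) (fun j hj => (⟨m - j, by omega⟩ : Fin k))
          ?_ ?_ ?_ ?_
        · intro i hi
          rw [hS', mem_filter] at hi
          exact hi.2.2
        · intro j hj
          have : j ≤ m := le_max' _ _ hj
          rw [hS', mem_filter]
          refine ⟨mem_univ _, ?_, ?_⟩
          · show m - j ≤ m
            omega
          · show m - (m - j) ∈ S
            rwa [Nat.sub_sub_self this]
        · intro i hi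
          rw [hS', mem_filter] at hi
          apply Fin.ext
          show m - (m - (i : ℕ)) = i
          omega
        · intro j hj
          have : j ≤ m := le_max' _ _ hj
          show m - (m - j) = j
          omega
      refine (hall S').trans ?_
      rw [← hc]
      apply sum_av_le (by positivity) (fun x a => ∏ j ∈ S', fX T w N x (a + ((j : ℕ) : ZMod N) * d))
        (fun a => rp (a + (m : ZMod N) * d)) (fun x a => hprodle S' x a)
      intro x _ a hne
      have hne' := prod_ne_zero_iff.1 hne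
      have hmem : ∀ j ∈ S, x + rp (a + ((m - j : ℕ) : ZMod N) * d) ∈ T ∧
          2 * rp (a + ((m - j : ℕ) : ZMod N) * d) < N := by
        intro j hj
        have hjm : j ≤ m := le_max' _ _ hj
        apply hfne
        exact hne' ⟨m - j, by omega⟩ (by
          rw [hS', mem_filter]
          refine ⟨mem_univ _, Nat.sub_le _ _, ?_⟩
          show m - (m - j) ∈ S
          rwa [Nat.sub_sub_self hjm])
      have h0' := hmem 0 h0S
      rw [Nat.sub_zero] at h0'
      rw [mem_filter]
      refine ⟨h0'.1, ?_⟩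
      intro j hj
      have hjm : j ≤ m := le_max' _ _ hj
      have h5 := hmem j hj
      have h6 := pos_int he hek (i := m) (j := m - j) (by omega) hmk h0'.2 h5.2
      have h7 : x + rp (a + (m : ZMod N) * d) + j * e.natAbs =
          x + rp (a + ((m - j : ℕ) : ZMod N) * d) := by
        have h8 : ((x + rp (a + (m : ZMod N) * d) + j * e.natAbs : ℕ) : ℤ) =
            ((x + rp (a + ((m - j : ℕ) : ZMod N) * d) : ℕ) : ℤ) := by
          push_cast
          rw [h6, ← Int.natCast_natAbs e, hDabs, abs_of_neg hneg, Nat.cast_sub hjm]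
          ring
        exact_mod_cast h8
      rw [h7]
      exact h5.1
    · -- ascending
      set S' : Finset (Fin k) := univ.filter (fun i : Fin k => (i : ℕ) ∈ S) with hS'
      have hc : S'.card = S.card := by
        refine card_bij' (fun (i : Fin k) _ => (i : ℕ)) (fun j hj => (⟨j, hSk j hj⟩ : Fin k))
          ?_ ?_ ?_ ?_
        · intro i hi
          rw [hS', mem_filter] at hi
          exact hi.2
        · intro j hj
          rw [hS', mem_filter]
          exact ⟨mem_univ _, hj⟩
        · intro i hi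
          rfl
        · intro j hj
          rfl
      refine (hall S').trans ?_
      rw [← hc]
      apply sum_av_le (by positivity) (fun x a => ∏ j ∈ S', fX T w N x (a + ((j : ℕ) : ZMod N) * d))
        (fun a => rp (a + ((0 : ℕ) : ZMod N) * d)) (fun x a => hprodle S' x a)
      intro x _ a hne
      have hne' := prod_ne_zero_iff.1 hne
      have hmem : ∀ j ∈ S, x + rp (a + ((j : ℕ) : ZMod N) * d) ∈ T ∧
          2 * rp (a + ((j : ℕ) : ZMod N) * d) < N := by
        intro j hj
        apply hfne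
        exact hne' ⟨j, hSk j hj⟩ (by
          rw [hS', mem_filter]
          exact ⟨mem_univ _, hj⟩)
      have h0' := hmem 0 h0S
      rw [mem_filter]
      refine ⟨h0'.1, ?_⟩
      intro j hj
      have h5 := hmem j hj
      have h6 := pos_int he hek (i := 0) (j := j) (hSk j hj) (by omega) h0'.2 h5.2
      have h7 : x + rp (a + ((0 : ℕ) : ZMod N) * d) + j * e.natAbs =
          x + rp (a + (j : ZMod N) * d) := by
        have h8 : ((x + rp (a + ((0 : ℕ) : ZMod N) * d) + j * e.natAbs : ℕ) : ℤ) =
            ((x + rp (a + (j : ZMod N) * d) : ℕ) : ℤ) := by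
          push_cast [h6]
          rw [← Int.natCast_natAbs e, hDabs, abs_of_pos hpos']
          ring
        exact_mod_cast h8
      rw [h7]
      exact h5.1

end Pool.Agent.L5helper4.DL
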