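import Pool.Agent.L5helper4.DL.Poly
import Pool.Agent.Y959.Sv.Up

/-!
# Upper bound for the number of the arguments with almost prime values of polynomials
-/

set_option autoImplicit false

namespace Pool.Agent.L5helper4.DL

open Polynomial Finset Filter Topology
open Pool.Agent.Y843.HS (Pr VV)
open Pool.Agent.W182.PW Pool.Agent.W123.RP Pool.Agent.H373R2.T7 Pool.Agent.W123.RU
  Pool.Agent.W123.RU.Poly

open Classical in
/-- few arguments `n` such that no `g i (n)` has a small prime factor -/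
theorem polyUp {ι : Type} [Fintype ι] (g : ι → ℤ[X]) (hg : Sys g) (κ : ℝ) (hκ : 0 < κ) :
    ∃ C : ℝ, 0 < C ∧ ∀ᶠ x : ℕ in atTop,
      (((Icc 1 x).filter (fun n => ∀ p : ℕ, p.Prime → (p : ℝ) ≤ (x : ℝ) ^ κ → ¬ Q g p n)).card : ℝ) ≤
        C * (x / Real.log x ^ (Fintype.card ι)) := by
  obtain ⟨m, hm⟩ : ∃ m, m = Fintype.card ι := ⟨_, rfl⟩
  rw [← hm]
  obtain ⟨c₀, hc₀, hQ⟩ := exists_c g hg
  obtain ⟨v, Cv, hv, hCv, hV⟩ := V_bounds g hg
  rw [← hm] at hV
  obtain ⟨K, z0, hK, hup⟩ := Pool.Agent.Y959.Sv.up_sieve c₀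
  set κ' : ℝ := min κ (1 / K) with hκ'
  have hKr : (1 : ℝ) ≤ K := by exact_mod_cast hK
  have hκ'0 : 0 < κ' := lt_min hκ (by positivity)
  have hκ'κ : κ' ≤ κ := min_le_left _ _
  have hκ'K : κ' ≤ 1 / K := min_le_right _ _
  set M : ℝ := ∏ p ∈ (Icc 1 z0).filter Nat.Prime, (p : ℝ) with hM
  have hM1 : 1 ≤ M := by
    rw [hM]
    calc (1 : ℝ) = ∏ _p ∈ (Icc 1 z0).filter Nat.Prime, (1 : ℝ) := by simp
      _ ≤ _ := Finset.prod_le_prod (fun _ _ => zero_le_one) (fun p hp => by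
          rw [mem_filter] at hp
          exact_mod_cast hp.2.one_le)
  refine ⟨2 * M * Cv * (2 / κ') ^ m + 1, by positivity, ?_⟩
  have tN : Tendsto (fun N : ℕ => (N : ℝ)) atTop atTop := tendsto_natCast_atTop_atTop
  have tfl : Tendsto (fun x : ℕ => ⌊(x : ℝ) ^ κ'⌋₊) atTop atTop :=
    tendsto_nat_floor_atTop.comp ((tendsto_rpow_atTop hκ'0).comp tN)
  have hsq : ∀ᶠ x : ℕ in atTop, √(x : ℝ) ≤ x / Real.log x ^ m := by
    have h1 := (isLittleO_log_rpow_rpow_atTop (m : ℝ) (show (0 : ℝ) < 1 / 2 by norm_num)).bound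
      one_pos
    filter_upwards [tN.eventually h1, eventually_ge_atTop 3] with x hx hx1
    have hx0 : (0 : ℝ) < x := by exact_mod_cast (show 0 < x by omega)
    have hl : 0 < Real.log x := Real.log_pos (by exact_mod_cast (show 1 < x by omega))
    rw [Real.norm_of_nonneg (by positivity), Real.norm_of_nonneg (by positivity),
      Real.rpow_natCast, one_mul, ← Real.sqrt_eq_rpow] at hx
    rw [le_div_iff₀ (by positivity)]
    calc √(x : ℝ) * Real.log x ^ m ≤ √(x : ℝ) * √(x : ℝ) := by gcongr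
      _ = x := Real.mul_self_sqrt hx0.le
  filter_upwards [floor_rpow hκ'0, tfl.eventually_ge_atTop (z0 + 3), hsq, eventually_ge_atTop 3] with x
    hfl hyz hsqx hx3
  obtain ⟨hy3, hly2, -⟩ := hfl
  have hx0 : (0 : ℝ) < x := by exact_mod_cast (show 0 < x by omega)
  have hx1 : (1 : ℝ) ≤ x := by exact_mod_cast (show 1 ≤ x by omega)
  have hlog : 0 < Real.log x := Real.log_pos (by exact_mod_cast (show 1 < x by omega))
  set y := ⌊(x : ℝ) ^ κ'⌋₊ with hy
  have hyle : (y : ℝ) ≤ (x : ℝ) ^ κ' := Nat.floor_le (by positivity)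
  have hyK : y ^ K ≤ x := by
    have h1 : (y : ℝ) ^ K ≤ x := by
      calc (y : ℝ) ^ K ≤ ((x : ℝ) ^ κ') ^ K := pow_le_pow_left₀ (Nat.cast_nonneg _) hyle _
        _ = (x : ℝ) ^ (κ' * K) := by rw [← Real.rpow_natCast, ← Real.rpow_mul hx0.le]
        _ ≤ (x : ℝ) ^ (1 : ℝ) := by
            apply Real.rpow_le_rpow_of_exponent_le hx1
            rwa [le_div_iff₀ (by linarith)] at hκ'K
        _ = x := Real.rpow_one _
    exact_mod_cast h1
  obtain ⟨P, hP⟩ : ∃ P, P = (Icc (z0 + 1) y).filter Nat.Prime := ⟨_, rfl⟩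
  have hPm : ∀ p, p ∈ P ↔ (z0 < p ∧ p ≤ y) ∧ p.Prime := by
    intro p
    rw [hP, mem_filter, mem_Icc, Nat.succ_le_iff]
  have h1 := hup y x hy3 hyK (Q g) hQ.per P (fun p hp => by
    rw [hPm] at hp
    exact ⟨hp.2, hp.1.1, hp.1.2, by
      have := hQ.few p hp.2
      unfold nuB at this
      unfold Pool.Agent.Y959.Sv.nu
      convert this⟩)
  have h2 : (((Icc 1 x).filter (fun n => ∀ p : ℕ, p.Prime → (p : ℝ) ≤ (x : ℝ) ^ κ → ¬ Q g p n)).card : ℝ) ≤
      (((Icc 1 x).filter (fun n : ℕ => ∀ p ∈ P, ¬ Q g p n)).card : ℝ) := by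
    have : (Icc 1 x).filter (fun n => ∀ p : ℕ, p.Prime → (p : ℝ) ≤ (x : ℝ) ^ κ → ¬ Q g p n) ⊆
        (Icc 1 x).filter (fun n : ℕ => ∀ p ∈ P, ¬ Q g p n) := by
      intro n hn
      rw [mem_filter] at hn ⊢
      refine ⟨hn.1, fun p hp => ?_⟩
      rw [hPm] at hp
      refine hn.2 p hp.2 ?_
      calc (p : ℝ) ≤ y := by exact_mod_cast hp.1.2
        _ ≤ (x : ℝ) ^ κ' := hyle
        _ ≤ (x : ℝ) ^ κ := Real.rpow_le_rpow_of_exponent_le hx1 hκ'κ
    exact_mod_cast card_le_card this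
  refine h2.trans (h1.trans ?_)
  -- the product
  have hnu : ∀ p, p.Prime → Pool.Agent.Y959.Sv.nu (Q g) p + 1 ≤ p := by
    intro p hp
    obtain ⟨a, ha⟩ := hg.adm p hp
    have h3 : (range p).filter (fun r => Q g p r) ⊂ range p := by
      rw [ssubset_iff_subset_ne]
      refine ⟨filter_subset _ _, fun h4 => ?_⟩
      have h5 : a % p ∈ (range p).filter (fun r => Q g p r) := by
        rw [h4, mem_range]
        exact Nat.mod_lt _ hp.pos
      rw [mem_filter] at h5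
      obtain ⟨i, hi⟩ := (hQ.per p a).2 h5.2
      exact ha i hi
    have h4 := card_lt_card h3
    rw [card_range] at h4
    have h5 : Pool.Agent.Y959.Sv.nu (Q g) p < p := by
      unfold Pool.Agent.Y959.Sv.nu
      convert h4
    exact h5
  have hfac : ∀ p : ℕ, p.Prime → 0 ≤ 1 - (Pool.Agent.Y959.Sv.nu (Q g) p : ℝ) / p ∧
      1 ≤ (p : ℝ) * (1 - (Pool.Agent.Y959.Sv.nu (Q g) p : ℝ) / p) := by
    intro p hp
    have h3 : (Pool.Agent.Y959.Sv.nu (Q g) p : ℝ) + 1 ≤ p := by exact_mod_cast hnu p hp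
    have hp0 : (0 : ℝ) < p := by exact_mod_cast hp.pos
    constructor
    · rw [sub_nonneg, div_le_one hp0]
      linarith
    · rw [mul_sub, mul_one, mul_div_cancel₀ _ hp0.ne']
      linarith
  have hprod : ∏ p ∈ P, (1 - (Pool.Agent.Y959.Sv.nu (Q g) p : ℝ) / p) ≤ M * Vq (Q g) y := by
    have e : (Icc 1 y).filter Nat.Prime = (Icc 1 z0).filter Nat.Prime ∪ P := by
      ext p
      rw [mem_union, hPm, mem_filter, mem_filter, mem_Icc, mem_Icc]
      constructor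
      · rintro ⟨⟨h3, h4⟩, h5⟩
        by_cases h : p ≤ z0
        · exact Or.inl ⟨⟨h3, h⟩, h5⟩
        · exact Or.inr ⟨⟨by omega, h4⟩, h5⟩
      · rintro (⟨⟨h3, h4⟩, h5⟩ | ⟨⟨h3, h4⟩, h5⟩)
        · exact ⟨⟨h3, by omega⟩, h5⟩
        · exact ⟨⟨by omega, h4⟩, h5⟩
    have hd : Disjoint ((Icc 1 z0).filter Nat.Prime) P := by
      rw [disjoint_left]
      intro p h3 h4
      rw [hPm] at h4
      rw [mem_filter, mem_Icc] at h3
      omega
    have e2 : Vq (Q g) y = (∏ p ∈ (Icc 1 z0).filter Nat.Prime,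
        (1 - (Pool.Agent.Y959.Sv.nu (Q g) p : ℝ) / p)) *
        ∏ p ∈ P, (1 - (Pool.Agent.Y959.Sv.nu (Q g) p : ℝ) / p) := by
      rw [← prod_union hd, ← e]
      rfl
    rw [e2, ← mul_assoc, hM, ← prod_mul_distrib]
    have h3 : 1 ≤ ∏ p ∈ (Icc 1 z0).filter Nat.Prime,
        ((p : ℝ) * (1 - (Pool.Agent.Y959.Sv.nu (Q g) p : ℝ) / p)) := by
      calc (1 : ℝ) = ∏ _p ∈ (Icc 1 z0).filter Nat.Prime, (1 : ℝ) := by simp
        _ ≤ _ := Finset.prod_le_prod (fun _ _ => zero_le_one) (fun p hp => by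
            rw [mem_filter] at hp
            exact (hfac p hp.2).2)
    have h4 : 0 ≤ ∏ p ∈ P, (1 - (Pool.Agent.Y959.Sv.nu (Q g) p : ℝ) / p) :=
      prod_nonneg fun p hp => (hfac p ((hPm p).1 hp).2).1
    exact le_mul_of_one_le_left h4 h3
  obtain ⟨-, hVhi⟩ := hV y hy3
  have hylog : 0 < Real.log y := Real.log_pos (by exact_mod_cast (by omega : 1 < y))
  calc 2 * (x * ∏ p ∈ P, (1 - (Pool.Agent.Y959.Sv.nu (Q g) p : ℝ) / p)) + √(x : ℝ)
      ≤ 2 * (x * (M * (Cv / Real.log y ^ m))) + x / Real.log x ^ m := by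
        gcongr
        exact hprod.trans (mul_le_mul_of_nonneg_left hVhi (by linarith))
    _ ≤ 2 * (x * (M * (Cv / (κ' / 2 * Real.log x) ^ m))) + x / Real.log x ^ m := by
        gcongr
    _ = (2 * M * Cv * (2 / κ') ^ m + 1) * (x / Real.log x ^ m) := by
        rw [mul_pow, div_pow, div_pow]
        field_simp

end Pool.Agent.L5helper4.DL
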