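import Pool.Agent.L5helper4.DL.Poly

/-!
# Almost prime values of polynomials in windows: the differences `d` for which all parts of
# `0, d, …, (k - 1) d` occur often
-/

set_option autoImplicit false

namespace Pool.Agent.L5helper4.DL

open Polynomial Finset Filter Topology
open Pool.Agent.Y843.HS (Pr VV)
open Pool.Agent.W182.PW Pool.Agent.W123.RP Pool.Agent.H373R2.T7 Pool.Agent.W123.RU
  Pool.Agent.W123.RU.Poly

open Classical in
/-- **Dense sets of arguments with almost prime values, in windows.** -/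
theorem polyWin {ι : Type} [Fintype ι] (g : ι → ℤ[X]) (hg : Sys g) (k : ℕ) (κ δ : ℝ)
    (hκ : 0 < κ) (hκ1 : κ ≤ 1) (hδ : 0 < δ) :
    ∃ (B H₀ : ℕ) (c : ℝ), 0 < c ∧ ∀ H A : ℕ, H₀ ≤ H → ∀ P : Finset ℕ, P ⊆ Ioc A (A + H) →
      (∀ n ∈ P, ∀ i, ∀ p : ℕ, p.Prime → (p : ℤ) ∣ (g i).eval (n : ℤ) → (H : ℝ) ^ κ < p) →
      δ * (H / Real.log H ^ (Fintype.card ι)) ≤ P.card →
      ∀ D : ℕ, Real.log H ^ B ≤ D → D * Real.log H ^ B ≤ H →
      c * D ≤ (((Icc 1 D).filter (fun d => ∀ F ⊆ range k, 0 ∈ F →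
        c * (H / Real.log H ^ (Fintype.card ι * F.card)) ≤
          ((P.filter (fun p => ∀ j ∈ F, p + j * d ∈ P)).card : ℝ))).card : ℝ) := by
  obtain ⟨m, hm⟩ : ∃ m, m = Fintype.card ι := ⟨_, rfl⟩
  rw [← hm]
  obtain ⟨c₀, hc₀, hQ⟩ := exists_c g hg
  obtain ⟨v, Cv, hv, hCv, hV⟩ := V_bounds g hg
  rw [← hm] at hV
  obtain ⟨B, X₀, c, hc, hcnt⟩ := cnt k c₀ κ (δ * (κ / 2) ^ m / Cv) hκ (by positivity)
  set c' := min c (c * min 1 v ^ k) with hc'
  have hm0 : 0 < min 1 v := lt_min one_pos hv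
  have hc'0 : 0 < c' := lt_min hc (by positivity)
  have tN : Tendsto (fun N : ℕ => (N : ℝ)) atTop atTop := tendsto_natCast_atTop_atTop
  have hlog1 : ∀ᶠ x : ℕ in atTop, 1 ≤ Real.log x :=
    (Real.tendsto_log_atTop.comp tN).eventually_ge_atTop 1
  obtain ⟨H₀, hH₀⟩ := eventually_atTop.1 ((floor_rpow hκ).and (hlog1.and
    ((eventually_ge_atTop X₀).and (eventually_ge_atTop 2))))
  refine ⟨B, H₀, c', hc'0, ?_⟩
  intro x A hxH P hPA hP hPc D hD1 hD2
  obtain ⟨hfl, hlx, hxX, hx2⟩ := hH₀ x hxH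
  obtain ⟨hy3, hly2, hly1⟩ := hfl
  have hx0 : (0 : ℝ) < x := by exact_mod_cast (show 0 < x by omega)
  have hlog : 0 < Real.log x := by linarith
  set y := ⌊(x : ℝ) ^ κ⌋₊ with hy
  have hylog : 0 < Real.log y := Real.log_pos (by exact_mod_cast (by omega : 1 < y))
  obtain ⟨hVlo, hVhi⟩ := hV y hy3
  rw [← VV_ZQ] at hVlo hVhi
  have hly3 : Real.log y ≤ Real.log x := hly1.trans (mul_le_of_le_one_left hlog.le hκ1)
  have hSc : δ * (κ / 2) ^ m / Cv * x * VV (ZQ g) 0 y ≤ P.card := by
    refine le_trans ?_ hPc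
    calc δ * (κ / 2) ^ m / Cv * x * VV (ZQ g) 0 y
        ≤ δ * (κ / 2) ^ m / Cv * x * (Cv / Real.log y ^ m) :=
          mul_le_mul_of_nonneg_left hVhi (by positivity)
      _ = δ * x * ((κ / 2) ^ m / Real.log y ^ m) := by field_simp
      _ ≤ δ * x * ((κ / 2) ^ m / (κ / 2 * Real.log x) ^ m) := by
          apply mul_le_mul_of_nonneg_left _ (by positivity)
          apply div_le_div_of_nonneg_left (by positivity) (by positivity)
          exact pow_le_pow_left₀ (by positivity) hly2 _
      _ = δ * (x / Real.log x ^ m) := by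
          rw [mul_pow]
          field_simp
  have hmain := hcnt x A hxX (ZQ g) (by
    intro p hp _
    refine ⟨?_, ?_, ?_⟩
    · have := hQ.few p hp
      unfold nuB at this
      exact this
    · obtain ⟨a, ha⟩ := hg.adm p hp
      have h1 : ZQ g p ⊂ range p := by
        rw [ssubset_iff_subset_ne]
        refine ⟨filter_subset _ _, ?_⟩
        intro h2
        have h3 : a % p ∈ ZQ g p := by
          rw [h2, mem_range]
          exact Nat.mod_lt _ hp.pos
        unfold ZQ at h3
        rw [mem_filter] at h3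
        obtain ⟨i, hi⟩ := (hQ.per p a).2 h3.2
        exact ha i hi
      have h2 := card_lt_card h1
      rwa [card_range] at h2
    · intro c hc
      unfold ZQ at hc
      rw [mem_filter, mem_range] at hc
      exact hc.1) P hPA (by
    intro n hn p hp hpx
    unfold ZQ
    rw [mem_filter]
    rintro ⟨_, h0⟩
    rw [← hQ.per p n] at h0
    obtain ⟨i, hi⟩ := h0
    have := hP n hn i p hp hi
    linarith) hSc D hD1 hD2
  have hD0 : (0 : ℝ) ≤ D := Nat.cast_nonneg D
  refine (mul_le_mul_of_nonneg_right (min_le_left _ _) hD0).trans (hmain.trans ?_)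
  have hsub : (Icc 1 D).filter (fun d => ∀ F ⊆ range k, 0 ∈ F →
        c * x * VV (ZQ g) 0 y ^ F.card ≤
          ((P.filter (fun n => ∀ j ∈ F, n + j * d ∈ P)).card : ℝ)) ⊆
      (Icc 1 D).filter (fun d => ∀ F ⊆ range k, 0 ∈ F →
        c' * (x / Real.log x ^ (m * F.card)) ≤
          ((P.filter (fun p => ∀ j ∈ F, p + j * d ∈ P)).card : ℝ)) := by
    intro d hd
    rw [mem_filter] at hd ⊢
    refine ⟨hd.1, ?_⟩
    intro F hF h0F
    have h1 := hd.2 F hF h0F
    refine le_trans ?_ h1
    have hFc : F.card ≤ k := by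
      have := card_le_card hF
      rwa [card_range] at this
    have h3 : v / Real.log x ^ m ≤ VV (ZQ g) 0 y := by
      refine le_trans ?_ hVlo
      apply div_le_div_of_nonneg_left hv.le (by positivity)
      exact pow_le_pow_left₀ hylog.le hly3 _
    have h4 : min 1 v ^ k / Real.log x ^ (m * F.card) ≤ VV (ZQ g) 0 y ^ F.card := by
      calc min 1 v ^ k / Real.log x ^ (m * F.card)
          ≤ min 1 v ^ F.card / Real.log x ^ (m * F.card) := by
            apply div_le_div_of_nonneg_right _ (by positivity)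
            exact pow_le_pow_of_le_one hm0.le (min_le_left _ _) hFc
        _ ≤ v ^ F.card / Real.log x ^ (m * F.card) := by
            apply div_le_div_of_nonneg_right _ (by positivity)
            exact pow_le_pow_left₀ hm0.le (min_le_right _ _) _
        _ = (v / Real.log x ^ m) ^ F.card := by rw [div_pow, pow_mul]
        _ ≤ _ := pow_le_pow_left₀ (by positivity) h3 _
    calc c' * (x / Real.log x ^ (m * F.card)) ≤
          (c * min 1 v ^ k) * (x / Real.log x ^ (m * F.card)) :=
          mul_le_mul_of_nonneg_right (min_le_right _ _) (by positivity)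
      _ = c * x * (min 1 v ^ k / Real.log x ^ (m * F.card)) := by ring
      _ ≤ _ := mul_le_mul_of_nonneg_left h4 (by positivity)
  exact_mod_cast card_le_card hsub

end Pool.Agent.L5helper4.DL
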